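import Mathlib

set_option autoImplicit false

/-!
# Random linear images of product sets cover `ZMod p`

A set of pairs of integers whose sums take `M` values, while the coordinates and the differences
take at most `N` values, gives, for every prime `p ≤ M ^ k`, a set of `O (N ^ k log p)` residues
modulo `p` such that every residue is a sum of two members whose difference is a member.
-/

namespace Pool.Agent.KS6_62.QI

open Finset

section lin

variable {p : ℕ} [Fact p.Prime] {k : ℕ}

/-- the linear form with coefficients `w` -/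
def dot (w β : Fin k → ZMod p) : ZMod p := ∑ i, w i * β i

lemma dot_sub (v w β : Fin k → ZMod p) : dot (v - w) β = dot v β - dot w β := by
  simp [dot, sub_mul, Finset.sum_sub_distrib]

lemma dot_add_right (w β γ : Fin k → ZMod p) : dot w (β + γ) = dot w β + dot w γ := by
  simp [dot, mul_add, Finset.sum_add_distrib]

/-- the kernel of a nonzero linear form -/
lemma card_ker (w : Fin k → ZMod p) (hw : w ≠ 0) :
    p * (univ.filter fun β : Fin k → ZMod p => dot w β = 0).card =
      Fintype.card (Fin k → ZMod p) := by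
  obtain ⟨i, hi⟩ : ∃ i, w i ≠ 0 := by
    by_contra h
    push Not at h
    exact hw (funext h)
  have hfib : ∀ c : ZMod p, (univ.filter fun β : Fin k → ZMod p => dot w β = c).card =
      (univ.filter fun β : Fin k → ZMod p => dot w β = 0).card := by
    intro c
    have hγ : dot w (Pi.single i (c * (w i)⁻¹)) = c := by
      rw [dot, Finset.sum_eq_single i]
      · rw [Pi.single_eq_same]
        field_simp
      · intro j _ hj
        rw [Pi.single_eq_of_ne hj, mul_zero]
      · intro h
        exact absurd (mem_univ _) h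
    refine Finset.card_bij (fun β _ => β - Pi.single i (c * (w i)⁻¹)) ?_ ?_ ?_
    · intro β hβ
      rw [mem_filter] at hβ ⊢
      refine ⟨mem_univ _, ?_⟩
      have := dot_add_right w (β - Pi.single i (c * (w i)⁻¹)) (Pi.single i (c * (w i)⁻¹))
      rw [sub_add_cancel, hβ.2, hγ] at this
      have h2 := congrArg (fun t => t - c) this
      simpa using h2.symm
    · intro β _ γ _ h
      exact sub_left_injective h
    · intro β hβ
      rw [mem_filter] at hβ
      refine ⟨β + Pi.single i (c * (w i)⁻¹), ?_, by simp⟩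
      rw [mem_filter]
      exact ⟨mem_univ _, by rw [dot_add_right, hβ.2, hγ, zero_add]⟩
  have h := Finset.card_eq_sum_card_fiberwise (f := fun β : Fin k → ZMod p => dot w β)
    (s := univ) (t := univ) (fun _ _ => Finset.mem_coe.2 (mem_univ _))
  rw [Finset.card_univ] at h
  rw [h, Finset.sum_congr rfl fun c _ => hfib c, Finset.sum_const, Finset.card_univ, ZMod.card,
    smul_eq_mul]

/-- Some linear form maps at least half of the residues. -/
lemma exists_form {ι : Type*} [DecidableEq ι] (V : Finset ι) (f : ι → Fin k → ZMod p)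
    (hf : Set.InjOn f (V : Set ι)) (hV : p ≤ V.card) :
    ∃ β : Fin k → ZMod p, p ≤ 2 * (V.image fun v => dot (f v) β).card := by
  classical
  have hp : 0 < p := (Fact.out : p.Prime).pos
  have hV0 : 0 < V.card := lt_of_lt_of_le hp hV
  set coll : (Fin k → ZMod p) → ℕ := fun β =>
    ((V ×ˢ V).filter fun q => dot (f q.1) β = dot (f q.2) β).card with hcoll
  -- the total number of collisions
  have htot : ∑ β : Fin k → ZMod p, p * coll β ≤
      ∑ _β : Fin k → ZMod p, (V.card * p + V.card * V.card) := by
    have e1 : ∑ β : Fin k → ZMod p, p * coll β =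
        ∑ q ∈ V ×ˢ V, p * (univ.filter fun β : Fin k → ZMod p =>
          dot (f q.1) β = dot (f q.2) β).card := by
      rw [← Finset.mul_sum, ← Finset.mul_sum]
      congr 1
      simp only [hcoll, Finset.card_filter]
      rw [Finset.sum_comm]
    rw [e1]
    have e2 : ∀ q ∈ V ×ˢ V, p * (univ.filter fun β : Fin k → ZMod p =>
          dot (f q.1) β = dot (f q.2) β).card ≤
        (if q.1 = q.2 then p else 0) * Fintype.card (Fin k → ZMod p) +
          Fintype.card (Fin k → ZMod p) := by
      intro q hq
      rw [mem_product] at hq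
      by_cases h : q.1 = q.2
      · rw [if_pos h]
        have : (univ.filter fun β : Fin k → ZMod p => dot (f q.1) β = dot (f q.2) β).card ≤
            Fintype.card (Fin k → ZMod p) := Finset.card_le_univ _
        exact (Nat.mul_le_mul_left _ this).trans (Nat.le_add_right _ _)
      · rw [if_neg h, zero_mul, zero_add]
        have hne : f q.1 - f q.2 ≠ 0 := by
          intro h0
          exact h (hf hq.1 hq.2 (sub_eq_zero.1 h0))
        have h1 := card_ker _ hne
        have h2 : (univ.filter fun β : Fin k → ZMod p => dot (f q.1) β = dot (f q.2) β) =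
            univ.filter fun β : Fin k → ZMod p => dot (f q.1 - f q.2) β = 0 := by
          ext β
          rw [mem_filter, mem_filter, dot_sub, sub_eq_zero]
        rw [h2, h1]
    refine (Finset.sum_le_sum e2).trans (le_of_eq ?_)
    rw [Finset.sum_add_distrib, ← Finset.sum_mul, Finset.sum_product, Finset.sum_const,
      Finset.sum_const, Finset.card_univ, smul_eq_mul, smul_eq_mul, Finset.card_product]
    have e3 : ∀ x ∈ V, ∑ y ∈ V, (if x = y then p else 0) = p := by
      intro x hx
      rw [Finset.sum_ite_eq, if_pos hx]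
    rw [Finset.sum_congr rfl e3, Finset.sum_const, smul_eq_mul]
    ring
  obtain ⟨β, -, hβ⟩ := Finset.exists_le_of_sum_le (Finset.univ_nonempty) htot
  refine ⟨β, ?_⟩
  set B := V.image fun v => dot (f v) β with hB
  -- Cauchy-Schwarz
  have hsum : V.card = ∑ b ∈ B, (V.filter fun v => dot (f v) β = b).card :=
    Finset.card_eq_sum_card_fiberwise fun v hv => Finset.mem_coe.2 (mem_image_of_mem _ hv)
  have hcs : V.card ^ 2 ≤ B.card * coll β := by
    have h1 := sq_sum_le_card_mul_sum_sq (s := B)
      (f := fun b => ((V.filter fun v => dot (f v) β = b).card : ℕ))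
    rw [← hsum] at h1
    refine h1.trans (Nat.mul_le_mul_left _ ?_)
    have h2 : coll β = ∑ b ∈ B, (((V ×ˢ V).filter fun q => dot (f q.1) β = dot (f q.2) β).filter
        fun q => dot (f q.1) β = b).card := by
      apply Finset.card_eq_sum_card_fiberwise
      intro q hq
      have := (mem_filter.1 (Finset.mem_coe.1 hq)).1
      exact Finset.mem_coe.2 (mem_image_of_mem (fun v => dot (f v) β) (mem_product.1 this).1)
    rw [h2]
    refine Finset.sum_le_sum fun b _ => ?_
    rw [sq, ← Finset.card_product]
    apply Finset.card_le_card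
    intro q hq
    rw [mem_product, mem_filter, mem_filter] at hq
    rw [mem_filter, mem_filter, mem_product]
    exact ⟨⟨⟨hq.1.1, hq.2.1⟩, by rw [hq.1.2, hq.2.2]⟩, hq.1.2⟩
  have h3 : p * V.card ^ 2 ≤ B.card * (V.card * p + V.card * V.card) :=
    calc p * V.card ^ 2 ≤ p * (B.card * coll β) := Nat.mul_le_mul_left _ hcs
      _ = B.card * (p * coll β) := by ring
      _ ≤ _ := Nat.mul_le_mul_left _ hβ
  have h4 : p * V.card * V.card ≤ 2 * B.card * V.card * V.card := by
    calc p * V.card * V.card = p * V.card ^ 2 := by ring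
      _ ≤ B.card * (V.card * p + V.card * V.card) := h3
      _ ≤ B.card * (V.card * V.card + V.card * V.card) :=
          Nat.mul_le_mul_left _ (Nat.add_le_add_right (Nat.mul_le_mul_left _ hV) _)
      _ = _ := by ring
  exact Nat.le_of_mul_le_mul_right (Nat.le_of_mul_le_mul_right h4 hV0) hV0

end lin

/-- Covering a finite group by few translates of a set that contains half of it. -/
lemma exists_shifts {G : Type*} [AddCommGroup G] [Fintype G] [DecidableEq G] (B : Finset G)
    (hB : Fintype.card G ≤ 2 * B.card) (l : ℕ) :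
    ∃ τ : Finset G, τ.card ≤ l ∧
      2 ^ l * (univ.filter fun s : G => ∀ t ∈ τ, s - t ∉ B).card ≤ Fintype.card G := by
  induction l with
  | zero =>
    refine ⟨∅, by simp, ?_⟩
    rw [pow_zero, one_mul]
    exact Finset.card_le_univ _
  | succ l ih =>
    obtain ⟨τ, h1, h2⟩ := ih
    set U := univ.filter fun s : G => ∀ t ∈ τ, s - t ∉ B with hU
    have hG : 0 < Fintype.card G := Fintype.card_pos
    -- a good shift
    have hsum : ∑ t : G, (U.filter fun s => s - t ∈ B).card = U.card * B.card := by
      simp only [Finset.card_filter]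
      rw [Finset.sum_comm]
      have : ∀ s ∈ U, ∑ t : G, (if s - t ∈ B then 1 else 0) = B.card := by
        intro s _
        rw [← Finset.card_filter]
        refine Finset.card_bij (fun t _ => s - t) ?_ ?_ ?_
        · intro t ht; exact (mem_filter.1 ht).2
        · intro t _ t' _ h; exact sub_right_injective h
        · intro b hb
          exact ⟨s - b, by simp [hb], by simp⟩
      rw [Finset.sum_congr rfl this, Finset.sum_const, smul_eq_mul]
    have hex : ∃ t ∈ (univ : Finset G), U.card ≤ 2 * (U.filter fun s => s - t ∈ B).card := by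
      apply Finset.exists_le_of_sum_le Finset.univ_nonempty
      rw [← Finset.mul_sum, hsum, Finset.sum_const, Finset.card_univ, smul_eq_mul]
      calc Fintype.card G * U.card ≤ 2 * B.card * U.card := Nat.mul_le_mul_right _ hB
        _ = 2 * (U.card * B.card) := by ring
    obtain ⟨t, -, ht⟩ := hex
    refine ⟨insert t τ, (Finset.card_insert_le _ _).trans (Nat.succ_le_succ h1), ?_⟩
    have h3 : (univ.filter fun s : G => ∀ t' ∈ insert t τ, s - t' ∉ B) =
        U.filter fun s => ¬ s - t ∈ B := by
      ext s
      simp only [mem_filter, mem_univ, true_and, mem_insert, forall_eq_or_imp, hU]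
      exact and_comm
    rw [h3]
    have h4 := Finset.card_filter_add_card_filter_not (s := U) (fun s => s - t ∈ B)
    have h5 : 2 * (U.filter fun s => ¬ s - t ∈ B).card ≤ U.card := by omega
    calc 2 ^ (l + 1) * (U.filter fun s => ¬ s - t ∈ B).card
        = 2 ^ l * (2 * (U.filter fun s => ¬ s - t ∈ B).card) := by ring
      _ ≤ 2 ^ l * U.card := Nat.mul_le_mul_left _ h5
      _ ≤ Fintype.card G := h2

/-- all residues are covered -/
lemma exists_shifts_all {p : ℕ} [Fact p.Prime] (B : Finset (ZMod p)) (hB : p ≤ 2 * B.card) :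
    ∃ τ : Finset (ZMod p), τ.card ≤ Nat.log 2 p + 1 ∧ ∀ s : ZMod p, ∃ t ∈ τ, s - t ∈ B := by
  obtain ⟨τ, h1, h2⟩ := exists_shifts B (by rwa [ZMod.card]) (Nat.log 2 p + 1)
  refine ⟨τ, h1, fun s => ?_⟩
  by_contra hs
  push Not at hs
  rw [ZMod.card] at h2
  have h3 : 0 < (univ.filter fun s : ZMod p => ∀ t ∈ τ, s - t ∉ B).card :=
    Finset.card_pos.2 ⟨s, by simpa using hs⟩
  have h4 : p < 2 ^ (Nat.log 2 p + 1) := Nat.lt_pow_succ_log_self (by norm_num) p
  have h5 : 2 ^ (Nat.log 2 p + 1) * 1 ≤
      2 ^ (Nat.log 2 p + 1) * (univ.filter fun s : ZMod p => ∀ t ∈ τ, s - t ∉ B).card :=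
    Nat.mul_le_mul_left _ h3
  omega

/-- **The modular sets.** -/
theorem exists_mod {p : ℕ} [Fact p.Prime] (W : Finset (ℤ × ℤ)) (N k : ℕ)
    (hinj : ∀ v ∈ W, ∀ w ∈ W, ((v.1 + v.2 : ℤ) : ZMod p) = ((w.1 + w.2 : ℤ) : ZMod p) → v = w)
    (hx : (W.image Prod.fst).card ≤ N) (hy : (W.image Prod.snd).card ≤ N)
    (hz : (W.image fun q => q.1 - q.2).card ≤ N) (hp : p ≤ W.card ^ k) :
    ∃ T : Finset (ZMod p), T.card ≤ (2 * (Nat.log 2 p + 1) + 1) * N ^ k ∧
      ∀ s : ZMod p, ∃ x ∈ T, ∃ y ∈ T, x + y = s ∧ x - y ∈ T := by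
  classical
  set V : Finset (Fin k → ℤ × ℤ) := Fintype.piFinset fun _ => W with hV
  have hVc : V.card = W.card ^ k := by
    rw [hV, Fintype.card_piFinset, Finset.prod_const, Finset.card_univ, Fintype.card_fin]
  set f : (Fin k → ℤ × ℤ) → Fin k → ZMod p := fun v i => (((v i).1 + (v i).2 : ℤ) : ZMod p)
    with hf
  have hfinj : Set.InjOn f (V : Set (Fin k → ℤ × ℤ)) := by
    intro v hv w hw h
    funext i
    have hv' := Fintype.mem_piFinset.1 (Finset.mem_coe.1 hv) i
    have hw' := Fintype.mem_piFinset.1 (Finset.mem_coe.1 hw) i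
    exact hinj _ hv' _ hw' (congrFun h i)
  obtain ⟨β, hβ⟩ := exists_form V f hfinj (by rw [hVc]; exact hp)
  obtain ⟨τ, hτ, hcov⟩ := exists_shifts_all _ hβ
  -- the image of a set of words
  let im : Finset ℤ → Finset (ZMod p) := fun D =>
    (Fintype.piFinset fun _ : Fin k => D).image fun u => dot (fun i => ((u i : ℤ) : ZMod p)) β
  have him : ∀ D : Finset ℤ, D.card ≤ N → (im D).card ≤ N ^ k := by
    intro D hD
    refine Finset.card_image_le.trans ?_
    rw [Fintype.card_piFinset, Finset.prod_const, Finset.card_univ, Fintype.card_fin]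
    exact Nat.pow_le_pow_left hD k
  let X := im (W.image Prod.fst)
  let Y := im (W.image Prod.snd)
  let Z := im (W.image fun q => q.1 - q.2)
  refine ⟨((τ ×ˢ X).image fun q => q.1 + q.2) ∪ Y ∪ ((τ ×ˢ Z).image fun q => q.1 + q.2), ?_, ?_⟩
  · have a1 : ((τ ×ˢ X).image fun q => q.1 + q.2).card ≤ (Nat.log 2 p + 1) * N ^ k := by
      refine Finset.card_image_le.trans ?_
      rw [Finset.card_product]
      exact Nat.mul_le_mul hτ (him _ hx)
    have a2 : ((τ ×ˢ Z).image fun q => q.1 + q.2).card ≤ (Nat.log 2 p + 1) * N ^ k := by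
      refine Finset.card_image_le.trans ?_
      rw [Finset.card_product]
      exact Nat.mul_le_mul hτ (him _ hz)
    have a3 : Y.card ≤ N ^ k := him _ hy
    refine (Finset.card_union_le _ _).trans ?_
    refine (Nat.add_le_add ((Finset.card_union_le _ _).trans (Nat.add_le_add a1 a3)) a2).trans ?_
    apply le_of_eq
    ring
  · intro s
    obtain ⟨t, ht, hs⟩ := hcov s
    obtain ⟨v, hv, hvs⟩ := mem_image.1 hs
    have hvW : ∀ i, v i ∈ W := fun i => Fintype.mem_piFinset.1 hv i
    set x : ZMod p := dot (fun i => (((v i).1 : ℤ) : ZMod p)) β with hxd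
    set y : ZMod p := dot (fun i => (((v i).2 : ℤ) : ZMod p)) β with hyd
    have hxy : x + y = s - t := by
      rw [← hvs, hxd, hyd]
      simp only [dot, hf, ← Finset.sum_add_distrib, ← add_mul]
      push_cast
      rfl
    have hxm : x ∈ X := mem_image.2 ⟨fun i => (v i).1,
      Fintype.mem_piFinset.2 fun i => mem_image_of_mem _ (hvW i), rfl⟩
    have hym : y ∈ Y := mem_image.2 ⟨fun i => (v i).2,
      Fintype.mem_piFinset.2 fun i => mem_image_of_mem _ (hvW i), rfl⟩
    have hzm : x - y ∈ Z := by
      refine mem_image.2 ⟨fun i => (v i).1 - (v i).2,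
        Fintype.mem_piFinset.2 fun i => mem_image_of_mem (fun q : ℤ × ℤ => q.1 - q.2) (hvW i), ?_⟩
      rw [hxd, hyd]
      simp only [dot, ← Finset.sum_sub_distrib, ← sub_mul]
      push_cast
      rfl
    refine ⟨t + x, ?_, y, ?_, ?_, ?_⟩
    · exact mem_union_left _ (mem_union_left _
        (mem_image.2 ⟨(t, x), mem_product.2 ⟨ht, hxm⟩, rfl⟩))
    · exact mem_union_left _ (mem_union_right _ hym)
    · linear_combination hxy
    · refine mem_union_right _ (mem_image.2 ⟨(t, x - y), mem_product.2 ⟨ht, hzm⟩, ?_⟩)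
      simp only
      ring

end Pool.Agent.KS6_62.QI
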