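import Pool.Agent.KS6_62.QI.Lower

set_option autoImplicit false

/-!
# The decimal construction

Copy of parts of the library modules `Pool.Graph.R_seed8.H241R2.IRLower` and `IRLower2`.
-/

namespace Pool.Agent.KS6_62.QI

open Finset

/-- numbers with digits from `D`, `k` digits -/
def digs (D : Finset ℤ) : ℕ → Finset ℤ
  | 0 => {0}
  | k + 1 => (digs D k ×ˢ D).image fun p => 10 * p.1 + p.2

theorem card_digs (D : Finset ℤ) (k : ℕ) : (digs D k).card ≤ D.card ^ k := by
  induction k with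
  | zero => simp [digs]
  | succ k ih =>
    rw [digs]
    refine Finset.card_image_le.trans ?_
    rw [Finset.card_product, pow_succ]
    exact Nat.mul_le_mul_right _ ih

/-- digits of the first summand -/
def DX : Finset ℤ := {0, 1, 3, 4}
/-- digits of the second summand -/
def DY : Finset ℤ := {0, 1, 4, 5}
/-- digits of the difference -/
def DZ : Finset ℤ := {0, -1, 3, -4}

theorem digit_rep : ∀ e : Fin 10, ∃ x ∈ DX, ∃ y ∈ DY, 0 ≤ x ∧ 0 ≤ y ∧ x + y = (e.val : ℤ) ∧
    x - y ∈ DZ := by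
  decide +kernel

theorem rep (k : ℕ) : ∀ s : ℤ, 0 ≤ s → s < 10 ^ k → ∃ x ∈ digs DX k, ∃ y ∈ digs DY k,
    0 ≤ x ∧ 0 ≤ y ∧ x + y = s ∧ x - y ∈ digs DZ k := by
  induction k with
  | zero =>
    intro s h0 h1
    have : s = 0 := by simp at h1; omega
    subst this
    exact ⟨0, by simp [digs], 0, by simp [digs], le_refl _, le_refl _, by ring, by simp [digs]⟩
  | succ k ih =>
    intro s h0 h1
    have hs1 : 0 ≤ s / 10 := Int.ediv_nonneg h0 (by norm_num)
    have hs2 : s / 10 < 10 ^ k := by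
      rw [pow_succ] at h1
      exact Int.ediv_lt_of_lt_mul (by norm_num) h1
    obtain ⟨x, hx, y, hy, hx0, hy0, hxy, hz⟩ := ih (s / 10) hs1 hs2
    have he0 : 0 ≤ s % 10 := Int.emod_nonneg _ (by norm_num)
    have he1 : s % 10 < 10 := Int.emod_lt_of_pos _ (by norm_num)
    obtain ⟨x1, hx1, y1, hy1, hx10, hy10, hxy1, hz1⟩ := digit_rep ⟨(s % 10).toNat, by omega⟩
    have hxy1' : x1 + y1 = s % 10 := by
      rw [hxy1]
      simp only
      omega
    refine ⟨10 * x + x1, ?_, 10 * y + y1, ?_, by omega, by omega, by omega, ?_⟩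
    · exact Finset.mem_image.2 ⟨(x, x1), Finset.mem_product.2 ⟨hx, hx1⟩, rfl⟩
    · exact Finset.mem_image.2 ⟨(y, y1), Finset.mem_product.2 ⟨hy, hy1⟩, rfl⟩
    · exact Finset.mem_image.2 ⟨(x - y, x1 - y1), Finset.mem_product.2 ⟨hz, hz1⟩, by ring⟩

/-- the basic sparse set -/
def TT (k : ℕ) : Finset ℤ := digs DX k ∪ digs DY k ∪ digs DZ k

theorem card_TT (k : ℕ) : (TT k).card ≤ 3 * 4 ^ k := by
  have a := card_digs DX k
  have b := card_digs DY k
  have c := card_digs DZ k
  have a' : DX.card = 4 := by decide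
  have b' : DY.card = 4 := by decide
  have c' : DZ.card = 4 := by decide
  rw [a'] at a
  rw [b'] at b
  rw [c'] at c
  have d1 := Finset.card_union_le (digs DX k ∪ digs DY k) (digs DZ k)
  have d2 := Finset.card_union_le (digs DX k) (digs DY k)
  unfold TT
  omega

theorem split_TT (k : ℕ) : Split (TT k) (10 ^ k) := by
  intro s h0 h1
  obtain ⟨x, hx, y, hy, hx0, hy0, hxy, hz⟩ := rep k s h0 h1
  refine ⟨x, ?_, y, ?_, hx0, hy0, hxy, ?_⟩
  · simp only [TT, Finset.mem_union]; exact Or.inl (Or.inl hx)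
  · simp only [TT, Finset.mem_union]; exact Or.inl (Or.inr hy)
  · simp only [TT, Finset.mem_union]; exact Or.inr hz

theorem lower_decimal (n : ℕ) (hn : 1 ≤ n) :
    6 * (n : ℝ) - 27000 * (n : ℝ) ^ (Real.log 4 / Real.log 10) ≤
      upperIrredundance (queensGraph n) := by
  set l := Nat.log 10 n with hl
  have h1 : n < 10 ^ (l + 1) := Nat.lt_pow_succ_log_self (by norm_num) n
  have h2 : 10 ^ l ≤ n := Nat.pow_log_le_self 10 (by omega)
  obtain ⟨S, hS, hc⟩ := lower_comb n (split_TT (l + 1)) hn (by exact_mod_cast h1.le)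
  have h3 := le_upper _ S hS
  set β : ℝ := Real.log 4 / Real.log 10 with hβ
  have hlog10 : 0 < Real.log 10 := Real.log_pos (by norm_num)
  have hβ0 : 0 ≤ β := div_nonneg (Real.log_nonneg (by norm_num)) hlog10.le
  have h10 : (10 : ℝ) ^ β = 4 := by
    rw [Real.rpow_def_of_pos (by norm_num), hβ]
    rw [mul_div_cancel₀ _ hlog10.ne']
    exact Real.exp_log (by norm_num)
  have h4 : (4 : ℝ) ^ l ≤ (n : ℝ) ^ β := by
    calc (4 : ℝ) ^ l = ((10 : ℝ) ^ β) ^ l := by rw [h10]
      _ = ((10 : ℝ) ^ l) ^ β := by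
          rw [← Real.rpow_natCast, ← Real.rpow_mul (by norm_num), mul_comm,
            Real.rpow_mul (by norm_num), Real.rpow_natCast]
      _ ≤ (n : ℝ) ^ β := by
          apply Real.rpow_le_rpow (by positivity) _ hβ0
          exact_mod_cast h2
  have h5 : (1 : ℝ) ≤ (n : ℝ) ^ β := by
    calc (1 : ℝ) ≤ (4 : ℝ) ^ l := one_le_pow₀ (by norm_num)
      _ ≤ _ := h4
  have h6 := card_TT (l + 1)
  have h7 : 6 * n ≤ S.card + 218 + 4 * (1665 * 4 ^ (l + 1)) := by omega
  have hc' : (6 : ℝ) * n ≤ S.card + 218 + 4 * (1665 * 4 ^ (l + 1)) := by exact_mod_cast h7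
  have h3' : (S.card : ℝ) ≤ upperIrredundance (queensGraph n) := by exact_mod_cast h3
  rw [pow_succ] at hc'
  linarith

end Pool.Agent.KS6_62.QI
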