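import Mathlib

set_option autoImplicit false

/-!
# Sets of pairs from typical words

A probability distribution on letters, each of which is a pair `(x, y)` of digits such that the
sums `x + y` are distinct, gives finite sets `W` of pairs of integers on which the sum is injective
and on which `x`, `y` and `x - y` take few values, in terms of the entropies.
-/

namespace Pool.Agent.KS6_62.QI

open Finset

section chernoff

variable {S : Type} [Fintype S]

/-- a Chernoff bound -/
lemma chernoff (p q : S → ℝ) (hp : ∀ s, 0 ≤ p s) (hsum : ∑ s, p s = 1) (hq : ∀ s, 0 < q s)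
    (L : ℝ) (hL : 0 < ∑ s, p s * Real.log (q s) + L) :
    ∃ r : ℝ, 0 ≤ r ∧ r < 1 ∧ ∀ k : ℕ,
      (∑ e : Fin k → S, if (∏ i, q (e i)) * Real.exp (k * L) < 1 then ∏ i, p (e i) else 0) ≤
        r ^ k := by
  classical
  set φ : ℝ → ℝ := fun t => ∑ s, p s * Real.exp (-t * (Real.log (q s) + L)) with hφ
  have hφ0 : φ 0 = 1 := by simp [hφ, hsum]
  have hder : HasDerivAt φ (-(∑ s, p s * Real.log (q s) + L)) 0 := by
    have h1 : ∀ s ∈ (univ : Finset S), HasDerivAt
        (fun t : ℝ => p s * Real.exp (-t * (Real.log (q s) + L)))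
        (p s * (-(Real.log (q s) + L))) 0 := by
      intro s _
      have h2 : HasDerivAt (fun t : ℝ => -t * (Real.log (q s) + L))
          (-1 * (Real.log (q s) + L)) 0 := ((hasDerivAt_id (0 : ℝ)).neg).mul_const _
      have h3 := h2.exp
      simp only [neg_zero, zero_mul, Real.exp_zero, one_mul] at h3
      have h4 := h3.const_mul (p s)
      refine h4.congr_deriv ?_
      ring
    have h2 := HasDerivAt.fun_sum h1
    refine h2.congr_deriv ?_
    have : ∑ s, p s * -(Real.log (q s) + L) =
        -(∑ s, p s * Real.log (q s)) - (∑ s, p s) * L := by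
      rw [Finset.sum_mul, ← Finset.sum_neg_distrib, ← Finset.sum_sub_distrib]
      exact Finset.sum_congr rfl fun s _ => by ring
    rw [this, hsum]
    ring
  obtain ⟨t, ht0, ht1⟩ : ∃ t : ℝ, 0 < t ∧ φ t < 1 := by
    have h1 := hasDerivAt_iff_tendsto_slope.1 hder
    have h2 : ∀ᶠ t in nhdsWithin (0 : ℝ) {0}ᶜ, slope φ 0 t < 0 :=
      h1.eventually (gt_mem_nhds (by linarith))
    have h3 : ∀ᶠ t in nhdsWithin (0 : ℝ) (Set.Ioi 0), slope φ 0 t < 0 :=
      h2.filter_mono (nhdsWithin_mono _ fun x hx => ne_of_gt hx)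
    obtain ⟨t, ht, ht0⟩ := (h3.and self_mem_nhdsWithin).exists
    refine ⟨t, ht0, ?_⟩
    rw [slope_def_field, hφ0, sub_zero] at ht
    have ht0' : (0 : ℝ) < t := ht0
    have := (div_neg_iff.1 ht).resolve_left (by rintro ⟨_, h⟩; linarith)
    linarith [this.1]
  refine ⟨φ t, Finset.sum_nonneg fun s _ => mul_nonneg (hp s) (Real.exp_pos _).le, ht1,
    fun k => ?_⟩
  have e1 : φ t ^ k = ∑ e : Fin k → S, ∏ i, (p (e i) * Real.exp (-t * (Real.log (q (e i)) + L))) := by
    rw [hφ]
    exact Fintype.sum_pow _ _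
  rw [e1]
  refine Finset.sum_le_sum fun e _ => ?_
  have hP : 0 ≤ ∏ i, p (e i) := Finset.prod_nonneg fun i _ => hp _
  split_ifs with h
  · rw [Finset.prod_mul_distrib]
    refine le_mul_of_one_le_right hP ?_
    rw [← Real.exp_sum]
    apply Real.one_le_exp
    have hlog : Real.log ((∏ i, q (e i)) * Real.exp (k * L)) < 0 :=
      Real.log_neg (mul_pos (Finset.prod_pos fun i _ => hq _) (Real.exp_pos _)) h
    rw [Real.log_mul (Finset.prod_pos fun i _ => hq _).ne' (Real.exp_pos _).ne', Real.log_exp,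
      Real.log_prod (fun i _ => (hq _).ne')] at hlog
    have : ∑ i, -t * (Real.log (q (e i)) + L) = -t * (∑ i, Real.log (q (e i)) + k * L) := by
      rw [← Finset.mul_sum, Finset.sum_add_distrib, Finset.sum_const, Finset.card_univ,
        Fintype.card_fin, nsmul_eq_mul]
    rw [this]
    nlinarith
  · exact Finset.prod_nonneg fun i _ => mul_nonneg (hp _) (Real.exp_pos _).le

/-- few words have a large probability -/
lemma card_words {D : Type} [Fintype D] [DecidableEq D] (q : D → ℝ) (hq : ∀ d, 0 ≤ q d)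
    (hsum : ∑ d, q d = 1) (k : ℕ) (L : ℝ) (U : Finset (Fin k → D))
    (hU : ∀ u ∈ U, 1 ≤ (∏ i, q (u i)) * Real.exp (k * L)) :
    (U.card : ℝ) ≤ Real.exp (k * L) := by
  have h1 : ∑ u : Fin k → D, ∏ i, q (u i) = 1 := by
    rw [← Fintype.sum_pow, hsum, one_pow]
  calc (U.card : ℝ) = ∑ u ∈ U, 1 := by simp
    _ ≤ ∑ u ∈ U, (∏ i, q (u i)) * Real.exp (k * L) := Finset.sum_le_sum hU
    _ = (∑ u ∈ U, ∏ i, q (u i)) * Real.exp (k * L) := by rw [Finset.sum_mul]
    _ ≤ (∑ u : Fin k → D, ∏ i, q (u i)) * Real.exp (k * L) := by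
        apply mul_le_mul_of_nonneg_right _ (Real.exp_pos _).le
        exact Finset.sum_le_sum_of_subset_of_nonneg (Finset.subset_univ _)
          fun u _ _ => Finset.prod_nonneg fun i _ => hq _
    _ = Real.exp (k * L) := by rw [h1, one_mul]

end chernoff

/-! ### Numbers with given digits -/

/-- the number with digits `u` to base `b` -/
def num (b : ℤ) : {k : ℕ} → (Fin k → ℤ) → ℤ := fun u => ∑ i, u i * b ^ (i : ℕ)

lemma num_add (b : ℤ) {k : ℕ} (u v : Fin k → ℤ) : num b u + num b v = num b fun i => u i + v i := by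
  simp [num, add_mul, Finset.sum_add_distrib]

lemma num_sub (b : ℤ) {k : ℕ} (u v : Fin k → ℤ) : num b u - num b v = num b fun i => u i - v i := by
  simp [num, sub_mul, Finset.sum_sub_distrib]

lemma num_succ (b : ℤ) {k : ℕ} (u : Fin (k + 1) → ℤ) :
    num b u = u 0 + b * num b (fun i => u i.succ) := by
  unfold num
  rw [Fin.sum_univ_succ, Finset.mul_sum]
  simp only [Fin.val_zero, pow_zero, mul_one, Fin.val_succ]
  congr 1
  exact Finset.sum_congr rfl fun i _ => by ring

lemma num_inj (b : ℤ) (hb : 0 < b) {k : ℕ} (u v : Fin k → ℤ) (hu : ∀ i, 0 ≤ u i ∧ u i < b)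
    (hv : ∀ i, 0 ≤ v i ∧ v i < b) (h : num b u = num b v) : u = v := by
  induction k with
  | zero => exact funext fun i => i.elim0
  | succ k ih =>
    rw [num_succ, num_succ] at h
    have h0 : u 0 = v 0 := by
      have h1 := congrArg (· % b) h
      simp only [Int.add_mul_emod_self_left] at h1
      rwa [Int.emod_eq_of_lt (hu 0).1 (hu 0).2, Int.emod_eq_of_lt (hv 0).1 (hv 0).2] at h1
    have h1 : num b (fun i => u i.succ) = num b (fun i => v i.succ) := by
      rw [h0] at h
      exact mul_left_cancel₀ hb.ne' (add_left_cancel h)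
    have h2 := ih _ _ (fun i => hu i.succ) (fun i => hv i.succ) h1
    funext i
    refine Fin.cases h0 (fun j => ?_) i
    exact congrFun h2 j

end Pool.Agent.KS6_62.QI
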