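import Mathlib
import Pool.Agent.KS6_62.QI.Defs

set_option autoImplicit false
set_option maxHeartbeats 4000000

/-!
The construction of large irredundant sets of queens from a thin set `T` of integers with the
property `Split T L`. This is the argument of the library modules
`Pool.Graph.R_seed8.H241R2.IRLower` and `IRLower2`, which use a set of numbers with restricted
decimal digits, rewritten for an arbitrary set `T`.
-/

namespace Pool.Agent.KS6_62.QI

open Finset

/-- Every `s` with `0 ≤ s < L` is a sum of two nonnegative members of `T` whose difference is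
also in `T`. -/
def Split (T : Finset ℤ) (L : ℤ) : Prop :=
  ∀ s : ℤ, 0 ≤ s → s < L → ∃ x ∈ T, ∃ y ∈ T, 0 ≤ x ∧ 0 ≤ y ∧ x + y = s ∧ x - y ∈ T

/-! ### Adding residues modulo 19 -/

noncomputable def BB (T : Finset ℤ) : Finset ℤ :=
  (T ×ˢ Finset.Icc (-18 : ℤ) 18).image fun p => 19 * p.1 + p.2

theorem card_BB (T : Finset ℤ) : (BB T).card ≤ 37 * T.card := by
  refine Finset.card_image_le.trans ?_
  rw [Finset.card_product]
  have h2 : (Finset.Icc (-18 : ℤ) 18).card = 37 := by decide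
  rw [h2]
  omega

theorem repB {T : Finset ℤ} {L : ℤ} (hT : Split T L) (s : ℤ) (h0 : 36 ≤ s) (h1 : s < L) (rx ry : ZMod 19)
    (hr : (s : ZMod 19) = rx + ry) :
    ∃ x y : ℤ, 0 ≤ x ∧ 0 ≤ y ∧ x + y = s ∧ (x : ZMod 19) = rx ∧ (y : ZMod 19) = ry ∧
      x ∈ BB T ∧ y ∈ BB T ∧ x - y ∈ BB T := by
  have hu := ZMod.val_lt rx
  have hv := ZMod.val_lt ry
  have hru : ((rx.val : ℤ) : ZMod 19) = rx := by simp
  have hrv : ((ry.val : ℤ) : ZMod 19) = ry := by simp
  have hd : (19 : ℤ) ∣ s - rx.val - ry.val := by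
    have : ((s - rx.val - ry.val : ℤ) : ZMod 19) = 0 := by
      push_cast at hru hrv ⊢
      rw [hr, hru, hrv]; ring
    exact (ZMod.intCast_zmod_eq_zero_iff_dvd _ 19).1 this
  obtain ⟨m, hm⟩ := hd
  obtain ⟨x, hx, y, hy, hx0, hy0, hxy, hz⟩ := hT m (by omega) (by omega)
  refine ⟨19 * x + rx.val, 19 * y + ry.val, by omega, by omega, by omega, ?_, ?_, ?_, ?_, ?_⟩
  · push_cast
    have : (19 : ZMod 19) = 0 := by decide
    rw [this]
    simp
  · push_cast
    have : (19 : ZMod 19) = 0 := by decide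
    rw [this]
    simp
  · refine Finset.mem_image.2 ⟨(x, rx.val), Finset.mem_product.2 ⟨?_, ?_⟩, rfl⟩
    · exact hx
    · rw [Finset.mem_Icc]; omega
  · refine Finset.mem_image.2 ⟨(y, ry.val), Finset.mem_product.2 ⟨?_, ?_⟩, rfl⟩
    · exact hy
    · rw [Finset.mem_Icc]; omega
  · refine Finset.mem_image.2 ⟨(x - y, (rx.val : ℤ) - ry.val), Finset.mem_product.2 ⟨?_, ?_⟩, ?_⟩
    · exact hz
    · rw [Finset.mem_Icc]; omega
    · simp only; ring

/-! ### The structured set of line values -/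

/-- anchors -/
def anch (M c : ℤ) : Finset ℤ := {0, M, c, -c, M + c, M - c, c - M}

noncomputable def St (T : Finset ℤ) (M c : ℤ) : Finset ℤ :=
  ((anch M c ×ˢ BB T).image fun p => p.1 + p.2) ∪ ((anch M c ×ˢ BB T).image fun p => p.1 - p.2) ∪
    (BB T).image fun b => c + b / 2

theorem card_St (T : Finset ℤ) (M c : ℤ) : (St T M c).card ≤ 555 * T.card := by
  have h := card_BB T
  have ha : (anch M c).card ≤ 7 := by
    unfold anch
    exact (Finset.card_insert_le _ _).trans (Nat.succ_le_succ Finset.card_le_six)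
  have h1 : ((anch M c ×ˢ BB T).image fun p => p.1 + p.2).card ≤ 7 * (37 * T.card) := by
    refine Finset.card_image_le.trans ?_
    rw [Finset.card_product]
    exact Nat.mul_le_mul ha h
  have h2 : ((anch M c ×ˢ BB T).image fun p => p.1 - p.2).card ≤ 7 * (37 * T.card) := by
    refine Finset.card_image_le.trans ?_
    rw [Finset.card_product]
    exact Nat.mul_le_mul ha h
  have h3 : ((BB T).image fun b => c + b / 2).card ≤ 37 * T.card := Finset.card_image_le.trans h
  unfold St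
  have d1 := Finset.card_union_le (((anch M c ×ˢ BB T).image fun p => p.1 + p.2) ∪
    ((anch M c ×ˢ BB T).image fun p => p.1 - p.2)) ((BB T).image fun b => c + b / 2)
  have d2 := Finset.card_union_le ((anch M c ×ˢ BB T).image fun p => p.1 + p.2)
    ((anch M c ×ˢ BB T).image fun p => p.1 - p.2)
  omega

theorem mem_St_add {T : Finset ℤ} {M c w b v : ℤ} (hw : w ∈ anch M c) (hb : b ∈ BB T) (hv : v = w + b) :
    v ∈ St T M c := by
  simp only [St, Finset.mem_union]
  exact Or.inl (Or.inl (Finset.mem_image.2 ⟨(w, b), Finset.mem_product.2 ⟨hw, hb⟩, hv.symm⟩))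

theorem mem_St_sub {T : Finset ℤ} {M c w b v : ℤ} (hw : w ∈ anch M c) (hb : b ∈ BB T) (hv : v = w - b) :
    v ∈ St T M c := by
  simp only [St, Finset.mem_union]
  exact Or.inl (Or.inr (Finset.mem_image.2 ⟨(w, b), Finset.mem_product.2 ⟨hw, hb⟩, hv.symm⟩))

theorem mem_St_half {T : Finset ℤ} {M c b v : ℤ} (hb : b ∈ BB T) (hv : v = c + b / 2) :
    v ∈ St T M c := by
  simp only [St, Finset.mem_union]
  exact Or.inr (Finset.mem_image.2 ⟨b, hb, hv.symm⟩)

/-! ### Residues -/

def PH : Finset (ZMod 19) := {0, 1, 3, 4, 5, 6, 8, 10, 12}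

/-- the covering property of a set of residues -/
def Cov (P : Finset (ZMod 19)) : Prop :=
  (∀ r : ZMod 19, ∃ c ∈ P, r + c ∈ P ∧ r - c ∈ P) ∧
  (∀ c : ZMod 19, ∃ r ∈ P, r + c ∈ P ∧ r - c ∈ P) ∧
  (∀ a : ZMod 19, ∃ r ∈ P, ∃ c ∈ P, r + c = a ∧ r - c ∈ P) ∧
  (∀ d : ZMod 19, ∃ r ∈ P, ∃ c ∈ P, r - c = d ∧ r + c ∈ P)

theorem cov_PH : Cov PH := by unfold Cov; decide +kernel
theorem cov_PHc : Cov PHᶜ := by unfold Cov; decide +kernel

/-! ### Coverage -/

/-- the values of the lines of type `k` that are not too close to the boundary -/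
noncomputable def okVals (n : ℕ) (k : Fin 4) : Finset ℤ :=
  match k with
  | 0 => Finset.Icc 18 ((n : ℤ) - 1 - 18)
  | 1 => Finset.Icc 18 ((n : ℤ) - 1 - 18)
  | 2 => Finset.Icc 36 (2 * ((n : ℤ) - 1) - 36)
  | 3 => Finset.Icc (-((n : ℤ) - 1) + 36) ((n : ℤ) - 1 - 36)

/-- `i`, `j` are the coordinates of a cell with prescribed line `(k, v)` whose other lines are
structured and have residues in `P` -/
def Hit (n : ℕ) (T : Finset ℤ) (P : Finset (ZMod 19)) (t : Fin 4) (v : ℤ) (p : Fin n × Fin n) : Prop :=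
  lv t p = v ∧ ∀ j, j ≠ t → lv j p ∈ St T ((n : ℤ) - 1) (((n : ℤ) - 1) / 2) ∧
    ((lv j p : ℤ) : ZMod 19) ∈ P

theorem exists_cell (n : ℕ) (i j : ℤ) (hi0 : 0 ≤ i) (hi1 : i < n) (hj0 : 0 ≤ j) (hj1 : j < n) :
    ∃ p : Fin n × Fin n, lv 0 p = i ∧ lv 1 p = j ∧ lv 2 p = i + j ∧ lv 3 p = i - j := by
  refine ⟨(⟨i.toNat, by omega⟩, ⟨j.toNat, by omega⟩), ?_, ?_, ?_, ?_⟩ <;> simp only [lv] <;> omega

theorem cov2 (n : ℕ) {T : Finset ℤ} {L : ℤ} (hT : Split T L) (hk : (n : ℤ) ≤ L) (P : Finset (ZMod 19)) (hP : Cov P) (v : ℤ)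
    (hv : v ∈ okVals n 2) : ∃ p, Hit n T P 2 v p := by
  simp only [okVals, Finset.mem_Icc] at hv
  obtain ⟨r, hr, c, hc, hrc, hd⟩ := hP.2.2.1 (v : ZMod 19)
  have hfin : ∀ j : Fin 4, j ≠ 2 → j = 0 ∨ j = 1 ∨ j = 3 := by decide
  unfold Hit
  set M : ℤ := (n : ℤ) - 1 with hM
  rcases le_or_gt v M with h | h
  · obtain ⟨x, y, hx0, hy0, hxy, hxr, hyr, hx, hy, hz⟩ := repB hT v hv.1 (by omega) r c hrc.symm
    obtain ⟨p, p0, p1, p2, p3⟩ := exists_cell n x y hx0 (by omega) hy0 (by omega)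
    refine ⟨p, by rw [p2, hxy], ?_⟩
    intro j hj
    rcases hfin j hj with rfl | rfl | rfl
    · rw [p0]; exact ⟨mem_St_add (w := 0) (by simp [anch]) hx (by ring), by rw [hxr]; exact hr⟩
    · rw [p1]; exact ⟨mem_St_add (w := 0) (by simp [anch]) hy (by ring), by rw [hyr]; exact hc⟩
    · rw [p3]; exact ⟨mem_St_add (w := 0) (by simp [anch]) hz (by ring), by
        push_cast; rw [hxr, hyr]; exact hd⟩
  · obtain ⟨x, y, hx0, hy0, hxy, hxr, hyr, hx, hy, hz⟩ := repB hT (2 * M - v) (by omega) (by omega)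
      ((M : ZMod 19) - r) ((M : ZMod 19) - c) (by push_cast; rw [← hrc]; ring)
    obtain ⟨p, p0, p1, p2, p3⟩ := exists_cell n (M - x) (M - y) (by omega) (by omega) (by omega)
      (by omega)
    refine ⟨p, by rw [p2]; omega, ?_⟩
    intro j hj
    rcases hfin j hj with rfl | rfl | rfl
    · rw [p0]; exact ⟨mem_St_sub (w := M) (by simp [anch]) hx (by ring), by
        push_cast; rw [hxr]; simpa using hr⟩
    · rw [p1]; exact ⟨mem_St_sub (w := M) (by simp [anch]) hy (by ring), by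
        push_cast; rw [hyr]; simpa using hc⟩
    · rw [p3]; exact ⟨mem_St_sub (w := 0) (by simp [anch]) hz (by ring), by
        push_cast; rw [hxr, hyr]; simpa using hd⟩

theorem cov3 (n : ℕ) {T : Finset ℤ} {L : ℤ} (hT : Split T L) (hk : (n : ℤ) ≤ L) (P : Finset (ZMod 19)) (hP : Cov P) (v : ℤ)
    (hv : v ∈ okVals n 3) : ∃ p, Hit n T P 3 v p := by
  simp only [okVals, Finset.mem_Icc] at hv
  obtain ⟨r, hr, c, hc, hrc, hd⟩ := hP.2.2.2 (v : ZMod 19)
  have hfin : ∀ j : Fin 4, j ≠ 3 → j = 0 ∨ j = 1 ∨ j = 2 := by decide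
  unfold Hit
  set M : ℤ := (n : ℤ) - 1 with hM
  rcases le_or_gt v 0 with h | h
  · -- cell `(x, M - y)`, `x + y = v + M`
    obtain ⟨x, y, hx0, hy0, hxy, hxr, hyr, hx, hy, hz⟩ := repB hT (v + M) (by omega) (by omega)
      r ((M : ZMod 19) - c) (by push_cast; rw [← hrc]; ring)
    obtain ⟨p, p0, p1, p2, p3⟩ := exists_cell n x (M - y) (by omega) (by omega) (by omega)
      (by omega)
    refine ⟨p, by rw [p3]; omega, ?_⟩
    intro j hj
    rcases hfin j hj with rfl | rfl | rfl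
    · rw [p0]; exact ⟨mem_St_add (w := 0) (by simp [anch]) hx (by ring), by rw [hxr]; exact hr⟩
    · rw [p1]; exact ⟨mem_St_sub (w := M) (by simp [anch]) hy (by ring), by
        push_cast; rw [hyr]; simpa using hc⟩
    · rw [p2]; exact ⟨mem_St_add (w := M) (by simp [anch]) hz (by ring), by
        push_cast; rw [hxr, hyr]
        have : r + ((M : ZMod 19) - ((M : ZMod 19) - c)) = r + c := by ring
        rw [this]; exact hd⟩
  · -- cell `(M - x, y)`, `x + y = M - v`
    obtain ⟨x, y, hx0, hy0, hxy, hxr, hyr, hx, hy, hz⟩ := repB hT (M - v) (by omega) (by omega)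
      ((M : ZMod 19) - r) c (by push_cast; rw [← hrc]; ring)
    obtain ⟨p, p0, p1, p2, p3⟩ := exists_cell n (M - x) y (by omega) (by omega) (by omega)
      (by omega)
    refine ⟨p, by rw [p3]; omega, ?_⟩
    intro j hj
    rcases hfin j hj with rfl | rfl | rfl
    · rw [p0]; exact ⟨mem_St_sub (w := M) (by simp [anch]) hx (by ring), by
        push_cast; rw [hxr]; simpa using hr⟩
    · rw [p1]; exact ⟨mem_St_add (w := 0) (by simp [anch]) hy (by ring), by rw [hyr]; exact hc⟩
    · rw [p2]; exact ⟨mem_St_sub (w := M) (by simp [anch]) hz (by ring), by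
        push_cast; rw [hxr, hyr]
        have : (M : ZMod 19) - ((M : ZMod 19) - r) + c = r + c := by ring
        rw [this]; exact hd⟩

theorem two_inj (a b : ZMod 19) (h : 2 * a = 2 * b) : a = b := by
  have h2 : (10 : ZMod 19) * 2 = 1 := by decide
  calc a = (10 * 2) * a := by rw [h2, one_mul]
    _ = 10 * (2 * a) := by ring
    _ = 10 * (2 * b) := by rw [h]
    _ = (10 * 2) * b := by ring
    _ = b := by rw [h2, one_mul]

theorem cov0 (n : ℕ) {T : Finset ℤ} {L : ℤ} (hT : Split T L) (hk : (n : ℤ) ≤ L) (P : Finset (ZMod 19)) (hP : Cov P) (v : ℤ)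
    (hv : v ∈ okVals n 0) : ∃ p, Hit n T P 0 v p := by
  simp only [okVals, Finset.mem_Icc] at hv
  obtain ⟨c, hc, ha, hd⟩ := hP.1 (v : ZMod 19)
  have hfin : ∀ j : Fin 4, j ≠ 0 → j = 1 ∨ j = 2 ∨ j = 3 := by decide
  unfold Hit
  set M : ℤ := (n : ℤ) - 1 with hM
  set c0 : ℤ := M / 2 with hc0
  rcases le_or_gt (2 * v) M with h | h
  · -- cell `(v, c0 + (x - y) / 2)`, `x + y = 2 v`
    obtain ⟨x, y, hx0, hy0, hxy, hxr, hyr, hx, hy, hz⟩ := repB hT (2 * v) (by omega) (by omega)
      ((v : ZMod 19) + c - c0) ((v : ZMod 19) - c + c0) (by push_cast; ring)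
    obtain ⟨w, hw⟩ : ∃ w, w = (x - y) / 2 := ⟨_, rfl⟩
    have h2w : 2 * w = x - y := by omega
    have hwr : (w : ZMod 19) = c - c0 := by
      apply two_inj
      have : ((2 * w : ℤ) : ZMod 19) = ((x - y : ℤ) : ZMod 19) := by rw [h2w]
      push_cast at this
      rw [this, hxr, hyr]; ring
    obtain ⟨p, p0, p1, p2, p3⟩ := exists_cell n v (c0 + w) (by omega) (by omega) (by omega)
      (by omega)
    refine ⟨p, p0, ?_⟩
    intro j hj
    rcases hfin j hj with rfl | rfl | rfl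
    · rw [p1]; exact ⟨mem_St_half hz (by rw [hw]), by push_cast; rw [hwr]; simpa using hc⟩
    · rw [p2]; exact ⟨mem_St_add (w := c0) (by simp [anch]) hx (by omega), by
        push_cast; rw [hwr]; simpa using ha⟩
    · rw [p3]; exact ⟨mem_St_add (w := -c0) (by simp [anch]) hy (by omega), by
        push_cast; rw [hwr]; simpa using hd⟩
  · -- cell `(v, c0 + (x - y) / 2)`, `x + y = 2 (M - v)`
    obtain ⟨x, y, hx0, hy0, hxy, hxr, hyr, hx, hy, hz⟩ := repB hT (2 * (M - v)) (by omega)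
      (by omega) ((M : ZMod 19) - c0 - (v - c)) ((M : ZMod 19) + c0 - (v + c))
      (by push_cast; ring)
    obtain ⟨w, hw⟩ : ∃ w, w = (x - y) / 2 := ⟨_, rfl⟩
    have h2w : 2 * w = x - y := by omega
    have hwr : (w : ZMod 19) = c - c0 := by
      apply two_inj
      have : ((2 * w : ℤ) : ZMod 19) = ((x - y : ℤ) : ZMod 19) := by rw [h2w]
      push_cast at this
      rw [this, hxr, hyr]; ring
    obtain ⟨p, p0, p1, p2, p3⟩ := exists_cell n v (c0 + w) (by omega) (by omega) (by omega)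
      (by omega)
    refine ⟨p, p0, ?_⟩
    intro j hj
    rcases hfin j hj with rfl | rfl | rfl
    · rw [p1]; exact ⟨mem_St_half hz (by rw [hw]), by push_cast; rw [hwr]; simpa using hc⟩
    · rw [p2]; exact ⟨mem_St_sub (w := M + c0) (by simp [anch]) hy (by omega), by
        push_cast; rw [hwr]; simpa using ha⟩
    · rw [p3]; exact ⟨mem_St_sub (w := M - c0) (by simp [anch]) hx (by omega), by
        push_cast; rw [hwr]; simpa using hd⟩

theorem cov1 (n : ℕ) {T : Finset ℤ} {L : ℤ} (hT : Split T L) (hk : (n : ℤ) ≤ L) (P : Finset (ZMod 19)) (hP : Cov P) (v : ℤ)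
    (hv : v ∈ okVals n 1) : ∃ p, Hit n T P 1 v p := by
  simp only [okVals, Finset.mem_Icc] at hv
  obtain ⟨r, hr, ha, hd⟩ := hP.2.1 (v : ZMod 19)
  have hfin : ∀ j : Fin 4, j ≠ 1 → j = 0 ∨ j = 2 ∨ j = 3 := by decide
  unfold Hit
  set M : ℤ := (n : ℤ) - 1 with hM
  set c0 : ℤ := M / 2 with hc0
  rcases le_or_gt (2 * v) M with h | h
  · -- cell `(c0 + w, v)`, `x = v + w`, `y = v - w`
    obtain ⟨x, y, hx0, hy0, hxy, hxr, hyr, hx, hy, hz⟩ := repB hT (2 * v) (by omega) (by omega)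
      ((v : ZMod 19) + r - c0) ((v : ZMod 19) - r + c0) (by push_cast; ring)
    obtain ⟨w, hw⟩ : ∃ w, w = (x - y) / 2 := ⟨_, rfl⟩
    have h2w : 2 * w = x - y := by omega
    have hwr : (w : ZMod 19) = r - c0 := by
      apply two_inj
      have : ((2 * w : ℤ) : ZMod 19) = ((x - y : ℤ) : ZMod 19) := by rw [h2w]
      push_cast at this
      rw [this, hxr, hyr]; ring
    obtain ⟨p, p0, p1, p2, p3⟩ := exists_cell n (c0 + w) v (by omega) (by omega) (by omega)
      (by omega)
    refine ⟨p, p1, ?_⟩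
    intro j hj
    rcases hfin j hj with rfl | rfl | rfl
    · rw [p0]; exact ⟨mem_St_half hz (by rw [hw]), by push_cast; rw [hwr]; simpa using hr⟩
    · rw [p2]; exact ⟨mem_St_add (w := c0) (by simp [anch]) hx (by omega), by
        push_cast; rw [hwr]; simpa using ha⟩
    · rw [p3]; exact ⟨mem_St_sub (w := c0) (by simp [anch]) hy (by omega), by
        push_cast; rw [hwr]; simpa using hd⟩
  · -- cell `(c0 + w, v)`, `v = M - v'`, `x = v' + w`, `y = v' - w`
    obtain ⟨x, y, hx0, hy0, hxy, hxr, hyr, hx, hy, hz⟩ := repB hT (2 * (M - v)) (by omega)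
      (by omega) ((M : ZMod 19) - c0 + (r - v)) ((M : ZMod 19) + c0 - (r + v))
      (by push_cast; ring)
    obtain ⟨w, hw⟩ : ∃ w, w = (x - y) / 2 := ⟨_, rfl⟩
    have h2w : 2 * w = x - y := by omega
    have hwr : (w : ZMod 19) = r - c0 := by
      apply two_inj
      have : ((2 * w : ℤ) : ZMod 19) = ((x - y : ℤ) : ZMod 19) := by rw [h2w]
      push_cast at this
      rw [this, hxr, hyr]; ring
    obtain ⟨p, p0, p1, p2, p3⟩ := exists_cell n (c0 + w) v (by omega) (by omega) (by omega)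
      (by omega)
    refine ⟨p, p1, ?_⟩
    intro j hj
    rcases hfin j hj with rfl | rfl | rfl
    · rw [p0]; exact ⟨mem_St_half hz (by rw [hw]), by push_cast; rw [hwr]; simpa using hr⟩
    · rw [p2]; exact ⟨mem_St_sub (w := M + c0) (by simp [anch]) hy (by omega), by
        push_cast; rw [hwr]; simpa using ha⟩
    · rw [p3]; exact ⟨mem_St_add (w := c0 - M) (by simp [anch]) hx (by omega), by
        push_cast; rw [hwr]; simpa using hd⟩

theorem covAll (n : ℕ) {T : Finset ℤ} {L : ℤ} (hT : Split T L) (hk : (n : ℤ) ≤ L) (P : Finset (ZMod 19)) (hP : Cov P) (t : Fin 4)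
    (v : ℤ) (hv : v ∈ okVals n t) : ∃ p, Hit n T P t v p := by
  have hfin : ∀ j : Fin 4, j = 0 ∨ j = 1 ∨ j = 2 ∨ j = 3 := by decide
  rcases hfin t with rfl | rfl | rfl | rfl
  · exact cov0 n hT hk P hP v hv
  · exact cov1 n hT hk P hP v hv
  · exact cov2 n hT hk P hP v hv
  · exact cov3 n hT hk P hP v hv


theorem lower_comb (n : ℕ) {T : Finset ℤ} {L : ℤ} (hT : Split T L) (hn : 1 ≤ n)
    (hk : (n : ℤ) ≤ L) :
    ∃ S : Finset (Fin n × Fin n), IsIrredundant (queensGraph n) S ∧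
      6 * n ≤ S.card + 218 + 4 * (555 * T.card) := by
  classical
  set M : ℤ := (n : ℤ) - 1 with hM
  set X : Finset ℤ := St T M (M / 2) with hX
  let good : Finset (Σ _ : Fin 4, ℤ) := Finset.univ.sigma fun t => okVals n t \ X
  have hgood : ∀ l ∈ good, l.2 ∈ okVals n l.1 ∧ l.2 ∉ X := by
    intro l hl
    have := (Finset.mem_sigma.1 hl).2
    exact Finset.mem_sdiff.1 this
  have h1 : ∀ l : Σ _ : Fin 4, ℤ, l ∈ good → ∃ p, Hit n T PH l.1 l.2 p := by
    intro l hl
    exact covAll n hT hk PH cov_PH l.1 l.2 (hgood l hl).1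
  have h2 : ∀ l : Σ _ : Fin 4, ℤ, l ∈ good → ∃ p, Hit n T PHᶜ l.1 l.2 p := by
    intro l hl
    exact covAll n hT hk PHᶜ cov_PHc l.1 l.2 (hgood l hl).1
  have hne : Nonempty (Fin n × Fin n) := ⟨(⟨0, hn⟩, ⟨0, hn⟩)⟩
  choose! q hq using h1
  choose! w hw using h2
  -- the cell determines the line
  have hdet : ∀ l ∈ good, ∀ l' ∈ good, ∀ j, lv j (q l) = lv j (w l') → l = l' := by
    intro l hl l' hl' j hj
    obtain ⟨a1, a2⟩ := hq l hl
    obtain ⟨b1, b2⟩ := hw l' hl'
    have g1 := (hgood l hl).2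
    have g2 := (hgood l' hl').2
    by_cases c1 : j = l.1
    · by_cases c2 : j = l'.1
      · obtain ⟨t, v⟩ := l
        obtain ⟨t', v'⟩ := l'
        simp only at *
        subst c1
        subst c2
        rw [a1, b1] at hj
        rw [hj]
      · exfalso
        apply g1
        rw [← a1, ← c1, hj]
        exact (b2 j c2).1
    · by_cases c2 : j = l'.1
      · exfalso
        apply g2
        rw [← b1, ← c2, ← hj]
        exact (a2 j c1).1
      · exfalso
        have r1 := (a2 j c1).2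
        have r2 := (b2 j c2).2
        rw [← hj, Finset.mem_compl] at r2
        exact r2 r1
  have hinj : Set.InjOn q (good : Set (Σ _ : Fin 4, ℤ)) := by
    intro l hl l' hl' h
    have hl := Finset.mem_coe.1 hl
    have hl' := Finset.mem_coe.1 hl'
    obtain ⟨a1, a2⟩ := hq l hl
    obtain ⟨b1, b2⟩ := hq l' hl'
    have g1 := (hgood l hl).2
    by_cases c : l.1 = l'.1
    · obtain ⟨t, v⟩ := l
      obtain ⟨t', v'⟩ := l'
      simp only at *
      subst c
      rw [← a1, ← b1, h]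
    · exfalso
      apply g1
      rw [← a1, h]
      exact (b2 l.1 c).1
  refine ⟨good.image q, ?_, ?_⟩
  · intro v hv
    obtain ⟨l, hl, rfl⟩ := Finset.mem_image.1 hv
    refine ⟨w l, ?_, ?_⟩
    · by_cases h : w l = q l
      · exact Or.inl h
      · refine Or.inr ((adj_iff _ _).2 ⟨fun h' => h h'.symm, l.1, ?_⟩)
        rw [(hq l hl).1, (hw l hl).1]
    · intro u hu hne hcon
      obtain ⟨l', hl', rfl⟩ := Finset.mem_image.1 hu
      have : ∃ j, lv j (q l') = lv j (w l) := by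
        rcases hcon with h | h
        · exact ⟨0, by rw [h]⟩
        · obtain ⟨-, j, hj⟩ := (adj_iff _ _).1 h
          exact ⟨j, hj⟩
      obtain ⟨j, hj⟩ := this
      have := hdet l' hl' l hl j hj
      exact hne (by rw [this])
  · rw [Finset.card_image_of_injOn hinj, Finset.card_sigma, Fin.sum_univ_four]
    have hXc : X.card ≤ 555 * T.card := card_St T M (M / 2)
    have hs : ∀ t, (okVals n t).card ≤ (okVals n t \ X).card + X.card := fun t => by
      have := Finset.le_card_sdiff X (okVals n t)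
      omega
    have s0 := hs 0
    have s1 := hs 1
    have s2 := hs 2
    have s3 := hs 3
    have k0 : n ≤ (okVals n 0).card + 36 := by
      simp only [okVals, Int.card_Icc]; omega
    have k1 : n ≤ (okVals n 1).card + 36 := by
      simp only [okVals, Int.card_Icc]; omega
    have k2 : 2 * n ≤ (okVals n 2).card + 73 := by
      simp only [okVals, Int.card_Icc]; omega
    have k3 : 2 * n ≤ (okVals n 3).card + 73 := by
      simp only [okVals, Int.card_Icc]; omega
    omega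


end Pool.Agent.KS6_62.QI
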