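import Mathlib
import Pool.Agent.KS6_62.QI.Cover
import Pool.Agent.KS6_62.QI.Lower

set_option autoImplicit false

/-!
# Thin sets of integers with the property `Split`
-/

namespace Pool.Agent.KS6_62.QI

open Finset

/-- the integers of a bounded interval whose residues are in `T` -/
noncomputable def lift (p : ℕ) (T : Finset (ZMod p)) : Finset ℤ :=
  (T ×ˢ Finset.Icc (-9 : ℤ) 8).image fun q => (q.1.val : ℤ) + p * q.2

lemma card_lift (p : ℕ) (T : Finset (ZMod p)) : (lift p T).card ≤ 18 * T.card := by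
  refine Finset.card_image_le.trans ?_
  rw [Finset.card_product]
  have : (Finset.Icc (-9 : ℤ) 8).card = 18 := by decide
  rw [this]
  omega

lemma mem_lift {p : ℕ} [Fact p.Prime] {T : Finset (ZMod p)} {z : ℤ} (h1 : -9 * (p : ℤ) ≤ z)
    (h2 : z < 9 * (p : ℤ)) (h : (z : ZMod p) ∈ T) : z ∈ lift p T := by
  have hp : (0 : ℤ) < p := by exact_mod_cast (Fact.out : p.Prime).pos
  refine mem_image.2 ⟨((z : ZMod p), z / p), mem_product.2 ⟨h, ?_⟩, ?_⟩
  · rw [Finset.mem_Icc]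
    constructor
    · exact (Int.le_ediv_iff_mul_le hp).2 h1
    · have := (Int.ediv_lt_iff_lt_mul hp).2 (by linarith : z < 9 * (p : ℤ))
      omega
  · simp only
    rw [ZMod.val_intCast]
    exact Int.emod_add_mul_ediv z p

/-- one scale -/
lemma scale {p j : ℕ} [Fact p.Prime] (h1 : 2 ^ j < p) (h2 : p ≤ 2 ^ (j + 1)) (T : Finset (ZMod p))
    (hT : ∀ s : ZMod p, ∃ x ∈ T, ∃ y ∈ T, x + y = s ∧ x - y ∈ T) (s : ℤ)
    (hs1 : 2 ^ (j + 2) ≤ s) (hs2 : s < 2 ^ (j + 3)) :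
    ∃ x ∈ lift p T, ∃ y ∈ lift p T, 0 ≤ x ∧ 0 ≤ y ∧ x + y = s ∧ x - y ∈ lift p T := by
  obtain ⟨x0, hx0, y0, hy0, hxy, hz⟩ := hT (s : ZMod p)
  have hp1 : (2 : ℤ) ^ j < p := by exact_mod_cast h1
  have hp2 : (p : ℤ) ≤ 2 ^ (j + 1) := by exact_mod_cast h2
  have hx1 : (x0.val : ℤ) < p := by exact_mod_cast ZMod.val_lt x0
  have hx2 : (0 : ℤ) ≤ x0.val := by positivity
  have e2 : (2 : ℤ) ^ (j + 2) = 4 * 2 ^ j := by ring
  have e3 : (2 : ℤ) ^ (j + 3) = 8 * 2 ^ j := by ring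
  have e1 : (2 : ℤ) ^ (j + 1) = 2 * 2 ^ j := by ring
  have hxc : (((x0.val : ℤ)) : ZMod p) = x0 := by simp
  have hyc : ((s - (x0.val : ℤ) : ℤ) : ZMod p) = y0 := by
    rw [Int.cast_sub, hxc, ← hxy]
    ring
  refine ⟨(x0.val : ℤ), ?_, s - (x0.val : ℤ), ?_, hx2, by linarith, by ring, ?_⟩
  · exact mem_lift (by linarith) (by linarith) (by rw [hxc]; exact hx0)
  · exact mem_lift (by linarith) (by linarith) (by rw [hyc]; exact hy0)
  · refine mem_lift (by linarith) (by linarith) ?_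
    rw [Int.cast_sub, hxc, hyc]
    exact hz

/-- the exponent -/
lemma rpow_exponent {M N : ℕ} (hM : 2 ≤ M) (hN : 1 ≤ N) :
    (M : ℝ) ^ (Real.log N / Real.log M) = N := by
  have hM' : (1 : ℝ) < M := by exact_mod_cast hM
  have hN' : (0 : ℝ) < N := by exact_mod_cast hN
  rw [Real.rpow_def_of_pos (by linarith), mul_div_cancel₀ _ (Real.log_pos hM').ne',
    Real.exp_log hN']

lemma exponent_nonneg {M N : ℕ} (hM : 2 ≤ M) (hN : 1 ≤ N) : 0 ≤ Real.log N / Real.log M := by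
  have hM' : (1 : ℝ) < M := by exact_mod_cast hM
  have hN' : (1 : ℝ) ≤ N := by exact_mod_cast hN
  exact div_nonneg (Real.log_nonneg hN') (Real.log_pos hM').le

/-- one prime -/
lemma one_prime (W : Finset (ℤ × ℤ)) (N : ℕ) (hW : 2 ≤ W.card)
    (hinj : Set.InjOn (fun q : ℤ × ℤ => q.1 + q.2) (W : Set (ℤ × ℤ)))
    (hx : (W.image Prod.fst).card ≤ N) (hy : (W.image Prod.snd).card ≤ N)
    (hz : (W.image fun q => q.1 - q.2).card ≤ N) (R : ℕ)
    (hR : ∀ w ∈ W, |w.1 + w.2| ≤ R) (j : ℕ) (hj : 2 * R < 2 ^ j) :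
    ∃ T : Finset ℤ, (∀ s : ℤ, 2 ^ (j + 2) ≤ s → s < 2 ^ (j + 3) →
        ∃ x ∈ T, ∃ y ∈ T, 0 ≤ x ∧ 0 ≤ y ∧ x + y = s ∧ x - y ∈ T) ∧
      (T.card : ℝ) ≤ 18 * (2 * (j + 2) + 1) * N *
        ((2 : ℝ) ^ (j + 1)) ^ (Real.log N / Real.log W.card) := by
  obtain ⟨p, hp, h1, h2⟩ := Nat.exists_prime_lt_and_le_two_mul (2 ^ j) (by positivity)
  have : Fact p.Prime := ⟨hp⟩
  have h2' : p ≤ 2 ^ (j + 1) := by rw [pow_succ]; omega
  have hN : 1 ≤ N := by
    have : 0 < (W.image Prod.fst).card := by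
      rw [Finset.card_pos, Finset.image_nonempty]
      exact Finset.card_pos.1 (by omega)
    omega
  set k := Nat.clog W.card p with hk
  obtain ⟨T, hTc, hT⟩ := exists_mod (p := p) W N k (by
    intro v hv w hw h
    apply hinj (Finset.mem_coe.2 hv) (Finset.mem_coe.2 hw)
    simp only
    rw [ZMod.intCast_eq_intCast_iff_dvd_sub] at h
    have a1 := abs_le.1 (hR v hv)
    have a2 := abs_le.1 (hR w hw)
    have hp' : (2 * R : ℤ) < p := by exact_mod_cast hj.trans h1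
    have := Int.eq_zero_of_abs_lt_dvd h (by rw [abs_lt]; constructor <;> linarith)
    linarith) hx hy hz (Nat.le_pow_clog (by omega) p)
  refine ⟨lift p T, fun s hs1 hs2 => scale h1 h2' T hT s hs1 hs2, ?_⟩
  have hlog : Nat.log 2 p ≤ j + 1 := by
    calc Nat.log 2 p ≤ Nat.log 2 (2 ^ (j + 1)) := Nat.log_mono_right h2'
      _ = j + 1 := Nat.log_pow (by norm_num) _
  set θ := Real.log N / Real.log W.card with hθ
  have hθ0 : 0 ≤ θ := exponent_nonneg hW hN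
  have hNk : ((N : ℝ)) ^ k ≤ N * ((2 : ℝ) ^ (j + 1)) ^ θ := by
    have hk1 : 1 ≤ k := Nat.clog_pos (by omega) hp.two_le
    have hlt : W.card ^ (k - 1) < p := Nat.pow_pred_clog_lt_self (by omega) hp.one_lt
    have e1 : (N : ℝ) ^ k = N * (N : ℝ) ^ (k - 1) := by
      rw [← pow_succ', Nat.sub_add_cancel hk1]
    rw [e1]
    apply mul_le_mul_of_nonneg_left _ (by positivity)
    have e2 : (N : ℝ) ^ (k - 1) = ((W.card : ℝ) ^ (k - 1)) ^ θ := by
      rw [← Real.rpow_natCast ((W.card : ℝ)), ← Real.rpow_mul (by positivity),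
        mul_comm, Real.rpow_mul (by positivity), hθ, rpow_exponent hW hN, Real.rpow_natCast]
    rw [e2]
    apply Real.rpow_le_rpow (by positivity) _ hθ0
    have : W.card ^ (k - 1) ≤ 2 ^ (j + 1) := (hlt.le).trans h2'
    exact_mod_cast this
  have hc : ((lift p T).card : ℝ) ≤ 18 * ((2 * (Nat.log 2 p + 1) + 1) * (N : ℝ) ^ k) := by
    have := (card_lift p T).trans (Nat.mul_le_mul_left 18 hTc)
    exact_mod_cast this
  refine hc.trans ?_
  have hlog' : (Nat.log 2 p : ℝ) ≤ j + 1 := by exact_mod_cast hlog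
  calc 18 * ((2 * ((Nat.log 2 p : ℝ) + 1) + 1) * (N : ℝ) ^ k)
      ≤ 18 * ((2 * ((j : ℝ) + 1 + 1) + 1) * (N * ((2 : ℝ) ^ (j + 1)) ^ θ)) := by
        apply mul_le_mul_of_nonneg_left _ (by norm_num)
        apply mul_le_mul _ hNk (by positivity) (by positivity)
        linarith
    _ = 18 * (2 * (j + 2) + 1) * N * ((2 : ℝ) ^ (j + 1)) ^ θ := by ring

/-- all scales -/
theorem exists_split (W : Finset (ℤ × ℤ)) (N : ℕ) (hW : 2 ≤ W.card)
    (hinj : Set.InjOn (fun q : ℤ × ℤ => q.1 + q.2) (W : Set (ℤ × ℤ)))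
    (hx : (W.image Prod.fst).card ≤ N) (hy : (W.image Prod.snd).card ≤ N)
    (hz : (W.image fun q => q.1 - q.2).card ≤ N) :
    ∃ C : ℝ, 0 < C ∧ ∀ n : ℕ, 1 ≤ n → ∃ T : Finset ℤ, Split T n ∧
      (T.card : ℝ) ≤ C * ((Nat.log 2 n : ℝ) + 1) ^ 2 *
        (n : ℝ) ^ (Real.log N / Real.log W.card) := by
  classical
  have hN : 1 ≤ N := by
    have : 0 < (W.image Prod.fst).card := by
      rw [Finset.card_pos, Finset.image_nonempty]
      exact Finset.card_pos.1 (by omega)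
    omega
  set θ := Real.log N / Real.log W.card with hθ
  have hθ0 : 0 ≤ θ := exponent_nonneg hW hN
  obtain ⟨R, hR⟩ : ∃ R : ℕ, ∀ w ∈ W, |w.1 + w.2| ≤ R := by
    refine ⟨(∑ w ∈ W, (w.1 + w.2).natAbs), fun w hw => ?_⟩
    have h1 := Finset.single_le_sum (f := fun w : ℤ × ℤ => (w.1 + w.2).natAbs)
      (fun _ _ => Nat.zero_le _) hw
    have h2 : |w.1 + w.2| = ((w.1 + w.2).natAbs : ℤ) := Int.abs_eq_natAbs _
    rw [h2]
    exact_mod_cast h1
  obtain ⟨j0, hj0⟩ : ∃ j0 : ℕ, 2 * R < 2 ^ j0 := ⟨2 * R, Nat.lt_two_pow_self⟩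
  have hex : ∀ j : ℕ, ∃ T : Finset ℤ, j0 ≤ j → (∀ s : ℤ, 2 ^ (j + 2) ≤ s → s < 2 ^ (j + 3) →
        ∃ x ∈ T, ∃ y ∈ T, 0 ≤ x ∧ 0 ≤ y ∧ x + y = s ∧ x - y ∈ T) ∧
      (T.card : ℝ) ≤ 18 * (2 * (j + 2) + 1) * N * ((2 : ℝ) ^ (j + 1)) ^ θ := by
    intro j
    by_cases h : j0 ≤ j
    · obtain ⟨T, hT⟩ := one_prime W N hW hinj hx hy hz R hR j
        (lt_of_lt_of_le hj0 (Nat.pow_le_pow_right (by norm_num) h))
      exact ⟨T, fun _ => hT⟩
    · exact ⟨∅, fun h' => absurd h' h⟩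
  choose T hT using hex
  refine ⟨2 ^ (j0 + 3) + 1 + 54 * N, by positivity, fun n hn => ?_⟩
  set l := Nat.log 2 n with hl
  set J := (Finset.range l).filter fun j => j0 ≤ j ∧ 2 ^ (j + 2) ≤ n with hJ
  refine ⟨Finset.Icc (-(2 : ℤ) ^ (j0 + 2)) (2 ^ (j0 + 2)) ∪ J.biUnion T, ?_, ?_⟩
  · intro s hs0 hsn
    by_cases hs : s < 2 ^ (j0 + 2)
    · refine ⟨0, ?_, s, ?_, le_refl _, hs0, by ring, ?_⟩
      · exact mem_union_left _ (by rw [Finset.mem_Icc]; constructor <;> simp)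
      · exact mem_union_left _ (by rw [Finset.mem_Icc]; constructor <;> linarith)
      · exact mem_union_left _ (by rw [Finset.mem_Icc]; constructor <;> linarith)
    · push Not at hs
      -- the scale of `s`
      obtain ⟨m, hm⟩ : ∃ m : ℕ, s = m := ⟨s.toNat, (Int.toNat_of_nonneg hs0).symm⟩
      have hm0 : m ≠ 0 := by
        rintro rfl
        have : (0 : ℤ) < 2 ^ (j0 + 2) := by positivity
        rw [hm] at hs
        simp at hs
        linarith
      have hms : 2 ^ (j0 + 2) ≤ m := by rw [hm] at hs; exact_mod_cast hs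
      have hmn : m < n := by rw [hm] at hsn; exact_mod_cast hsn
      have hlog : j0 + 2 ≤ Nat.log 2 m := by
        rw [← Nat.log_pow (by norm_num : 1 < 2) (j0 + 2)]
        exact Nat.log_mono_right hms
      have hb1 : 2 ^ Nat.log 2 m ≤ m := Nat.pow_log_le_self 2 hm0
      have hb2 : m < 2 ^ (Nat.log 2 m + 1) := Nat.lt_pow_succ_log_self (by norm_num) m
      obtain ⟨j, hj⟩ : ∃ j, Nat.log 2 m = j + 2 := ⟨Nat.log 2 m - 2, by omega⟩
      rw [hj] at hb1 hb2 hlog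
      have hjl : j < l := by
        have : Nat.log 2 m ≤ l := Nat.log_mono_right hmn.le
        omega
      have hjJ : j ∈ J := mem_filter.2 ⟨Finset.mem_range.2 hjl, by omega, by omega⟩
      obtain ⟨x, hx, y, hy, hx0, hy0, hxy, hz⟩ := (hT j (by omega)).1 s
        (by rw [hm]; exact_mod_cast hb1) (by rw [hm]; exact_mod_cast hb2)
      have hsub : T j ⊆ J.biUnion T := Finset.subset_biUnion_of_mem T hjJ
      exact ⟨x, mem_union_right _ (hsub hx), y, mem_union_right _ (hsub hy), hx0, hy0, hxy,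
        mem_union_right _ (hsub hz)⟩
  · have hn1 : (1 : ℝ) ≤ n := by exact_mod_cast hn
    have hnθ : (1 : ℝ) ≤ (n : ℝ) ^ θ := Real.one_le_rpow hn1 hθ0
    have hl1 : (1 : ℝ) ≤ (l : ℝ) + 1 := by
      have : (0 : ℝ) ≤ l := by positivity
      linarith
    have c1 : ((Finset.Icc (-(2 : ℤ) ^ (j0 + 2)) (2 ^ (j0 + 2))).card : ℝ) = 2 ^ (j0 + 3) + 1 := by
      rw [Int.card_Icc]
      have : ((2 : ℤ) ^ (j0 + 2) + 1 - -(2 : ℤ) ^ (j0 + 2)).toNat = 2 ^ (j0 + 3) + 1 := by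
        have h1 : (2 : ℤ) ^ (j0 + 2) + 1 - -(2 : ℤ) ^ (j0 + 2) = ((2 ^ (j0 + 3) + 1 : ℕ) : ℤ) := by
          push_cast
          ring
        rw [h1, Int.toNat_natCast]
      rw [this]
      push_cast
      ring
    have c2 : ∀ j ∈ J, ((T j).card : ℝ) ≤ 54 * N * ((l : ℝ) + 1) * (n : ℝ) ^ θ := by
      intro j hj
      obtain ⟨h1, h2, h3⟩ := mem_filter.1 hj
      refine (hT j h2).2.trans ?_
      have h4 : (j : ℝ) + 2 ≤ l := by
        have : j + 2 ≤ l := by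
          rw [hl, ← Nat.log_pow (by norm_num : 1 < 2) (j + 2)]
          exact Nat.log_mono_right h3
        exact_mod_cast this
      have h5 : ((2 : ℝ) ^ (j + 1)) ^ θ ≤ (n : ℝ) ^ θ := by
        apply Real.rpow_le_rpow (by positivity) _ hθ0
        have : 2 ^ (j + 1) ≤ n :=
          (Nat.pow_le_pow_right (by norm_num) (by omega : j + 1 ≤ j + 2)).trans h3
        exact_mod_cast this
      calc 18 * (2 * ((j : ℝ) + 2) + 1) * N * ((2 : ℝ) ^ (j + 1)) ^ θ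
          ≤ 18 * (3 * ((l : ℝ) + 1)) * N * (n : ℝ) ^ θ := by
            apply mul_le_mul _ h5 (by positivity) (by positivity)
            apply mul_le_mul_of_nonneg_right _ (by positivity)
            apply mul_le_mul_of_nonneg_left _ (by norm_num)
            linarith
        _ = 54 * N * ((l : ℝ) + 1) * (n : ℝ) ^ θ := by ring
    have c3 : ((J.biUnion T).card : ℝ) ≤ l * (54 * N * ((l : ℝ) + 1) * (n : ℝ) ^ θ) := by
      have h1 : ((J.biUnion T).card : ℝ) ≤ ∑ j ∈ J, ((T j).card : ℝ) := by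
        exact_mod_cast Finset.card_biUnion_le
      refine h1.trans ((Finset.sum_le_sum c2).trans ?_)
      rw [Finset.sum_const, nsmul_eq_mul]
      apply mul_le_mul_of_nonneg_right _ (by positivity)
      have : J.card ≤ l := (Finset.card_filter_le _ _).trans (by simp)
      exact_mod_cast this
    have c4 : ((Finset.Icc (-(2 : ℤ) ^ (j0 + 2)) (2 ^ (j0 + 2)) ∪ J.biUnion T).card : ℝ) ≤
        (2 ^ (j0 + 3) + 1) + l * (54 * N * ((l : ℝ) + 1) * (n : ℝ) ^ θ) := by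
      have : ((Finset.Icc (-(2 : ℤ) ^ (j0 + 2)) (2 ^ (j0 + 2)) ∪ J.biUnion T).card : ℝ) ≤
          ((Finset.Icc (-(2 : ℤ) ^ (j0 + 2)) (2 ^ (j0 + 2))).card : ℝ) + (J.biUnion T).card := by
        exact_mod_cast Finset.card_union_le _ _
      rw [c1] at this
      linarith
    refine c4.trans ?_
    have d1 : (2 : ℝ) ^ (j0 + 3) + 1 ≤ (2 ^ (j0 + 3) + 1) * ((l : ℝ) + 1) ^ 2 * (n : ℝ) ^ θ := by
      have : (1 : ℝ) ≤ ((l : ℝ) + 1) ^ 2 * (n : ℝ) ^ θ := by nlinarith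
      have h0 : (0 : ℝ) < 2 ^ (j0 + 3) + 1 := by positivity
      nlinarith
    have d2 : (l : ℝ) * (54 * N * ((l : ℝ) + 1) * (n : ℝ) ^ θ) ≤
        54 * N * ((l : ℝ) + 1) ^ 2 * (n : ℝ) ^ θ := by
      have h0 : (0 : ℝ) ≤ 54 * N * ((l : ℝ) + 1) * (n : ℝ) ^ θ := by positivity
      nlinarith
    linarith

end Pool.Agent.KS6_62.QI
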