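import Pool.Agent.KS6_62.QI.Main
import Pool.Agent.KS6_62.QI.Decimal
import Pool.Agent.KS6_62.QI.Scale

set_option autoImplicit false

/-!
# Lower bounds and the exponent of the deficit
-/

namespace Pool.Agent.KS6_62.QI

open Finset

/-- powers of the logarithm -/
lemma log_sq_le (ε : ℝ) (hε : 0 < ε) : ∃ C : ℝ, 0 < C ∧ ∀ n : ℕ, 1 ≤ n →
    ((Nat.log 2 n : ℝ) + 1) ^ 2 ≤ C * (n : ℝ) ^ ε := by
  have l2 := Real.log_pos (by norm_num : (1 : ℝ) < 2)
  refine ⟨(2 / (ε * Real.log 2) + 1) ^ 2, by positivity, fun n hn => ?_⟩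
  have hn' : (1 : ℝ) ≤ n := by exact_mod_cast hn
  have h1 : (Nat.log 2 n : ℝ) ≤ Real.log n / Real.log 2 := by
    rw [le_div_iff₀ l2, ← Real.log_pow]
    apply Real.log_le_log (by positivity)
    exact_mod_cast Nat.pow_log_le_self 2 (by omega : n ≠ 0)
  have h2 : Real.log n ≤ (n : ℝ) ^ (ε / 2) / (ε / 2) :=
    Real.log_le_rpow_div (by positivity) (by positivity)
  have h3 : (1 : ℝ) ≤ (n : ℝ) ^ (ε / 2) := Real.one_le_rpow hn' (by positivity)
  have h4 : (Nat.log 2 n : ℝ) + 1 ≤ (2 / (ε * Real.log 2) + 1) * (n : ℝ) ^ (ε / 2) := by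
    calc (Nat.log 2 n : ℝ) + 1 ≤ ((n : ℝ) ^ (ε / 2) / (ε / 2)) / Real.log 2 + (n : ℝ) ^ (ε / 2) := by
          apply add_le_add _ h3
          exact h1.trans (div_le_div_of_nonneg_right h2 l2.le)
      _ = _ := by field_simp
  calc ((Nat.log 2 n : ℝ) + 1) ^ 2 ≤ ((2 / (ε * Real.log 2) + 1) * (n : ℝ) ^ (ε / 2)) ^ 2 := by
        gcongr
    _ = (2 / (ε * Real.log 2) + 1) ^ 2 * (n : ℝ) ^ ε := by
        rw [mul_pow, ← Real.rpow_natCast ((n : ℝ) ^ (ε / 2)) 2, ← Real.rpow_mul (by positivity)]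
        congr 2
        push_cast
        ring

/-- the lower bound from a set -/
lemma lower_of_mem (t : ℝ) (ht : t ∈ sdSet) (ε : ℝ) (hε : 0 < ε) : ∃ C : ℝ, 0 < C ∧
    ∀ n : ℕ, 1 ≤ n →
      6 * (n : ℝ) - C * (n : ℝ) ^ (t + ε) ≤ upperIrredundance (queensGraph n) := by
  have ht0 : 0 ≤ t := le_trans (by norm_num) (sdSet_ge t ht)
  obtain ⟨G, hG, hteq⟩ := ht
  set N : ℕ := max (max (G.image fun p => p.1).card (G.image fun p => p.2).card)
      (G.image fun p => p.1 + p.2).card with hN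
  obtain ⟨H, hHG, hHc, hHinj⟩ := exists_reps G fun p => p.1 - p.2
  set W : Finset (ℤ × ℤ) := H.image fun q => (q.1, -q.2) with hW
  have hWc : W.card = (G.image fun p => p.1 - p.2).card := by
    rw [hW, Finset.card_image_of_injective, hHc]
    intro a b hab
    simp only [Prod.mk.injEq, neg_inj] at hab
    exact Prod.ext hab.1 hab.2
  have hinj : Set.InjOn (fun q : ℤ × ℤ => q.1 + q.2) (W : Set (ℤ × ℤ)) := by
    intro a ha b hb hab
    obtain ⟨p, hp, rfl⟩ := Finset.mem_image.1 (Finset.mem_coe.1 ha)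
    obtain ⟨q, hq, rfl⟩ := Finset.mem_image.1 (Finset.mem_coe.1 hb)
    have : p = q := hHinj hp hq (by simp only at hab ⊢; linarith)
    rw [this]
  have hx : (W.image Prod.fst).card ≤ N := by
    refine le_trans ?_ (le_max_of_le_left (le_max_left _ _))
    apply Finset.card_le_card
    rw [hW, Finset.image_image]
    exact Finset.image_subset_image hHG
  have hy : (W.image Prod.snd).card ≤ N := by
    refine le_trans ?_ (le_max_of_le_left (le_max_right _ _))
    have : W.image Prod.snd ⊆ (G.image fun p => p.2).image fun y => -y := by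
      intro y hy
      obtain ⟨w, hw, rfl⟩ := Finset.mem_image.1 hy
      obtain ⟨p, hp, rfl⟩ := Finset.mem_image.1 hw
      exact Finset.mem_image.2 ⟨p.2, Finset.mem_image.2 ⟨p, hHG hp, rfl⟩, rfl⟩
    exact (Finset.card_le_card this).trans Finset.card_image_le
  have hz : (W.image fun q => q.1 - q.2).card ≤ N := by
    refine le_trans ?_ (le_max_right _ _)
    apply Finset.card_le_card
    intro y hy
    obtain ⟨w, hw, rfl⟩ := Finset.mem_image.1 hy
    obtain ⟨p, hp, rfl⟩ := Finset.mem_image.1 hw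
    exact Finset.mem_image.2 ⟨p, hHG hp, by simp only; ring⟩
  obtain ⟨C0, hC0, hT⟩ := exists_split W N (by rw [hWc]; exact hG) hinj hx hy hz
  obtain ⟨C1, hC1, hlog⟩ := log_sq_le ε hε
  refine ⟨218 + 2220 * (C0 * C1), by positivity, fun n hn => ?_⟩
  have hn' : (1 : ℝ) ≤ n := by exact_mod_cast hn
  obtain ⟨T, hsplit, hTc⟩ := hT n hn
  rw [hWc, ← hteq] at hTc
  obtain ⟨S, hS, hc⟩ := lower_comb n hsplit hn le_rfl
  have h3 : (S.card : ℝ) ≤ upperIrredundance (queensGraph n) := by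
    exact_mod_cast le_upper _ S hS
  have hc' : (6 : ℝ) * n ≤ S.card + 218 + 4 * (555 * T.card) := by exact_mod_cast hc
  have h4 : (1 : ℝ) ≤ (n : ℝ) ^ (t + ε) := Real.one_le_rpow hn' (by positivity)
  have h5 : (T.card : ℝ) ≤ C0 * C1 * (n : ℝ) ^ (t + ε) := by
    calc (T.card : ℝ) ≤ C0 * ((Nat.log 2 n : ℝ) + 1) ^ 2 * (n : ℝ) ^ t := hTc
      _ ≤ C0 * (C1 * (n : ℝ) ^ ε) * (n : ℝ) ^ t := by
          gcongr
          exact hlog n hn
      _ = C0 * C1 * (n : ℝ) ^ (t + ε) := by
          rw [Real.rpow_add (by positivity)]; ring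
  nlinarith

/-- the lower bound -/
theorem lower_eps (ε : ℝ) (hε : 0 < ε) : ∃ C : ℝ, 0 < C ∧ ∀ n : ℕ, 1 ≤ n →
    6 * (n : ℝ) - C * (n : ℝ) ^ (sdExponent + ε) ≤ upperIrredundance (queensGraph n) := by
  obtain ⟨t, ht, hlt⟩ := exists_lt_of_csInf_lt sdSet_nonempty
    (show sInf sdSet < sdExponent + ε / 2 from lt_add_of_pos_right _ (by positivity))
  obtain ⟨C, hC, h⟩ := lower_of_mem t ht (ε / 2) (by positivity)
  refine ⟨C, hC, fun n hn => ?_⟩
  have hn' : (1 : ℝ) ≤ n := by exact_mod_cast hn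
  have h1 := h n hn
  have h2 : (n : ℝ) ^ (t + ε / 2) ≤ (n : ℝ) ^ (sdExponent + ε) :=
    Real.rpow_le_rpow_of_exponent_le hn' (by linarith)
  nlinarith

/-- the lower bound with the exponent `9 / 16` -/
theorem lower_nine : ∃ C : ℝ, 0 < C ∧ ∀ n : ℕ, 1 ≤ n →
    6 * (n : ℝ) - C * (n : ℝ) ^ (9 / 16 : ℝ) ≤ upperIrredundance (queensGraph n) := by
  obtain ⟨C, hC, h⟩ := lower_eps (9 / 16 - sdExponent) (by linarith [sdExponent_lt])
  refine ⟨C, hC, fun n hn => ?_⟩
  have h1 := h n hn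
  rwa [add_sub_cancel] at h1

/-- the library's lower bound with the exponent `log 2 / log 3` -/
theorem lower_ternary {n : ℕ} (hn : 1 ≤ n) :
    6 * (n : ℝ) - 7490 * (n : ℝ) ^ (Real.log 2 / Real.log 3) ≤
      upperIrredundance (queensGraph n) := by
  have h := TS.lower hn
  have e : TS.IR (TS.queens n) = upperIrredundance (queensGraph n) := by
    rw [queens_eq]
    unfold TS.IR upperIrredundance
    congr 1
    ext k
    constructor
    · rintro ⟨S, h1, h2⟩; exact ⟨S, h2, h1⟩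
    · rintro ⟨S, h1, h2⟩; exact ⟨S, h2, h1⟩
  rwa [e] at h

/-- the exponent of the deficit -/
theorem tendsto_deficit : Filter.Tendsto (fun n : ℕ =>
    Real.log (6 * n - (upperIrredundance (queensGraph n) : ℝ)) / Real.log n)
    Filter.atTop (nhds sdExponent) := by
  have hlog : Filter.Tendsto (fun n : ℕ => Real.log (n : ℝ)) Filter.atTop Filter.atTop :=
    Real.tendsto_log_atTop.comp tendsto_natCast_atTop_atTop
  rw [tendsto_order]
  constructor
  · intro a ha
    filter_upwards [Filter.eventually_ge_atTop 2] with n hn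
    have hn' : (2 : ℝ) ≤ n := by exact_mod_cast hn
    have hl : 0 < Real.log (n : ℝ) := Real.log_pos (by linarith)
    refine lt_of_lt_of_le ha ?_
    rw [le_div_iff₀ hl]
    have h1 := upper_all (by omega : 1 ≤ n)
    have h2 : (n : ℝ) ^ sdExponent ≤ 6 * n - (upperIrredundance (queensGraph n) : ℝ) := by
      linarith
    have h3 := Real.log_le_log (by positivity) h2
    rwa [Real.log_rpow (by positivity)] at h3
  · intro b hb
    set ε : ℝ := (b - sdExponent) / 2 with hε
    have hε0 : 0 < ε := by rw [hε]; linarith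
    obtain ⟨C, hC, h⟩ := lower_eps ε hε0
    filter_upwards [Filter.eventually_ge_atTop 2,
      hlog.eventually (Filter.eventually_gt_atTop (Real.log C / ε))] with n hn hnl
    have hn' : (2 : ℝ) ≤ n := by exact_mod_cast hn
    have hl : 0 < Real.log (n : ℝ) := Real.log_pos (by linarith)
    rw [div_lt_iff₀ hl]
    have h1 := h n (by omega)
    have h0 := upper_all (by omega : 1 ≤ n)
    have hpos : (0 : ℝ) < 6 * n - (upperIrredundance (queensGraph n) : ℝ) := by
      have : (0 : ℝ) ≤ (n : ℝ) ^ sdExponent := by positivity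
      linarith
    have h2 : 6 * n - (upperIrredundance (queensGraph n) : ℝ) ≤
        C * (n : ℝ) ^ (sdExponent + ε) := by linarith
    have h3 := Real.log_le_log hpos h2
    rw [Real.log_mul hC.ne' (by positivity), Real.log_rpow (by positivity)] at h3
    rw [div_lt_iff₀ hε0] at hnl
    have e : b = sdExponent + ε + ε := by rw [hε]; ring
    rw [e]
    nlinarith

end Pool.Agent.KS6_62.QI
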