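import Pool.Agent.KS6_62.QI.Entropy

set_option autoImplicit false

/-!
# A set of pairs with few values of `x`, `y`, `x - y` and injective sum

Letters `s ∈ {0, ..., 4}` with weights `2, 15, 34, 15, 2` (over `68`) and
`(x, y) = (⌈s / 2⌉, ⌊s / 2⌋)`.
-/

namespace Pool.Agent.KS6_62.QI

open Finset

/-- the weights of the letters -/
noncomputable def pw : Fin 5 → ℝ := ![2 / 68, 15 / 68, 34 / 68, 15 / 68, 2 / 68]
/-- the weights of the values of `x` -/
noncomputable def px : Fin 3 → ℝ := ![2 / 68, 49 / 68, 17 / 68]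
/-- the weights of the values of `y` -/
noncomputable def py : Fin 3 → ℝ := ![17 / 68, 49 / 68, 2 / 68]
/-- the weights of the values of `x - y` -/
noncomputable def pz : Fin 2 → ℝ := ![38 / 68, 30 / 68]
/-- the value of `x` -/
def fx : Fin 5 → Fin 3 := ![0, 1, 1, 2, 2]
/-- the value of `y` -/
def fy : Fin 5 → Fin 3 := ![0, 0, 1, 1, 2]
/-- the value of `x - y` -/
def fz : Fin 5 → Fin 2 := ![0, 1, 0, 1, 0]

lemma fxy_add (s : Fin 5) : ((fx s : ℕ) : ℤ) + ((fy s : ℕ) : ℤ) = ((s : ℕ) : ℤ) := by
  revert s; decide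

lemma fxy_sub (s : Fin 5) : ((fx s : ℕ) : ℤ) - ((fy s : ℕ) : ℤ) = ((fz s : ℕ) : ℤ) := by
  revert s; decide

lemma pw_pos (s : Fin 5) : 0 < pw s := by
  fin_cases s <;> simp [pw]
lemma px_pos (s : Fin 3) : 0 < px s := by
  fin_cases s <;> simp [px]
lemma py_pos (s : Fin 3) : 0 < py s := by
  fin_cases s <;> simp [py]
lemma pz_pos (s : Fin 2) : 0 < pz s := by
  fin_cases s <;> simp [pz]

lemma pw_sum : ∑ s, pw s = 1 := by
  simp [pw, Fin.sum_univ_succ]; norm_num
lemma px_sum : ∑ s, px s = 1 := by
  simp [px, Fin.sum_univ_succ]; norm_num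
lemma py_sum : ∑ s, py s = 1 := by
  simp [py, Fin.sum_univ_succ]; norm_num
lemma pz_sum : ∑ s, pz s = 1 := by
  simp [pz, Fin.sum_univ_succ]; norm_num

set_option exponentiation.threshold 1000 in
lemma num1 : (68 : ℝ) ^ 476 * 2 ^ 36 * 15 ^ 270 * 34 ^ 306 < 2 ^ 32 * 49 ^ 784 * 17 ^ 272 := by
  norm_num

set_option exponentiation.threshold 1000 in
lemma num2 : (68 : ℝ) ^ 476 * 2 ^ 36 * 15 ^ 270 * 34 ^ 306 < 30 ^ 480 * 38 ^ 608 := by
  norm_num

lemma log1 : 476 * Real.log 68 + 36 * Real.log 2 + 270 * Real.log 15 + 306 * Real.log 34 <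
    32 * Real.log 2 + 784 * Real.log 49 + 272 * Real.log 17 := by
  have h := Real.log_lt_log (by positivity) num1
  rw [Real.log_mul (by positivity) (by positivity), Real.log_mul (by positivity) (by positivity),
    Real.log_mul (by positivity) (by positivity), Real.log_mul (by positivity) (by positivity),
    Real.log_mul (by positivity) (by positivity)] at h
  simp only [Real.log_pow] at h
  push_cast at h
  linarith

lemma log2 : 476 * Real.log 68 + 36 * Real.log 2 + 270 * Real.log 15 + 306 * Real.log 34 <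
    480 * Real.log 30 + 608 * Real.log 38 := by
  have h := Real.log_lt_log (by positivity) num2
  rw [Real.log_mul (by positivity) (by positivity), Real.log_mul (by positivity) (by positivity),
    Real.log_mul (by positivity) (by positivity), Real.log_mul (by positivity) (by positivity)] at h
  simp only [Real.log_pow] at h
  push_cast at h
  linarith

/-- minus the entropies -/
lemma entw : ∑ s, pw s * Real.log (pw s) =
    (4 * Real.log 2 + 30 * Real.log 15 + 34 * Real.log 34) / 68 - Real.log 68 := by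
  simp only [pw, Fin.sum_univ_succ, Fin.sum_univ_zero]
  simp
  rw [Real.log_div (by norm_num) (by norm_num), Real.log_div (by norm_num) (by norm_num),
    Real.log_div (by norm_num) (by norm_num)]
  ring

lemma entx : ∑ s, pw s * Real.log (px (fx s)) =
    (2 * Real.log 2 + 49 * Real.log 49 + 17 * Real.log 17) / 68 - Real.log 68 := by
  simp only [pw, Fin.sum_univ_succ, Fin.sum_univ_zero]
  simp [px, fx]
  rw [Real.log_div (by norm_num) (by norm_num), Real.log_div (by norm_num) (by norm_num),
    Real.log_div (by norm_num) (by norm_num)]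
  ring

lemma enty : ∑ s, pw s * Real.log (py (fy s)) =
    (2 * Real.log 2 + 49 * Real.log 49 + 17 * Real.log 17) / 68 - Real.log 68 := by
  simp only [pw, Fin.sum_univ_succ, Fin.sum_univ_zero]
  simp [py, fy]
  rw [Real.log_div (by norm_num) (by norm_num), Real.log_div (by norm_num) (by norm_num),
    Real.log_div (by norm_num) (by norm_num)]
  ring

lemma entz : ∑ s, pw s * Real.log (pz (fz s)) =
    (30 * Real.log 30 + 38 * Real.log 38) / 68 - Real.log 68 := by
  simp only [pw, Fin.sum_univ_succ, Fin.sum_univ_zero]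
  simp [pz, fz]
  rw [Real.log_div (by norm_num) (by norm_num), Real.log_div (by norm_num) (by norm_num)]
  ring

/-- two levels -/
lemma exists_levels : ∃ L M : ℝ, 0 < ∑ s, pw s * Real.log (px (fx s)) + L ∧
    0 < ∑ s, pw s * Real.log (py (fy s)) + L ∧ 0 < ∑ s, pw s * Real.log (pz (fz s)) + L ∧
    M < -∑ s, pw s * Real.log (pw s) ∧ 16 * L < 9 * M ∧ 0 < L := by
  rw [entw, entx, enty, entz]
  have h1 := log1
  have h2 := log2
  have l2 := Real.log_pos (by norm_num : (1 : ℝ) < 2)
  set H4 := Real.log 68 - (4 * Real.log 2 + 30 * Real.log 15 + 34 * Real.log 34) / 68 with hH4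
  set Hx := Real.log 68 - (2 * Real.log 2 + 49 * Real.log 49 + 17 * Real.log 17) / 68 with hHx
  set Hz := Real.log 68 - (30 * Real.log 30 + 38 * Real.log 38) / 68 with hHz
  have e1 : 16 * Hx < 9 * H4 := by
    rw [hHx, hH4]; linarith
  have e2 : 16 * Hz < 9 * H4 := by
    rw [hHz, hH4]; linarith
  have e3 : 0 < Hx := by
    have a1 : Real.log 2 < Real.log 68 := Real.log_lt_log (by norm_num) (by norm_num)
    have a2 : Real.log 49 < Real.log 68 := Real.log_lt_log (by norm_num) (by norm_num)
    have a3 : Real.log 17 < Real.log 68 := Real.log_lt_log (by norm_num) (by norm_num)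
    rw [hHx]; linarith
  set h := max Hx Hz with hh
  have m1 : Hx ≤ h := le_max_left _ _
  have m2 : Hz ≤ h := le_max_right _ _
  have m3 : 16 * h < 9 * H4 := by
    rcases max_cases Hx Hz with ⟨h', _⟩ | ⟨h', _⟩ <;> rw [hh, h'] <;> assumption
  refine ⟨h + (9 * H4 - 16 * h) / 50, H4 - (9 * H4 - 16 * h) / 50, ?_, ?_, ?_, ?_, ?_, ?_⟩
  · linarith
  · linarith
  · linarith
  · linarith
  · linarith
  · linarith

end Pool.Agent.KS6_62.QI
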