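import Pool.Agent.KS6_62.QI.Letters

set_option autoImplicit false

/-!
# The set of pairs given by the typical words
-/

namespace Pool.Agent.KS6_62.QI

open Finset

lemma card_image_words {D : Type} [Fintype D] [DecidableEq D] (q : D → ℝ) (hq : ∀ d, 0 ≤ q d)
    (hsum : ∑ d, q d = 1) (k : ℕ) (L : ℝ) (f : Fin 5 → D) (E : Finset (Fin k → Fin 5))
    (hE : ∀ e ∈ E, 1 ≤ (∏ i, q (f (e i))) * Real.exp (k * L)) (g : D → ℤ)
    (I : Finset ℤ) (hI : ∀ a ∈ I, ∃ e ∈ E, num 5 (fun i => g (f (e i))) = a) :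
    I.card ≤ ⌊Real.exp (k * L)⌋₊ := by
  classical
  have h1 : I ⊆ (E.image fun e i => f (e i)).image fun u => num 5 fun i => g (u i) := by
    intro a ha
    obtain ⟨e, he, h⟩ := hI a ha
    refine Finset.mem_image.2 ⟨fun i => f (e i), Finset.mem_image.2 ⟨e, he, rfl⟩, h⟩
  apply Nat.le_floor
  refine le_trans ?_ (card_words q hq hsum k L (E.image fun e i => f (e i)) ?_)
  · exact_mod_cast (Finset.card_le_card h1).trans Finset.card_image_le
  · intro u hu
    obtain ⟨e, he, rfl⟩ := Finset.mem_image.1 hu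
    exact hE e he

theorem exists_words : ∃ (W : Finset (ℤ × ℤ)) (N : ℕ), 2 ≤ W.card ∧
    Set.InjOn (fun q : ℤ × ℤ => q.1 + q.2) (W : Set (ℤ × ℤ)) ∧
    (W.image Prod.fst).card ≤ N ∧ (W.image Prod.snd).card ≤ N ∧
    (W.image fun q => q.1 - q.2).card ≤ N ∧ Real.log N / Real.log W.card < 9 / 16 := by
  classical
  obtain ⟨L, M, hx, hy, hz, hw, hLM, hL0⟩ := exists_levels
  obtain ⟨rx, hrx0, hrx1, hrx⟩ := chernoff pw (fun s => px (fx s)) (fun s => (pw_pos s).le) pw_sum
    (fun s => px_pos _) L hx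
  obtain ⟨ry, hry0, hry1, hry⟩ := chernoff pw (fun s => py (fy s)) (fun s => (pw_pos s).le) pw_sum
    (fun s => py_pos _) L hy
  obtain ⟨rz, hrz0, hrz1, hrz⟩ := chernoff pw (fun s => pz (fz s)) (fun s => (pw_pos s).le) pw_sum
    (fun s => pz_pos _) L hz
  obtain ⟨rw', hrw0, hrw1, hrw⟩ := chernoff pw (fun s => (pw s)⁻¹) (fun s => (pw_pos s).le) pw_sum
    (fun s => inv_pos.2 (pw_pos s)) (-M) (by
      simp only [Real.log_inv, mul_neg, Finset.sum_neg_distrib]; linarith)
  have l2 := Real.log_pos (by norm_num : (1 : ℝ) < 2)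
  have hM0 : 0 < M := by linarith
  obtain ⟨k, ⟨⟨⟨⟨k1, k2⟩, k3⟩, k4⟩, k5⟩, k6⟩ : ∃ k : ℕ, ((((rx ^ k < 1 / 8 ∧ ry ^ k < 1 / 8) ∧
      rz ^ k < 1 / 8) ∧ rw' ^ k < 1 / 8) ∧ 9 * Real.log 2 < k * (9 * M - 16 * L)) ∧
      2 * Real.log 2 < k * M := by
    have e1 := (tendsto_pow_atTop_nhds_zero_of_lt_one hrx0 hrx1).eventually
      (gt_mem_nhds (by norm_num : (0 : ℝ) < 1 / 8))
    have e2 := (tendsto_pow_atTop_nhds_zero_of_lt_one hry0 hry1).eventually
      (gt_mem_nhds (by norm_num : (0 : ℝ) < 1 / 8))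
    have e3 := (tendsto_pow_atTop_nhds_zero_of_lt_one hrz0 hrz1).eventually
      (gt_mem_nhds (by norm_num : (0 : ℝ) < 1 / 8))
    have e4 := (tendsto_pow_atTop_nhds_zero_of_lt_one hrw0 hrw1).eventually
      (gt_mem_nhds (by norm_num : (0 : ℝ) < 1 / 8))
    have e5 : ∀ᶠ k : ℕ in Filter.atTop, 9 * Real.log 2 < k * (9 * M - 16 * L) :=
      (tendsto_natCast_atTop_atTop.atTop_mul_const (by linarith : 0 < 9 * M - 16 * L)).eventually
        (Filter.eventually_gt_atTop _)
    have e6 : ∀ᶠ k : ℕ in Filter.atTop, 2 * Real.log 2 < k * M :=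
      (tendsto_natCast_atTop_atTop.atTop_mul_const hM0).eventually
        (Filter.eventually_gt_atTop _)
    exact (((((e1.and e2).and e3).and e4).and e5).and e6).exists
  have kx := hrx k
  have ky := hry k
  have kz := hrz k
  have kw := hrw k
  set E : Finset (Fin k → Fin 5) := univ.filter fun e =>
    1 ≤ (∏ i, px (fx (e i))) * Real.exp (k * L) ∧ 1 ≤ (∏ i, py (fy (e i))) * Real.exp (k * L) ∧
    1 ≤ (∏ i, pz (fz (e i))) * Real.exp (k * L) ∧
    1 ≤ (∏ i, (pw (e i))⁻¹) * Real.exp (k * -M) with hE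
  have hmem : ∀ e ∈ E, 1 ≤ (∏ i, px (fx (e i))) * Real.exp (k * L) ∧
    1 ≤ (∏ i, py (fy (e i))) * Real.exp (k * L) ∧
    1 ≤ (∏ i, pz (fz (e i))) * Real.exp (k * L) ∧
    1 ≤ (∏ i, (pw (e i))⁻¹) * Real.exp (k * -M) := fun e he => (Finset.mem_filter.1 he).2
  -- the total weight
  have htot : (1 : ℝ) = ∑ e : Fin k → Fin 5, ∏ i, pw (e i) := by
    rw [← Fintype.sum_pow, pw_sum, one_pow]
  have hhalf : 1 / 2 ≤ ∑ e ∈ E, ∏ i, pw (e i) := by
    have h1 : (∑ e : Fin k → Fin 5, ∏ i, pw (e i)) ≤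
        (∑ e ∈ E, ∏ i, pw (e i)) +
        ((∑ e : Fin k → Fin 5, if (∏ i, px (fx (e i))) * Real.exp (k * L) < 1 then
          ∏ i, pw (e i) else 0) +
        (∑ e : Fin k → Fin 5, if (∏ i, py (fy (e i))) * Real.exp (k * L) < 1 then
          ∏ i, pw (e i) else 0) +
        (∑ e : Fin k → Fin 5, if (∏ i, pz (fz (e i))) * Real.exp (k * L) < 1 then
          ∏ i, pw (e i) else 0) +
        (∑ e : Fin k → Fin 5, if (∏ i, (pw (e i))⁻¹) * Real.exp (k * -M) < 1 then
          ∏ i, pw (e i) else 0)) := by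
      rw [hE, Finset.sum_filter, ← Finset.sum_add_distrib, ← Finset.sum_add_distrib,
        ← Finset.sum_add_distrib, ← Finset.sum_add_distrib]
      refine Finset.sum_le_sum fun e _ => ?_
      have hP : 0 ≤ ∏ i, pw (e i) := Finset.prod_nonneg fun i _ => (pw_pos _).le
      by_cases c1 : (∏ i, px (fx (e i))) * Real.exp (k * L) < 1
      · rw [if_pos c1]
        have : ∀ (p : Prop) [Decidable p], 0 ≤ (if p then ∏ i, pw (e i) else 0) := by
          intro p _; split_ifs <;> simp [hP]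
        have a1 := this ((∏ i, py (fy (e i))) * Real.exp (k * L) < 1)
        have a2 := this ((∏ i, pz (fz (e i))) * Real.exp (k * L) < 1)
        have a3 := this ((∏ i, (pw (e i))⁻¹) * Real.exp (k * -M) < 1)
        have a4 := this (1 ≤ (∏ i, px (fx (e i))) * Real.exp (k * L) ∧
          1 ≤ (∏ i, py (fy (e i))) * Real.exp (k * L) ∧
          1 ≤ (∏ i, pz (fz (e i))) * Real.exp (k * L) ∧
          1 ≤ (∏ i, (pw (e i))⁻¹) * Real.exp (k * -M))
        linarith
      by_cases c2 : (∏ i, py (fy (e i))) * Real.exp (k * L) < 1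
      · rw [if_pos c2]
        have : ∀ (p : Prop) [Decidable p], 0 ≤ (if p then ∏ i, pw (e i) else 0) := by
          intro p _; split_ifs <;> simp [hP]
        have a1 := this ((∏ i, px (fx (e i))) * Real.exp (k * L) < 1)
        have a2 := this ((∏ i, pz (fz (e i))) * Real.exp (k * L) < 1)
        have a3 := this ((∏ i, (pw (e i))⁻¹) * Real.exp (k * -M) < 1)
        have a4 := this (1 ≤ (∏ i, px (fx (e i))) * Real.exp (k * L) ∧
          1 ≤ (∏ i, py (fy (e i))) * Real.exp (k * L) ∧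
          1 ≤ (∏ i, pz (fz (e i))) * Real.exp (k * L) ∧
          1 ≤ (∏ i, (pw (e i))⁻¹) * Real.exp (k * -M))
        linarith
      by_cases c3 : (∏ i, pz (fz (e i))) * Real.exp (k * L) < 1
      · rw [if_pos c3]
        have : ∀ (p : Prop) [Decidable p], 0 ≤ (if p then ∏ i, pw (e i) else 0) := by
          intro p _; split_ifs <;> simp [hP]
        have a1 := this ((∏ i, px (fx (e i))) * Real.exp (k * L) < 1)
        have a2 := this ((∏ i, py (fy (e i))) * Real.exp (k * L) < 1)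
        have a3 := this ((∏ i, (pw (e i))⁻¹) * Real.exp (k * -M) < 1)
        have a4 := this (1 ≤ (∏ i, px (fx (e i))) * Real.exp (k * L) ∧
          1 ≤ (∏ i, py (fy (e i))) * Real.exp (k * L) ∧
          1 ≤ (∏ i, pz (fz (e i))) * Real.exp (k * L) ∧
          1 ≤ (∏ i, (pw (e i))⁻¹) * Real.exp (k * -M))
        linarith
      by_cases c4 : (∏ i, (pw (e i))⁻¹) * Real.exp (k * -M) < 1
      · rw [if_pos c4]
        have : ∀ (p : Prop) [Decidable p], 0 ≤ (if p then ∏ i, pw (e i) else 0) := by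
          intro p _; split_ifs <;> simp [hP]
        have a1 := this ((∏ i, px (fx (e i))) * Real.exp (k * L) < 1)
        have a2 := this ((∏ i, py (fy (e i))) * Real.exp (k * L) < 1)
        have a3 := this ((∏ i, pz (fz (e i))) * Real.exp (k * L) < 1)
        have a4 := this (1 ≤ (∏ i, px (fx (e i))) * Real.exp (k * L) ∧
          1 ≤ (∏ i, py (fy (e i))) * Real.exp (k * L) ∧
          1 ≤ (∏ i, pz (fz (e i))) * Real.exp (k * L) ∧
          1 ≤ (∏ i, (pw (e i))⁻¹) * Real.exp (k * -M))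
        linarith
      rw [if_pos ⟨not_lt.1 c1, not_lt.1 c2, not_lt.1 c3, not_lt.1 c4⟩, if_neg c1, if_neg c2,
        if_neg c3, if_neg c4]
      linarith
    linarith
  have hcard : Real.exp (k * M) / 2 ≤ E.card := by
    have h1 : ∀ e ∈ E, ∏ i, pw (e i) ≤ Real.exp (-(k * M)) := by
      intro e he
      have h2 := (hmem e he).2.2.2
      have hP : 0 < ∏ i, pw (e i) := Finset.prod_pos fun i _ => pw_pos _
      rw [Finset.prod_inv_distrib, mul_neg, ← div_eq_inv_mul, le_div_iff₀ hP, one_mul] at h2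
      exact h2
    have h2 := hhalf.trans (Finset.sum_le_sum h1)
    rw [Finset.sum_const, nsmul_eq_mul, Real.exp_neg, ← div_eq_mul_inv,
      le_div_iff₀ (Real.exp_pos _)] at h2
    linarith
  set F : (Fin k → Fin 5) → ℤ × ℤ := fun e =>
    (num 5 fun i => ((fx (e i) : ℕ) : ℤ), num 5 fun i => ((fy (e i) : ℕ) : ℤ)) with hF
  have hsum : ∀ e, (F e).1 + (F e).2 = num 5 fun i => ((e i : ℕ) : ℤ) := by
    intro e
    simp only [hF]
    rw [num_add]
    congr 1
    funext i
    exact fxy_add _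
  have hdig : ∀ e : Fin k → Fin 5, ∀ i, 0 ≤ ((e i : ℕ) : ℤ) ∧ ((e i : ℕ) : ℤ) < 5 := by
    intro e i
    have := (e i).2
    omega
  have hdiff : ∀ e, (F e).1 - (F e).2 = num 5 fun i => ((fz (e i) : ℕ) : ℤ) := by
    intro e
    simp only [hF]
    rw [num_sub]
    congr 1
    funext i
    exact fxy_sub _
  have hinj : ∀ e e', (F e).1 + (F e).2 = (F e').1 + (F e').2 → e = e' := by
    intro e e' h
    rw [hsum, hsum] at h
    have := num_inj 5 (by norm_num) _ _ (hdig e) (hdig e') h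
    funext i
    have h1 := congrFun this i
    exact Fin.ext (by exact_mod_cast h1)
  have hFinj : Function.Injective F := fun e e' h => hinj e e' (by rw [h])
  have hWcard : (E.image F).card = E.card := Finset.card_image_of_injective _ hFinj
  have hM2 : (2 : ℝ) ≤ E.card := by
    refine le_trans ?_ hcard
    rw [le_div_iff₀ (by norm_num)]
    have : Real.exp (2 * Real.log 2) = 4 := by
      rw [two_mul, Real.exp_add, Real.exp_log (by norm_num)]; norm_num
    have h2 := Real.exp_le_exp.2 k6.le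
    rw [this] at h2
    linarith
  refine ⟨E.image F, ⌊Real.exp (k * L)⌋₊, ?_, ?_, ?_, ?_, ?_, ?_⟩
  · rw [hWcard]; exact_mod_cast hM2
  · intro a ha b hb hab
    simp only [Finset.coe_image, Set.mem_image, Finset.mem_coe] at ha hb
    obtain ⟨e, _, rfl⟩ := ha
    obtain ⟨e', _, rfl⟩ := hb
    exact congrArg F (hinj e e' hab)
  · refine card_image_words px (fun d => (px_pos d).le) px_sum k L fx E
      (fun e he => (hmem e he).1) (fun d => ((d : ℕ) : ℤ)) _ ?_
    intro a ha
    simp only [Finset.mem_image] at ha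
    obtain ⟨_, ⟨e, he, rfl⟩, rfl⟩ := ha
    exact ⟨e, he, rfl⟩
  · refine card_image_words py (fun d => (py_pos d).le) py_sum k L fy E
      (fun e he => (hmem e he).2.1) (fun d => ((d : ℕ) : ℤ)) _ ?_
    intro a ha
    simp only [Finset.mem_image] at ha
    obtain ⟨_, ⟨e, he, rfl⟩, rfl⟩ := ha
    exact ⟨e, he, rfl⟩
  · refine card_image_words pz (fun d => (pz_pos d).le) pz_sum k L fz E
      (fun e he => (hmem e he).2.2.1) (fun d => ((d : ℕ) : ℤ)) _ ?_
    intro a ha
    simp only [Finset.mem_image] at ha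
    obtain ⟨_, ⟨e, he, rfl⟩, rfl⟩ := ha
    exact ⟨e, he, (hdiff e).symm⟩
  · rw [hWcard]
    have hlogE : k * M - Real.log 2 ≤ Real.log E.card := by
      have h1 := Real.log_le_log (by positivity) hcard
      rwa [Real.log_div (Real.exp_pos _).ne' (by norm_num), Real.log_exp] at h1
    have hE0 : 0 < Real.log E.card := Real.log_pos (by linarith)
    have hN : Real.log (⌊Real.exp (k * L)⌋₊ : ℕ) ≤ k * L := by
      have h0 : 1 ≤ ⌊Real.exp (k * L)⌋₊ := by
        apply Nat.le_floor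
        rw [Nat.cast_one]
        exact Real.one_le_exp (by positivity)
      have h1 := Real.log_le_log (by exact_mod_cast h0) (Nat.floor_le (Real.exp_pos (k * L)).le)
      rwa [Real.log_exp] at h1
    rw [div_lt_iff₀ hE0]
    nlinarith

end Pool.Agent.KS6_62.QI
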