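import Pool.Agent.KS6_62.QI.SD
import Pool.Agent.KS6_62.QI.Words
import Pool.Agent.KS6_62.QI.Defs

set_option autoImplicit false

/-!
# Upper bounds
-/

namespace Pool.Agent.KS6_62.QI

open Finset

/-- a set of pairs from two functions -/
lemma pair_set {α : Type*} [DecidableEq α] (U : Finset α) (a b : α → ℤ) (A B C : Finset ℤ)
    (hA : ∀ v ∈ U, a v ∈ A) (hB : ∀ v ∈ U, b v ∈ B) (hC : ∀ v ∈ U, a v + b v ∈ C)
    (hinj : ∀ u ∈ U, ∀ v ∈ U, a u - b u = a v - b v → u = v) :
    ∃ G : Finset (ℤ × ℤ), (G.image fun p => p.1).card ≤ A.card ∧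
      (G.image fun p => p.2).card ≤ B.card ∧ (G.image fun p => p.1 + p.2).card ≤ C.card ∧
      (G.image fun p => p.1 - p.2).card = U.card := by
  refine ⟨U.image fun v => (a v, b v), ?_, ?_, ?_, ?_⟩
  · apply Finset.card_le_card
    rw [Finset.image_image, Finset.image_subset_iff]
    exact hA
  · apply Finset.card_le_card
    rw [Finset.image_image, Finset.image_subset_iff]
    exact hB
  · apply Finset.card_le_card
    rw [Finset.image_image, Finset.image_subset_iff]
    exact hC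
  · rw [Finset.image_image]
    apply Finset.card_image_of_injOn
    intro u hu v hv h
    exact hinj u hu v hv h

open TS in
/-- the four directions together -/
lemma four_dirs (n : ℕ) (U : Fin 4 → Finset (Fin n × Fin n)) (pt : Fin n × Fin n → Fin n × Fin n)
    (E : Fin 4 → Finset ℤ)
    (h : ∀ j, ∀ v ∈ U j, ∀ k, k ≠ j → ln k (pt v) ∈ E k)
    (hinj : ∀ j, ∀ u ∈ U j, ∀ v ∈ U j, ln j (pt u) = ln j (pt v) → u = v) :
    (((U 0).card * (U 1).card * (U 2).card * (U 3).card : ℕ) : ℝ) ^ sdExponent ≤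
      ((E 0).card * (E 1).card * (E 2).card * (E 3).card : ℕ) := by
  obtain ⟨G0, a0, b0, c0, d0⟩ := pair_set (U 0) (fun v => ln 3 (pt v)) (fun v => - ln 2 (pt v))
    (E 3) ((E 2).image (fun x => -x)) ((E 1).image (fun x => 2 * x))
    (fun v hv => h 0 v hv 3 (by decide))
    (fun v hv => Finset.mem_image_of_mem _ (h 0 v hv 2 (by decide)))
    (fun v hv => by
      refine Finset.mem_image.2 ⟨_, h 0 v hv 1 (by decide), ?_⟩
      simp only [ln_one, ln_two, ln_three]; ring)
    (fun u hu v hv huv => hinj 0 u hu v hv (by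
      simp only [ln_zero, ln_two, ln_three] at huv ⊢; linarith))
  obtain ⟨G1, a1, b1, c1, d1⟩ := pair_set (U 1) (fun v => ln 2 (pt v)) (fun v => ln 3 (pt v))
    (E 2) (E 3) ((E 0).image (fun x => 2 * x))
    (fun v hv => h 1 v hv 2 (by decide))
    (fun v hv => h 1 v hv 3 (by decide))
    (fun v hv => by
      refine Finset.mem_image.2 ⟨_, h 1 v hv 0 (by decide), ?_⟩
      simp only [ln_zero, ln_two, ln_three]; ring)
    (fun u hu v hv huv => hinj 1 u hu v hv (by
      simp only [ln_one, ln_two, ln_three] at huv ⊢; linarith))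
  obtain ⟨G2, a2, b2, c2, d2⟩ := pair_set (U 2) (fun v => ln 0 (pt v)) (fun v => ln 1 (pt v))
    (E 0) (E 1) (E 3)
    (fun v hv => h 2 v hv 0 (by decide))
    (fun v hv => h 2 v hv 1 (by decide))
    (fun v hv => by
      have := h 2 v hv 3 (by decide)
      simpa using this)
    (fun u hu v hv huv => hinj 2 u hu v hv (by simpa using huv))
  obtain ⟨G3, a3, b3, c3, d3⟩ := pair_set (U 3) (fun v => - ln 1 (pt v)) (fun v => ln 0 (pt v))
    ((E 1).image (fun x => -x)) (E 0) (E 2)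
    (fun v hv => Finset.mem_image_of_mem _ (h 3 v hv 1 (by decide)))
    (fun v hv => h 3 v hv 0 (by decide))
    (fun v hv => by
      have := h 3 v hv 2 (by decide)
      simp only [ln_zero, ln_one, ln_two] at this ⊢
      rwa [neg_add_eq_sub])
    (fun u hu v hv huv => hinj 3 u hu v hv (by
      simp only [ln_zero, ln_one, ln_three] at huv ⊢; linarith))
  have e1 : ((E 2).image (fun x : ℤ => -x)).card ≤ (E 2).card := Finset.card_image_le
  have e2 : ((E 1).image (fun x : ℤ => 2 * x)).card ≤ (E 1).card := Finset.card_image_le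
  have e3 : ((E 0).image (fun x : ℤ => 2 * x)).card ≤ (E 0).card := Finset.card_image_le
  have e4 : ((E 1).image (fun x : ℤ => -x)).card ≤ (E 1).card := Finset.card_image_le
  obtain ⟨K, ka, kb, kc, kd⟩ := exists_prod G0 G1
  obtain ⟨L, la, lb, lc, ld⟩ := exists_prod G2 G3
  obtain ⟨M, ma, mb, mc, md⟩ := exists_prod K L
  have hM : (M.image fun p => p.1 - p.2).card =
      (U 0).card * (U 1).card * (U 2).card * (U 3).card := by
    rw [md, kd, ld, d0, d1, d2, d3]; ring
  rw [← hM]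
  apply sdExponent_spec
  · calc (M.image fun p => p.1).card ≤ _ := ma
      _ ≤ ((G0.image fun p => p.1).card * (G1.image fun p => p.1).card) *
          ((G2.image fun p => p.1).card * (G3.image fun p => p.1).card) := Nat.mul_le_mul ka la
      _ ≤ ((E 3).card * (E 2).card) * ((E 0).card * (E 1).card) :=
          Nat.mul_le_mul (Nat.mul_le_mul a0 a1) (Nat.mul_le_mul a2 (a3.trans e4))
      _ = _ := by ring
  · calc (M.image fun p => p.2).card ≤ _ := mb
      _ ≤ ((G0.image fun p => p.2).card * (G1.image fun p => p.2).card) *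
          ((G2.image fun p => p.2).card * (G3.image fun p => p.2).card) := Nat.mul_le_mul kb lb
      _ ≤ ((E 2).card * (E 3).card) * ((E 1).card * (E 0).card) :=
          Nat.mul_le_mul (Nat.mul_le_mul (b0.trans e1) b1) (Nat.mul_le_mul b2 b3)
      _ = _ := by ring
  · calc (M.image fun p => p.1 + p.2).card ≤ _ := mc
      _ ≤ ((G0.image fun p => p.1 + p.2).card * (G1.image fun p => p.1 + p.2).card) *
          ((G2.image fun p => p.1 + p.2).card * (G3.image fun p => p.1 + p.2).card) :=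
          Nat.mul_le_mul kc lc
      _ ≤ ((E 1).card * (E 0).card) * ((E 3).card * (E 2).card) :=
          Nat.mul_le_mul (Nat.mul_le_mul (c0.trans e2) (c1.trans e3)) (Nat.mul_le_mul c2 c3)
      _ = _ := by ring

/-- the same queens graph -/
lemma queens_eq (n : ℕ) : TS.queens n = queensGraph n := by
  ext p q
  simp only [TS.queens, queensGraph]
  refine and_congr_right fun _ => or_congr_right (or_congr_right ?_)
  rw [abs_eq_abs]
  constructor
  · rintro (h | h)
    · right; linarith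
    · left; linarith
  · rintro (h | h)
    · right; linarith
    · left; linarith

/-- the main inequality -/
theorem main_ineq {n : ℕ} (hn : 1 ≤ n) (S : Finset (Fin n × Fin n))
    (hS : IsIrredundant (queensGraph n) S) :
    ∃ W : ℕ, S.card + W = 6 * n - 2 ∧
      ((W : ℝ) ≤ n → 8 * (((n : ℝ) - W) * (2 * n - 1 - W)) ^ (sdExponent / 2) ≤ W) := by
  have hS' : TS.Irredundant (TS.queens n) S := by
    rw [queens_eq]; exact hS
  obtain ⟨W, u, e, b, hW, h0, h1, h2, h3, hE, hB, hsum⟩ := TS.waste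
    (fun u e => (((u 0) * (u 1) * (u 2) * (u 3) : ℕ) : ℝ) ^ sdExponent ≤
      ((e 0) * (e 1) * (e 2) * (e 3) : ℕ)) four_dirs hn S hS'
  have hθ : 0 < sdExponent := lt_of_lt_of_le (by norm_num) sdExponent_ge
  refine ⟨W, hW, ?_⟩
  intro hWn
  have hn' : (1 : ℝ) ≤ n := by exact_mod_cast hn
  have k0 : (n : ℝ) - W ≤ u 0 := by
    have : (n : ℝ) ≤ u 0 + W := by exact_mod_cast h0
    linarith
  have k1 : (n : ℝ) - W ≤ u 1 := by
    have : (n : ℝ) ≤ u 1 + W := by exact_mod_cast h1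
    linarith
  have k2 : 2 * (n : ℝ) - 1 - W ≤ u 2 := by
    have h2' : 2 * n ≤ u 2 + W + 1 := by omega
    have : 2 * (n : ℝ) ≤ u 2 + W + 1 := by exact_mod_cast h2'
    linarith
  have k3 : 2 * (n : ℝ) - 1 - W ≤ u 3 := by
    have h3' : 2 * n ≤ u 3 + W + 1 := by omega
    have : 2 * (n : ℝ) ≤ u 3 + W + 1 := by exact_mod_cast h3'
    linarith
  have p0 : 0 ≤ (n : ℝ) - W := by linarith
  have p2 : 0 ≤ 2 * (n : ℝ) - 1 - W := by linarith
  set P : ℝ := ((n : ℝ) - W) * (2 * n - 1 - W) with hPdef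
  have hP0 : 0 ≤ P := mul_nonneg p0 p2
  have hP : P ^ 2 ≤ u 0 * u 1 * u 2 * u 3 := by
    calc P ^ 2 = ((n : ℝ) - W) * (n - W) * (2 * n - 1 - W) * (2 * n - 1 - W) := by
          rw [hPdef]; ring
      _ ≤ u 0 * u 1 * u 2 * u 3 := by gcongr
  -- the smaller of the two classes of wasted lines
  have key : ∀ x : Fin 4 → ℕ, (((u 0) * (u 1) * (u 2) * (u 3) : ℕ) : ℝ) ^ sdExponent ≤
      ((x 0) * (x 1) * (x 2) * (x 3) : ℕ) →
      ((x 0 + x 1 + x 2 + x 3 : ℕ) : ℝ) ≤ W / 2 → 8 * P ^ (sdExponent / 2) ≤ W := by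
    intro x hx hxW
    push_cast at hx hxW
    have ha := TS.amgm4 (x 0) (x 1) (x 2) (x 3) (by positivity) (by positivity) (by positivity)
      (by positivity)
    have hb : (x 0 : ℝ) * x 1 * x 2 * x 3 ≤ ((W : ℝ) / 8) ^ 4 := by
      have : ((x 0 : ℝ) + x 1 + x 2 + x 3) ^ 4 ≤ ((W : ℝ) / 2) ^ 4 := by gcongr
      have e : ((W : ℝ) / 2) ^ 4 = 256 * ((W : ℝ) / 8) ^ 4 := by ring
      rw [e] at this
      linarith
    have hc : (P ^ (sdExponent / 2)) ^ 4 ≤ ((W : ℝ) / 8) ^ 4 := by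
      calc (P ^ (sdExponent / 2)) ^ 4 = (P ^ 2) ^ sdExponent := by
            rw [← Real.rpow_natCast (P ^ (sdExponent / 2)) 4, ← Real.rpow_mul hP0,
              ← Real.rpow_natCast P 2, ← Real.rpow_mul hP0]
            congr 1
            push_cast
            ring
        _ ≤ ((u 0 : ℝ) * u 1 * u 2 * u 3) ^ sdExponent :=
            Real.rpow_le_rpow (by positivity) hP hθ.le
        _ ≤ (x 0 : ℝ) * x 1 * x 2 * x 3 := hx
        _ ≤ ((W : ℝ) / 8) ^ 4 := hb
    have hd := le_of_pow_le_pow_left₀ (by norm_num) (by positivity) hc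
    linarith
  have hsum' : ((e 0 + e 1 + e 2 + e 3 : ℕ) : ℝ) + ((b 0 + b 1 + b 2 + b 3 : ℕ) : ℝ) = W := by
    exact_mod_cast hsum
  by_cases hcase : ((e 0 + e 1 + e 2 + e 3 : ℕ) : ℝ) ≤ W / 2
  · exact key e hE hcase
  · exact key b hB (by linarith)

/-- turning a set with injective sums into one for the exponent -/
lemma turn (W : Finset (ℤ × ℤ))
    (hinj : Set.InjOn (fun q : ℤ × ℤ => q.1 + q.2) (W : Set (ℤ × ℤ))) (N : ℕ)
    (hx : (W.image Prod.fst).card ≤ N) (hy : (W.image Prod.snd).card ≤ N)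
    (hz : (W.image fun q => q.1 - q.2).card ≤ N) : ∃ G : Finset (ℤ × ℤ),
      (G.image fun p => p.1).card ≤ N ∧ (G.image fun p => p.2).card ≤ N ∧
      (G.image fun p => p.1 + p.2).card ≤ N ∧ (G.image fun p => p.1 - p.2).card = W.card := by
  refine ⟨W.image fun q => (q.1, -q.2), ?_, ?_, ?_, ?_⟩
  · rw [Finset.image_image]; exact hx
  · rw [Finset.image_image]
    have : (W.image ((fun p : ℤ × ℤ => p.2) ∘ fun q => (q.1, -q.2))) =
        (W.image Prod.snd).image fun y => -y := by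
      rw [Finset.image_image]; rfl
    rw [this]
    exact Finset.card_image_le.trans hy
  · rw [Finset.image_image]
    have : (W.image ((fun p : ℤ × ℤ => p.1 + p.2) ∘ fun q => (q.1, -q.2))) =
        W.image fun q => q.1 - q.2 := by
      apply Finset.image_congr
      intro q _
      simp only [Function.comp]; ring
    rw [this]; exact hz
  · rw [Finset.image_image]
    apply Finset.card_image_of_injOn
    intro p hp q hq h
    apply hinj hp hq
    simp only [Function.comp] at h ⊢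
    linarith

lemma sdExponent_le (G : Finset (ℤ × ℤ)) (N : ℕ) (h2 : 2 ≤ (G.image fun p => p.1 - p.2).card)
    (hA : (G.image fun p => p.1).card ≤ N) (hB : (G.image fun p => p.2).card ≤ N)
    (hC : (G.image fun p => p.1 + p.2).card ≤ N) :
    sdExponent ≤ Real.log N / Real.log (G.image fun p => p.1 - p.2).card := by
  have hM : (2 : ℝ) ≤ ((G.image fun p => p.1 - p.2).card : ℝ) := by exact_mod_cast h2
  have hl : 0 < Real.log ((G.image fun p => p.1 - p.2).card : ℝ) := Real.log_pos (by linarith)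
  refine (csInf_le sdSet_bdd ⟨G, h2, rfl⟩).trans ?_
  apply div_le_div_of_nonneg_right _ hl.le
  have hne : G.Nonempty := by
    rw [← Finset.image_nonempty (f := fun p : ℤ × ℤ => p.1 - p.2)]
    exact Finset.card_pos.1 (by omega)
  have h1 : 1 ≤ (G.image fun p => p.1).card := Finset.card_pos.2 (hne.image _)
  apply Real.log_le_log
  · have : 1 ≤ max (max (G.image fun p => p.1).card (G.image fun p => p.2).card)
      (G.image fun p => p.1 + p.2).card := le_max_of_le_left (le_max_of_le_left h1)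
    exact_mod_cast this
  · exact_mod_cast max_le (max_le hA hB) hC

/-- the exponent is less than `9 / 16` -/
theorem sdExponent_lt : sdExponent < 9 / 16 := by
  obtain ⟨W, N, hW, hinj, hx, hy, hz, hlt⟩ := exists_words
  obtain ⟨G, g1, g2, g3, g4⟩ := turn W hinj N hx hy hz
  have := sdExponent_le G N (by rw [g4]; exact hW) g1 g2 g3
  rw [g4] at this
  exact this.trans_lt hlt

lemma sdExponent_pos : 0 < sdExponent := lt_of_lt_of_le (by norm_num) sdExponent_ge

/-- a bound for all irredundant sets is a bound for the upper irredundance number -/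
lemma exists_waste {n : ℕ} (hn : 1 ≤ n) : ∃ W : ℕ,
    (upperIrredundance (queensGraph n) : ℝ) = 6 * n - 2 - W ∧
      ((W : ℝ) ≤ n → 8 * (((n : ℝ) - W) * (2 * n - 1 - W)) ^ (sdExponent / 2) ≤ W) := by
  obtain ⟨S, hS, hirr⟩ := exists_upper (queensGraph n)
  obtain ⟨W, h1, h2⟩ := main_ineq hn S hirr
  refine ⟨W, ?_, h2⟩
  have h3 : S.card + W + 2 = 6 * n := by omega
  have h4 : (S.card : ℝ) + W + 2 = 6 * n := by exact_mod_cast h3
  rw [← hS]
  linarith

/-- the bound for all `n` -/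
theorem upper_all {n : ℕ} (hn : 1 ≤ n) :
    (upperIrredundance (queensGraph n) : ℝ) ≤ 6 * n - 2 - (n : ℝ) ^ sdExponent := by
  obtain ⟨W, hW, hmain⟩ := exists_waste hn
  rw [hW]
  have hn' : (1 : ℝ) ≤ n := by exact_mod_cast hn
  by_contra hcon
  push Not at hcon
  have hlt : (W : ℝ) < (n : ℝ) ^ sdExponent := by linarith
  have hpow : (n : ℝ) ^ sdExponent ≤ (n : ℝ) ^ ((9 : ℝ) / 16) :=
    Real.rpow_le_rpow_of_exponent_le hn' sdExponent_lt.le
  rcases Nat.lt_or_ge n 2 with h1 | h2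
  · have hn1 : n = 1 := by omega
    subst hn1
    simp only [Nat.cast_one, Real.one_rpow] at hlt
    have hW0 : W = 0 := by
      have : W < 1 := by exact_mod_cast hlt
      omega
    subst hW0
    have := hmain (by norm_num)
    norm_num at this
  · have h2' : (2 : ℝ) ≤ n := by exact_mod_cast h2
    -- `n ^ (9 / 16) ≤ (3 / 4) n`
    have h3 : (n : ℝ) ^ ((9 : ℝ) / 16) ≤ 3 / 4 * n := by
      apply le_of_pow_le_pow_left₀ (n := 16) (by norm_num) (by positivity)
      rw [← Real.rpow_natCast ((n : ℝ) ^ ((9 : ℝ) / 16)) 16, ← Real.rpow_mul (by positivity)]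
      have e : (9 : ℝ) / 16 * ((16 : ℕ) : ℝ) = ((9 : ℕ) : ℝ) := by norm_num
      rw [e, Real.rpow_natCast, mul_pow]
      have h4 : (2 : ℝ) ^ 7 ≤ (n : ℝ) ^ 7 := by gcongr
      have h5 : (1 : ℝ) ≤ (3 / 4) ^ 16 * (n : ℝ) ^ 7 := by
        calc (1 : ℝ) ≤ (3 / 4) ^ 16 * 2 ^ 7 := by norm_num
          _ ≤ _ := by gcongr
      calc (n : ℝ) ^ 9 = 1 * (n : ℝ) ^ 9 := (one_mul _).symm
        _ ≤ ((3 / 4) ^ 16 * (n : ℝ) ^ 7) * (n : ℝ) ^ 9 := by gcongr
        _ = (3 / 4) ^ 16 * (n : ℝ) ^ 16 := by ring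
    have hWn : (W : ℝ) ≤ 3 / 4 * n := hlt.le.trans (hpow.trans h3)
    have hm := hmain (by linarith)
    have hP : ((n : ℝ) / 4) ^ 2 ≤ ((n : ℝ) - W) * (2 * n - 1 - W) := by
      have ha : (n : ℝ) / 4 ≤ (n : ℝ) - W := by linarith
      have hb : (n : ℝ) / 4 ≤ 2 * n - 1 - W := by linarith
      calc ((n : ℝ) / 4) ^ 2 = (n / 4) * (n / 4) := by ring
        _ ≤ _ := by gcongr; linarith
    have h6 : ((n : ℝ) / 4) ^ sdExponent ≤
        (((n : ℝ) - W) * (2 * n - 1 - W)) ^ (sdExponent / 2) := by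
      calc ((n : ℝ) / 4) ^ sdExponent = (((n : ℝ) / 4) ^ 2) ^ (sdExponent / 2) := by
            rw [← Real.rpow_natCast ((n : ℝ) / 4) 2, ← Real.rpow_mul (by positivity)]
            congr 1
            push_cast
            ring
        _ ≤ _ := Real.rpow_le_rpow (by positivity) hP (by linarith [sdExponent_pos])
    have h7 : (n : ℝ) ^ sdExponent ≤ 4 * ((n : ℝ) / 4) ^ sdExponent := by
      rw [Real.div_rpow (by positivity) (by norm_num)]
      have h8 : (4 : ℝ) ^ sdExponent ≤ 4 := by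
        calc (4 : ℝ) ^ sdExponent ≤ (4 : ℝ) ^ (1 : ℝ) :=
              Real.rpow_le_rpow_of_exponent_le (by norm_num) (by linarith [sdExponent_lt])
          _ = 4 := Real.rpow_one _
      rw [mul_div_assoc', le_div_iff₀ (by positivity)]
      have h9 : (0 : ℝ) ≤ (n : ℝ) ^ sdExponent := by positivity
      nlinarith
    have h10 : (0 : ℝ) ≤ ((n : ℝ) / 4) ^ sdExponent := by positivity
    linarith

/-- the bound for large `n` with the constant `8` and the exponent `6 / 11` -/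
theorem upper_large {n : ℕ} (hn : 1000 ≤ n) :
    (upperIrredundance (queensGraph n) : ℝ) ≤ 6 * n - 2 - 8 * (n : ℝ) ^ (6 / 11 : ℝ) := by
  have hn' : (1000 : ℝ) ≤ n := by exact_mod_cast hn
  have hn0 : (0 : ℝ) ≤ n := by linarith
  -- m = n^(1/11)
  obtain ⟨m, hm0, hm⟩ : ∃ m : ℝ, 0 ≤ m ∧ m ^ 11 = n :=
    ⟨(n : ℝ) ^ (1 / 11 : ℝ), by positivity, by
      rw [← Real.rpow_natCast, ← Real.rpow_mul hn0]; norm_num⟩
  have hm6 : (n : ℝ) ^ (6 / 11 : ℝ) = m ^ 6 := by
    rw [← hm, ← Real.rpow_natCast m 11, ← Real.rpow_mul hm0, ← Real.rpow_natCast m 6]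
    norm_num
  have hmlow : 1.87 ≤ m := by
    by_contra hlt
    push Not at hlt
    have : m ^ 11 < 1.87 ^ 11 := by gcongr
    rw [hm] at this
    norm_num at this
    linarith
  have h5 : (22.8 : ℝ) ≤ m ^ 5 := by
    calc (22.8 : ℝ) ≤ 1.87 ^ 5 := by norm_num
      _ ≤ m ^ 5 := by gcongr
  have h6 : (42 : ℝ) ≤ m ^ 6 := by
    calc (42 : ℝ) ≤ 1.87 ^ 6 := by norm_num
      _ ≤ m ^ 6 := by gcongr
  have hbig : 8 * m ^ 6 ≤ 0.38 * n - 1 := by
    have : (n : ℝ) = m ^ 6 * m ^ 5 := by rw [← hm]; ring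
    rw [this]
    nlinarith
  obtain ⟨W, hW, hineq⟩ := exists_waste (by omega : 1 ≤ n)
  rw [hW]
  by_contra hcon
  push Not at hcon
  have hWlt : (W : ℝ) < 8 * (n : ℝ) ^ (6 / 11 : ℝ) := by linarith
  have hWlt' : (W : ℝ) < 8 * m ^ 6 := by rwa [hm6] at hWlt
  have hW38 : (W : ℝ) ≤ 0.38 * n - 1 := by linarith
  have hineq' := hineq (by linarith)
  have h9 : (n : ℝ) ^ 2 ≤ ((n : ℝ) - W) * (2 * n - 1 - W) := by
    have ha : 0.62 * (n : ℝ) ≤ (n : ℝ) - W := by linarith
    have hb : 1.62 * (n : ℝ) ≤ 2 * n - 1 - W := by linarith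
    calc (n : ℝ) ^ 2 ≤ (0.62 * n) * (1.62 * n) := by nlinarith
      _ ≤ _ := by gcongr; linarith
  have h10 : (n : ℝ) ^ (6 / 11 : ℝ) ≤
      (((n : ℝ) - W) * (2 * n - 1 - W)) ^ (sdExponent / 2) := by
    calc (n : ℝ) ^ (6 / 11 : ℝ) ≤ (n : ℝ) ^ sdExponent :=
          Real.rpow_le_rpow_of_exponent_le (by linarith) sdExponent_ge
      _ = ((n : ℝ) ^ 2) ^ (sdExponent / 2) := by
          rw [← Real.rpow_natCast (n : ℝ) 2, ← Real.rpow_mul hn0]
          congr 1
          push_cast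
          ring
      _ ≤ _ := Real.rpow_le_rpow (by positivity) h9 (by linarith [sdExponent_pos])
  linarith

/-- a constant up to `8 * 2 ^ (sdExponent / 2)` for large `n` -/
theorem upper_eventually (c : ℝ) (hc : c < 8 * 2 ^ (sdExponent / 2)) :
    ∀ᶠ n : ℕ in Filter.atTop,
      (upperIrredundance (queensGraph n) : ℝ) ≤ 6 * n - c * (n : ℝ) ^ sdExponent := by
  have hθ := sdExponent_pos
  have hθ' := sdExponent_lt
  -- a small `δ`
  obtain ⟨δ, hδ0, hδ1, hδ⟩ : ∃ δ : ℝ, 0 < δ ∧ δ < 1 ∧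
      c < 8 * ((1 - δ) * (2 - δ)) ^ (sdExponent / 2) := by
    have hcont : ContinuousAt
        (fun δ : ℝ => 8 * ((1 - δ) * (2 - δ)) ^ (sdExponent / 2)) 0 := by
      apply ContinuousAt.mul continuousAt_const
      apply ContinuousAt.rpow_const (by fun_prop)
      left; norm_num
    have h1 : ∀ᶠ δ in nhds (0 : ℝ), c < 8 * ((1 - δ) * (2 - δ)) ^ (sdExponent / 2) := by
      apply hcont.eventually_const_lt
      simpa using hc
    have h2 : ∀ᶠ δ in nhdsWithin (0 : ℝ) (Set.Ioi 0),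
        c < 8 * ((1 - δ) * (2 - δ)) ^ (sdExponent / 2) := h1.filter_mono nhdsWithin_le_nhds
    have h3 : ∀ᶠ δ in nhdsWithin (0 : ℝ) (Set.Ioi 0), δ < 1 :=
      (gt_mem_nhds one_pos).filter_mono nhdsWithin_le_nhds
    obtain ⟨δ, ⟨h4, h5⟩, h6⟩ := ((h2.and h3).and self_mem_nhdsWithin).exists
    exact ⟨δ, h6, h5, h4⟩
  -- large `n`
  have hlarge : ∀ᶠ n : ℕ in Filter.atTop, |c| * (n : ℝ) ^ sdExponent + 1 ≤ δ * n := by
    have h1 : Filter.Tendsto (fun n : ℕ => (n : ℝ) ^ (sdExponent - 1)) Filter.atTop (nhds 0) := by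
      have h0 : (0 : ℝ) < 1 - sdExponent := by linarith
      have := (tendsto_rpow_neg_atTop h0).comp (tendsto_natCast_atTop_atTop (R := ℝ))
      refine this.congr fun n => ?_
      simp only [Function.comp]
      congr 1
      ring
    have h2 : Filter.Tendsto (fun n : ℕ => |c| * (n : ℝ) ^ (sdExponent - 1) + ((n : ℝ))⁻¹)
        Filter.atTop (nhds 0) := by
      have := (h1.const_mul |c|).add (tendsto_inv_atTop_nhds_zero_nat (𝕜 := ℝ))
      simpa using this
    filter_upwards [h2.eventually (gt_mem_nhds hδ0), Filter.eventually_ge_atTop 1] with n hn hn1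
    have hn1' : (0 : ℝ) < n := by exact_mod_cast hn1
    have e : |c| * (n : ℝ) ^ sdExponent + 1 = (|c| * (n : ℝ) ^ (sdExponent - 1) + ((n : ℝ))⁻¹) * n := by
      rw [Real.rpow_sub_one hn1'.ne']
      field_simp
    rw [e]
    exact (mul_le_mul_of_nonneg_right hn.le hn1'.le)
  filter_upwards [hlarge, Filter.eventually_ge_atTop 1] with n hn hn1
  have hn1' : (1 : ℝ) ≤ n := by exact_mod_cast hn1
  obtain ⟨W, hW, hineq⟩ := exists_waste hn1
  rw [hW]
  by_contra hcon
  push Not at hcon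
  have hT : (0 : ℝ) ≤ (n : ℝ) ^ sdExponent := by positivity
  have hWlt : (W : ℝ) < c * (n : ℝ) ^ sdExponent := by linarith
  have hle : c * (n : ℝ) ^ sdExponent ≤ |c| * (n : ℝ) ^ sdExponent := by
    gcongr; exact le_abs_self c
  have hWδ : (W : ℝ) + 1 ≤ δ * n := by linarith
  have hδn : δ * n ≤ n := by nlinarith
  have hineq' := hineq (by linarith)
  have hP : ((1 - δ) * (2 - δ)) * (n : ℝ) ^ 2 ≤ ((n : ℝ) - W) * (2 * n - 1 - W) := by
    have ha : (1 - δ) * (n : ℝ) ≤ (n : ℝ) - W := by linarith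
    have hb : (2 - δ) * (n : ℝ) ≤ 2 * n - 1 - W := by linarith
    calc ((1 - δ) * (2 - δ)) * (n : ℝ) ^ 2 = ((1 - δ) * n) * ((2 - δ) * n) := by ring
      _ ≤ _ := by
        apply mul_le_mul ha hb
        · have : 0 ≤ 2 - δ := by linarith
          positivity
        · have : 0 ≤ 1 - δ := by linarith
          nlinarith
  have h1 : ((1 - δ) * (2 - δ)) ^ (sdExponent / 2) * (n : ℝ) ^ sdExponent ≤
      (((n : ℝ) - W) * (2 * n - 1 - W)) ^ (sdExponent / 2) := by
    have h1δ : 0 ≤ 1 - δ := by linarith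
    have h2δ : 0 ≤ 2 - δ := by linarith
    calc ((1 - δ) * (2 - δ)) ^ (sdExponent / 2) * (n : ℝ) ^ sdExponent
        = ((1 - δ) * (2 - δ)) ^ (sdExponent / 2) * ((n : ℝ) ^ 2) ^ (sdExponent / 2) := by
          congr 1
          rw [← Real.rpow_natCast (n : ℝ) 2, ← Real.rpow_mul (by positivity)]
          congr 1
          push_cast
          ring
      _ = (((1 - δ) * (2 - δ)) * (n : ℝ) ^ 2) ^ (sdExponent / 2) :=
          (Real.mul_rpow (by positivity) (by positivity)).symm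
      _ ≤ _ := Real.rpow_le_rpow (by positivity) hP (by linarith)
  have h2 : c * (n : ℝ) ^ sdExponent ≤
      8 * ((1 - δ) * (2 - δ)) ^ (sdExponent / 2) * (n : ℝ) ^ sdExponent :=
    mul_le_mul_of_nonneg_right hδ.le hT
  linarith

/-- the bound `6 n - 6` -/
theorem upper_six {n : ℕ} (hn : 2 ≤ n) : upperIrredundance (queensGraph n) + 6 ≤ 6 * n := by
  obtain ⟨S, hS, hirr⟩ := exists_upper (queensGraph n)
  rw [← hS]
  rcases Nat.lt_or_ge n 4 with h | h
  · have h1 : S.card ≤ n * n := by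
      have := Finset.card_le_univ S
      simpa using this
    interval_cases n <;> omega
  · obtain ⟨W, h1, h2⟩ := main_ineq (by omega) S hirr
    by_contra hcon
    have hW3 : W ≤ 3 := by omega
    have hn' : (4 : ℝ) ≤ n := by exact_mod_cast h
    have hW3' : (W : ℝ) ≤ 3 := by exact_mod_cast hW3
    have h3 := h2 (by linarith)
    have h4 : (1 : ℝ) ≤ ((n : ℝ) - W) * (2 * n - 1 - W) := by nlinarith
    have h5 : (1 : ℝ) ≤ (((n : ℝ) - W) * (2 * n - 1 - W)) ^ (sdExponent / 2) :=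
      Real.one_le_rpow h4 (by linarith [sdExponent_pos])
    linarith

end Pool.Agent.KS6_62.QI
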