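import Pool.Agent.KS6_62.QI.TwoSided

set_option autoImplicit false

/-!
# The sums-differences exponent
-/

namespace Pool.Agent.KS6_62.QI

open Finset

/-- The exponents `log max(|X|, |Y|, |X + Y|) / log |X - Y|` of the finite sets `G` of pairs of
integers, where `X`, `Y`, `X + Y`, `X - Y` are the sets of the values `x`, `y`, `x + y`, `x - y`
for the pairs `(x, y)` of `G`, and there are at least two values `x - y`. -/
def sdSet : Set ℝ :=
  {t | ∃ G : Finset (ℤ × ℤ), 2 ≤ (G.image fun p => p.1 - p.2).card ∧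
    t = Real.log (max (max (G.image fun p => p.1).card (G.image fun p => p.2).card)
      (G.image fun p => p.1 + p.2).card : ℕ) / Real.log (G.image fun p => p.1 - p.2).card}

/-- The sums-differences exponent: the infimum of the exponents of the finite sets of pairs of
integers.  It is the reciprocal of the sums-differences constant `SD({0, 1, ∞}; -1)` of Katz and
Tao. -/
noncomputable def sdExponent : ℝ := sInf sdSet

/-- one representative for each difference -/
lemma exists_reps (G : Finset (ℤ × ℤ)) (f : ℤ × ℤ → ℤ) : ∃ H : Finset (ℤ × ℤ), H ⊆ G ∧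
    H.card = (G.image f).card ∧ Set.InjOn f (H : Set (ℤ × ℤ)) := by
  obtain ⟨s, hs, hbij⟩ := Set.exists_subset_bijOn (G : Set (ℤ × ℤ)) f
  obtain ⟨H, rfl⟩ : ∃ H : Finset (ℤ × ℤ), (H : Set (ℤ × ℤ)) = s :=
    (G.finite_toSet.subset hs).exists_finset_coe
  have him : H.image f = G.image f := by
    apply Finset.coe_injective
    rw [Finset.coe_image, Finset.coe_image]
    exact hbij.image_eq
  exact ⟨H, Finset.coe_subset.1 hs, by rw [← him, Finset.card_image_of_injOn hbij.injOn],
    hbij.injOn⟩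

lemma katz_tao_log (G : Finset (ℤ × ℤ)) (N : ℕ) (hA : (G.image fun p => p.1).card ≤ N)
    (hB : (G.image fun p => p.2).card ≤ N) (hC : (G.image fun p => p.1 + p.2).card ≤ N) :
    (G.image fun p => p.1 - p.2).card ^ 6 ≤ N ^ 11 := by
  obtain ⟨H, hH, hc, hinj⟩ := exists_reps G fun p => p.1 - p.2
  rw [← hc]
  have h := TS.katz_tao H (G.image fun p => p.1) (G.image fun p => p.2)
    (G.image fun p => p.1 + p.2)
    (fun p hp => Finset.mem_image_of_mem (fun p : ℤ × ℤ => p.1) (hH hp))
    (fun p hp => Finset.mem_image_of_mem (fun p : ℤ × ℤ => p.2) (hH hp))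
    (fun p hp => Finset.mem_image_of_mem (fun p : ℤ × ℤ => p.1 + p.2) (hH hp))
    (fun p hp q hq h => hinj hp hq h)
  calc H.card ^ 6 ≤ _ := h
    _ ≤ N ^ 4 * N ^ 4 * N ^ 3 := by gcongr
    _ = N ^ 11 := by ring

lemma sdSet_ge : ∀ t ∈ sdSet, (6 : ℝ) / 11 ≤ t := by
  rintro t ⟨G, hG, rfl⟩
  set N : ℕ := max (max (G.image fun p => p.1).card (G.image fun p => p.2).card)
      (G.image fun p => p.1 + p.2).card with hN
  have h := katz_tao_log G N (le_max_of_le_left (le_max_left _ _))
    (le_max_of_le_left (le_max_right _ _)) (le_max_right _ _)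
  have hM : (2 : ℝ) ≤ ((G.image fun p => p.1 - p.2).card : ℝ) := by exact_mod_cast hG
  have hl : 0 < Real.log ((G.image fun p => p.1 - p.2).card : ℝ) := Real.log_pos (by linarith)
  rw [le_div_iff₀ hl]
  have h' : ((G.image fun p => p.1 - p.2).card : ℝ) ^ 6 ≤ (N : ℝ) ^ 11 := by exact_mod_cast h
  have h2 := Real.log_le_log (by positivity) h'
  rw [Real.log_pow, Real.log_pow] at h2
  push_cast at h2
  linarith

lemma sdSet_bdd : BddBelow sdSet := ⟨6 / 11, fun t ht => sdSet_ge t ht⟩

lemma sdSet_nonempty : sdSet.Nonempty :=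
  ⟨_, {((0 : ℤ), (0 : ℤ)), (1, 0)}, by decide, rfl⟩

lemma sdExponent_ge : (6 : ℝ) / 11 ≤ sdExponent := le_csInf sdSet_nonempty sdSet_ge

lemma sdExponent_spec (G : Finset (ℤ × ℤ)) (N : ℕ) (hA : (G.image fun p => p.1).card ≤ N)
    (hB : (G.image fun p => p.2).card ≤ N) (hC : (G.image fun p => p.1 + p.2).card ≤ N) :
    ((G.image fun p => p.1 - p.2).card : ℝ) ^ sdExponent ≤ N := by
  have hθ : 0 < sdExponent := lt_of_lt_of_le (by norm_num) sdExponent_ge
  rcases Nat.lt_or_ge (G.image fun p => p.1 - p.2).card 2 with h | h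
  · rcases Finset.eq_empty_or_nonempty G with rfl | hG
    · simp only [Finset.image_empty, Finset.card_empty, Nat.cast_zero]
      rw [Real.zero_rpow hθ.ne']
      positivity
    · have h1 : 1 ≤ (G.image fun p => p.1).card := Finset.card_pos.2 (hG.image _)
      have h2 : 1 ≤ (G.image fun p => p.1 - p.2).card := Finset.card_pos.2 (hG.image _)
      have h3 : (G.image fun p => p.1 - p.2).card = 1 := by omega
      rw [h3, Nat.cast_one, Real.one_rpow]
      exact_mod_cast h1.trans hA
  · set N' : ℕ := max (max (G.image fun p => p.1).card (G.image fun p => p.2).card)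
      (G.image fun p => p.1 + p.2).card with hN'
    have hNN : N' ≤ N := max_le (max_le hA hB) hC
    have hM : (2 : ℝ) ≤ ((G.image fun p => p.1 - p.2).card : ℝ) := by exact_mod_cast h
    have hl : 0 < Real.log ((G.image fun p => p.1 - p.2).card : ℝ) := Real.log_pos (by linarith)
    have h1 : sdExponent ≤ Real.log N' / Real.log ((G.image fun p => p.1 - p.2).card : ℝ) :=
      csInf_le sdSet_bdd ⟨G, h, rfl⟩
    rw [le_div_iff₀ hl] at h1
    have hN0 : (0 : ℝ) < N' := by
      by_contra hcon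
      have h0 : (N' : ℝ) = 0 := le_antisymm (not_lt.1 hcon) (Nat.cast_nonneg _)
      rw [h0, Real.log_zero] at h1
      nlinarith
    rw [Real.rpow_def_of_pos (by linarith)]
    calc Real.exp (Real.log ((G.image fun p => p.1 - p.2).card : ℝ) * sdExponent)
        ≤ Real.exp (Real.log N') := Real.exp_le_exp.2 (by linarith)
      _ = N' := Real.exp_log hN0
      _ ≤ N := by exact_mod_cast hNN

/-- products -/
lemma exists_prod (G H : Finset (ℤ × ℤ)) : ∃ K : Finset (ℤ × ℤ),
    (K.image fun p => p.1).card ≤ (G.image fun p => p.1).card * (H.image fun p => p.1).card ∧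
    (K.image fun p => p.2).card ≤ (G.image fun p => p.2).card * (H.image fun p => p.2).card ∧
    (K.image fun p => p.1 + p.2).card ≤
      (G.image fun p => p.1 + p.2).card * (H.image fun p => p.1 + p.2).card ∧
    (K.image fun p => p.1 - p.2).card =
      (G.image fun p => p.1 - p.2).card * (H.image fun p => p.1 - p.2).card := by
  obtain ⟨R, hR⟩ : ∃ R : ℤ, ∀ p ∈ G, |p.1 - p.2| ≤ R := by
    refine ⟨∑ p ∈ G, |p.1 - p.2|, fun p hp => ?_⟩
    exact Finset.single_le_sum (f := fun p : ℤ × ℤ => |p.1 - p.2|) (fun _ _ => abs_nonneg _) hp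
  set b : ℤ := 2 * |R| + 1 with hb
  have hb0 : 0 < b := by positivity
  have hR' : ∀ p ∈ G, |p.1 - p.2| ≤ |R| := fun p hp => (hR p hp).trans (le_abs_self R)
  set F : (ℤ × ℤ) × (ℤ × ℤ) → ℤ × ℤ := fun q => (q.1.1 + b * q.2.1, q.1.2 + b * q.2.2) with hF
  -- a general bound
  have hgen : ∀ (φ : ℤ × ℤ → ℤ), (∀ q, φ (F q) = φ q.1 + b * φ q.2) →
      ((G ×ˢ H).image F).image φ =
        ((G.image φ) ×ˢ (H.image φ)).image fun r => r.1 + b * r.2 := by
    intro φ hφ
    ext x
    simp only [Finset.mem_image, Finset.mem_product, exists_exists_and_eq_and]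
    constructor
    · rintro ⟨q, ⟨h1, h2⟩, rfl⟩
      exact ⟨(φ q.1, φ q.2), ⟨⟨_, h1, rfl⟩, ⟨_, h2, rfl⟩⟩, (hφ q).symm⟩
    · rintro ⟨⟨r1, r2⟩, ⟨⟨p, hp, rfl⟩, ⟨p', hp', rfl⟩⟩, rfl⟩
      exact ⟨(p, p'), ⟨hp, hp'⟩, hφ _⟩
  have hle : ∀ (φ : ℤ × ℤ → ℤ), (∀ q, φ (F q) = φ q.1 + b * φ q.2) →
      (((G ×ˢ H).image F).image φ).card ≤ (G.image φ).card * (H.image φ).card := by
    intro φ hφ
    rw [hgen φ hφ, ← Finset.card_product]
    exact Finset.card_image_le
  refine ⟨(G ×ˢ H).image F, hle _ fun q => rfl, hle _ fun q => rfl, hle _ fun q => ?_, ?_⟩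
  · simp only [hF]; ring
  · rw [hgen (fun p => p.1 - p.2) fun q => by simp only [hF]; ring, ← Finset.card_product]
    apply Finset.card_image_of_injOn
    rintro ⟨a, a'⟩ ha ⟨c, c'⟩ hc hac
    simp only [Finset.coe_product, Finset.coe_image, Set.mem_prod, Set.mem_image,
      Finset.mem_coe] at ha hc hac
    obtain ⟨⟨p, hp, hpa⟩, -⟩ := ha
    obtain ⟨⟨q, hq, hqc⟩, -⟩ := hc
    have h1 := hR' p hp
    have h2 := hR' q hq
    rw [hpa] at h1
    rw [hqc] at h2
    rw [abs_le] at h1 h2
    have h3 : a' = c' := by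
      by_contra hne
      have h4 : b * (a' - c') = c - a := by linarith
      have h5 : |b * (a' - c')| < b := by
        rw [h4, abs_lt]
        constructor <;> linarith
      rw [abs_mul, abs_of_pos hb0] at h5
      have h6 : 1 ≤ |a' - c'| := Int.one_le_abs (sub_ne_zero.2 hne)
      nlinarith
    subst h3
    have : a = c := by linarith
    rw [this]

end Pool.Agent.KS6_62.QI
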