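import Mathlib

set_option autoImplicit false

/-!
Copy of the library module `Pool.Graph.R_seed8.Results.MP_e17bc1_co.TwoSided`; the lemma `waste`
is stated for an arbitrary relation `Q` in place of the sums-differences inequality.
-/

namespace Pool.Agent.KS6_62.QI.TS

/-- The queens graph `Q_n`. -/
def queens (n : ℕ) : SimpleGraph (Fin n × Fin n) where
  Adj p q := p ≠ q ∧ (p.1 = q.1 ∨ p.2 = q.2 ∨
    |(p.1.val : ℤ) - (q.1.val : ℤ)| = |(p.2.val : ℤ) - (q.2.val : ℤ)|)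
  symm := by
    constructor
    rintro p q ⟨h1, h2⟩
    refine ⟨h1.symm, ?_⟩
    rcases h2 with h | h | h
    · exact Or.inl h.symm
    · exact Or.inr (Or.inl h.symm)
    · right; right
      rw [abs_sub_comm, h, abs_sub_comm]
  loopless := ⟨fun p h => h.1 rfl⟩

/-- `S` is irredundant: every vertex of `S` has a private neighbour. -/
def Irredundant {V : Type} (G : SimpleGraph V) (S : Finset V) : Prop :=
  ∀ v ∈ S, ∃ w : V, (w = v ∨ G.Adj v w) ∧ ∀ u ∈ S, u ≠ v → ¬ (w = u ∨ G.Adj u w)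

/-- The upper irredundance number. -/
noncomputable def IR {V : Type} (G : SimpleGraph V) : ℕ :=
  sSup {k : ℕ | ∃ S : Finset V, Irredundant G S ∧ S.card = k}

/-- Sum of reciprocals of fibre sizes is at most the number of fibres. -/
theorem sum_inv_fiber {α β : Type*} [DecidableEq α] [DecidableEq β] (V : Finset α) (f : α → β)
    (T : Finset β) (h : ∀ v ∈ V, f v ∈ T) :
    ∑ v ∈ V, (((V.filter (fun u => f u = f v)).card : ℝ))⁻¹ ≤ T.card := by
  rw [← Finset.sum_fiberwise_of_maps_to h]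
  calc ∑ b ∈ T, ∑ v ∈ V.filter (fun v => f v = b), (((V.filter (fun u => f u = f v)).card : ℝ))⁻¹
      ≤ ∑ b ∈ T, (1 : ℝ) := by
        apply Finset.sum_le_sum
        intro b _
        have : ∑ v ∈ V.filter (fun v => f v = b), (((V.filter (fun u => f u = f v)).card : ℝ))⁻¹
            = ∑ v ∈ V.filter (fun v => f v = b), (((V.filter (fun u => f u = b)).card : ℝ))⁻¹ := by
          apply Finset.sum_congr rfl
          intro v hv
          rw [(Finset.mem_filter.1 hv).2]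
        rw [this, Finset.sum_const, nsmul_eq_mul]
        exact mul_inv_le_one
    _ = T.card := by simp

/-- Three term arithmetic-geometric mean inequality. -/
theorem amgm3 (x y z : ℝ) (hx : 0 < x) (hy : 0 < y) (hz : 0 < z) (h : x * y * z = 1) :
    3 ≤ x + y + z := by
  nlinarith [sq_nonneg (x + y + z), sq_nonneg (x - y), sq_nonneg (x - z), sq_nonneg (y - z),
    mul_pos hx hy, mul_pos hx hz, mul_pos hy hz]

/-- Lower bound for the number of chains `v₀ ~ v₁ ≈ v₂`. -/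
theorem chain_count {α β γ : Type*} [DecidableEq α] [DecidableEq β] [DecidableEq γ]
    (V : Finset α) (f : α → β) (g : α → γ) (P : Finset β) (Q : Finset γ)
    (hf : ∀ v ∈ V, f v ∈ P) (hg : ∀ v ∈ V, g v ∈ Q) :
    V.card ^ 3 ≤ P.card * Q.card *
      ∑ v ∈ V, (V.filter (fun u => f u = f v)).card * (V.filter (fun u => g u = g v)).card := by
  rcases Finset.eq_empty_or_nonempty V with rfl | hV
  · simp
  obtain ⟨v0, hv0⟩ := hV
  have hX : (0 : ℝ) < V.card := by exact_mod_cast Finset.card_pos.2 ⟨v0, hv0⟩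
  have hP : (0 : ℝ) < P.card := by exact_mod_cast Finset.card_pos.2 ⟨_, hf _ hv0⟩
  have hQ : (0 : ℝ) < Q.card := by exact_mod_cast Finset.card_pos.2 ⟨_, hg _ hv0⟩
  set X : ℝ := (V.card : ℝ) with hXdef
  set a1 : ℝ := (P.card : ℝ) with ha1
  set a2 : ℝ := (Q.card : ℝ) with ha2
  have key : ∀ v ∈ V, (3 : ℝ) ≤ (a1 * a2 / X ^ 2) *
      (((V.filter (fun u => f u = f v)).card : ℝ) * ((V.filter (fun u => g u = g v)).card : ℝ))
      + (X / a1) * (((V.filter (fun u => f u = f v)).card : ℝ))⁻¹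
      + (X / a2) * (((V.filter (fun u => g u = g v)).card : ℝ))⁻¹ := by
    intro v hv
    have h1' : 0 < (V.filter (fun u => f u = f v)).card :=
      Finset.card_pos.2 ⟨v, Finset.mem_filter.2 ⟨hv, rfl⟩⟩
    have h2' : 0 < (V.filter (fun u => g u = g v)).card :=
      Finset.card_pos.2 ⟨v, Finset.mem_filter.2 ⟨hv, rfl⟩⟩
    have h1 : (0 : ℝ) < (V.filter (fun u => f u = f v)).card := by exact_mod_cast h1'
    have h2 : (0 : ℝ) < (V.filter (fun u => g u = g v)).card := by exact_mod_cast h2'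
    apply amgm3
    · positivity
    · positivity
    · positivity
    · field_simp
  have hsum := Finset.sum_le_sum key
  rw [Finset.sum_add_distrib, Finset.sum_add_distrib, ← Finset.mul_sum, ← Finset.mul_sum,
    ← Finset.mul_sum, Finset.sum_const, nsmul_eq_mul] at hsum
  have e1 := sum_inv_fiber V f P hf
  have e2 := sum_inv_fiber V g Q hg
  have e1' : X / a1 * ∑ v ∈ V, (((V.filter (fun u => f u = f v)).card : ℝ))⁻¹ ≤ X := by
    calc X / a1 * ∑ v ∈ V, (((V.filter (fun u => f u = f v)).card : ℝ))⁻¹ ≤ X / a1 * a1 := by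
          apply mul_le_mul_of_nonneg_left e1; positivity
      _ = X := by field_simp
  have e2' : X / a2 * ∑ v ∈ V, (((V.filter (fun u => g u = g v)).card : ℝ))⁻¹ ≤ X := by
    calc X / a2 * ∑ v ∈ V, (((V.filter (fun u => g u = g v)).card : ℝ))⁻¹ ≤ X / a2 * a2 := by
          apply mul_le_mul_of_nonneg_left e2; positivity
      _ = X := by field_simp
  have h3 : X ≤ a1 * a2 / X ^ 2 * ∑ v ∈ V, (((V.filter (fun u => f u = f v)).card : ℝ) *
      ((V.filter (fun u => g u = g v)).card : ℝ)) := by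
    rw [← hXdef] at hsum
    linarith
  have h4 : X ^ 3 ≤ a1 * a2 * ∑ v ∈ V, (((V.filter (fun u => f u = f v)).card : ℝ) *
      ((V.filter (fun u => g u = g v)).card : ℝ)) := by
    have : a1 * a2 / X ^ 2 * ∑ v ∈ V, (((V.filter (fun u => f u = f v)).card : ℝ) *
      ((V.filter (fun u => g u = g v)).card : ℝ)) = (a1 * a2 * ∑ v ∈ V,
      (((V.filter (fun u => f u = f v)).card : ℝ) *
      ((V.filter (fun u => g u = g v)).card : ℝ))) / X ^ 2 := by ring
    rw [this, le_div_iff₀ (by positivity)] at h3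
    calc X ^ 3 = X * X ^ 2 := by ring
      _ ≤ _ := h3
  rw [hXdef, ha1, ha2] at h4
  exact_mod_cast h4

/-- The sums-differences inequality of Katz and Tao. -/
theorem katz_tao (G : Finset (ℤ × ℤ)) (A B C : Finset ℤ) (hA : ∀ p ∈ G, p.1 ∈ A)
    (hB : ∀ p ∈ G, p.2 ∈ B) (hC : ∀ p ∈ G, p.1 + p.2 ∈ C)
    (hinj : ∀ p ∈ G, ∀ q ∈ G, p.1 - p.2 = q.1 - q.2 → p = q) :
    G.card ^ 6 ≤ A.card ^ 4 * B.card ^ 4 * C.card ^ 3 := by
  classical
  -- vertical pairs
  set V : Finset (ℤ × ℤ × ℤ) := (A ×ˢ B ×ˢ B).filter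
    (fun t => (t.1, t.2.1) ∈ G ∧ (t.1, t.2.2) ∈ G) with hV
  have memV : ∀ t : ℤ × ℤ × ℤ, t ∈ V ↔ (t.1, t.2.1) ∈ G ∧ (t.1, t.2.2) ∈ G := by
    intro t
    simp only [hV, Finset.mem_filter, Finset.mem_product]
    constructor
    · rintro ⟨_, h⟩; exact h
    · rintro ⟨h1, h2⟩
      exact ⟨⟨hA (t.1, t.2.1) h1, hB (t.1, t.2.1) h1, hB (t.1, t.2.2) h2⟩, h1, h2⟩
  -- Cauchy-Schwarz
  have hCS : G.card ^ 2 ≤ A.card * V.card := by
    have h1 : G.card = ∑ a ∈ A, (G.filter (fun p => p.1 = a)).card :=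
      Finset.card_eq_sum_card_fiberwise hA
    have h2 : V.card = ∑ a ∈ A, (G.filter (fun p => p.1 = a)).card ^ 2 := by
      rw [Finset.card_eq_sum_card_fiberwise (f := fun t : ℤ × ℤ × ℤ => t.1) (t := A)
        (fun t ht => hA _ ((memV t).1 ht).1)]
      apply Finset.sum_congr rfl
      intro a _
      rw [sq, ← Finset.card_product]
      apply Finset.card_bij (fun (t : ℤ × ℤ × ℤ) _ => ((t.1, t.2.1), (t.1, t.2.2)))
      · intro t ht
        rw [Finset.mem_filter] at ht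
        rw [Finset.mem_product, Finset.mem_filter, Finset.mem_filter]
        have := (memV t).1 ht.1
        exact ⟨⟨this.1, ht.2⟩, ⟨this.2, ht.2⟩⟩
      · rintro ⟨a1, b1, c1⟩ _ ⟨a2, b2, c2⟩ _ h
        simp only [Prod.mk.injEq] at h ⊢
        tauto
      · rintro ⟨⟨p1, p2⟩, ⟨q1, q2⟩⟩ h
        rw [Finset.mem_product, Finset.mem_filter, Finset.mem_filter] at h
        obtain ⟨⟨h1, h2⟩, ⟨h3, h4⟩⟩ := h
        simp only at h1 h2 h3 h4
        subst h2
        subst h4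
        exact ⟨(_, p2, q2), Finset.mem_filter.2 ⟨(memV _).2 ⟨h1, h3⟩, rfl⟩, rfl⟩
    rw [h1, h2]
    exact sq_sum_le_card_mul_sum_sq
  -- chains
  have hchain := chain_count V (fun t => t.2) (fun t => (t.2.1, t.1 + t.2.2)) (B ×ˢ B) (B ×ˢ C)
    (fun t ht => by
      have := (memV t).1 ht
      exact Finset.mem_product.2 ⟨hB (t.1, t.2.1) this.1, hB (t.1, t.2.2) this.2⟩)
    (fun t ht => by
      have := (memV t).1 ht
      exact Finset.mem_product.2 ⟨hB (t.1, t.2.1) this.1, hC (t.1, t.2.2) this.2⟩)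
  set T : Finset ((ℤ × ℤ × ℤ) × (ℤ × ℤ × ℤ) × (ℤ × ℤ × ℤ)) := (V ×ˢ V ×ˢ V).filter
    (fun s => s.2.1.2 = s.1.2 ∧ (s.2.2.2.1, s.2.2.1 + s.2.2.2.2) = (s.1.2.1, s.1.1 + s.1.2.2))
    with hT
  have hTcard : T.card = ∑ v ∈ V, (V.filter (fun u => u.2 = v.2)).card *
      (V.filter (fun u => (u.2.1, u.1 + u.2.2) = (v.2.1, v.1 + v.2.2))).card := by
    rw [Finset.card_eq_sum_card_fiberwise (f := fun s => s.1) (t := V)
      (fun s hs => by
        have hs' := (Finset.mem_filter.1 hs).1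
        rw [Finset.mem_product] at hs'
        exact hs'.1)]
    apply Finset.sum_congr rfl
    intro v hv
    rw [← Finset.card_product]
    apply Finset.card_bij (fun s _ => s.2)
    · rintro ⟨s1, s2, s3⟩ hs
      simp only [hT, Finset.mem_filter, Finset.mem_product] at hs ⊢
      obtain ⟨⟨⟨h1, h2, h3⟩, h4, h5⟩, rfl⟩ := hs
      exact ⟨⟨h2, h4⟩, ⟨h3, h5⟩⟩
    · rintro ⟨s1, s2⟩ hs ⟨r1, r2⟩ hr h
      have h1 := (Finset.mem_filter.1 hs).2
      have h2 := (Finset.mem_filter.1 hr).2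
      simp only at h h1 h2
      rw [h1, h2, h]
    · rintro ⟨s2, s3⟩ hs
      simp only [Finset.mem_filter, Finset.mem_product] at hs
      refine ⟨(v, s2, s3), ?_, rfl⟩
      simp only [hT, Finset.mem_filter, Finset.mem_product]
      exact ⟨⟨⟨hv, hs.1.1, hs.2.1⟩, hs.1.2, hs.2.2⟩, trivial⟩
  have hTle : T.card ≤ (C ×ˢ C ×ˢ A ×ˢ B).card := by
    apply Finset.card_le_card_of_injOn
      (fun s => (s.2.1.1 + s.2.1.2.1, s.2.1.1 + s.2.1.2.2, s.1.1, s.2.2.2.2))
    · rintro ⟨⟨a1, b1, c1⟩, ⟨a0, b0, c0⟩, ⟨a2, b2, c2⟩⟩ hs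
      simp only [hT, Finset.coe_filter, Set.mem_ofPred_eq, Finset.mem_product, memV] at hs
      simp only [Finset.coe_product, Set.mem_prod, Finset.mem_coe]
      exact ⟨hC _ hs.1.2.1.1, hC _ hs.1.2.1.2, hA _ hs.1.1.1, hB _ hs.1.2.2.2⟩
    · rintro ⟨⟨a1, b1, c1⟩, ⟨a0, b0, c0⟩, ⟨a2, b2, c2⟩⟩ hs
        ⟨⟨a1', b1', c1'⟩, ⟨a0', b0', c0'⟩, ⟨a2', b2', c2'⟩⟩ hs' h
      simp only [hT, Finset.coe_filter, Set.mem_ofPred_eq, Finset.mem_product, memV,
        Prod.mk.injEq] at hs hs' h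
      obtain ⟨⟨⟨-, -⟩, ⟨-, -⟩, ⟨g1, g2⟩⟩, ⟨e1, e2⟩, e3, e4⟩ := hs
      obtain ⟨⟨⟨-, -⟩, ⟨-, -⟩, ⟨g1', g2'⟩⟩, ⟨e1', e2'⟩, e3', e4'⟩ := hs'
      obtain ⟨k1, k2, k3, k4⟩ := h
      have hp := hinj _ g1 _ g1' (by simp only; linarith)
      simp only [Prod.mk.injEq] at hp ⊢
      obtain ⟨p1, p2⟩ := hp
      refine ⟨⟨?_, ?_, ?_⟩, ⟨?_, ?_, ?_⟩, ?_, ?_, ?_⟩ <;> linarith
  rw [← hTcard] at hchain
  simp only [Finset.card_product] at hchain hTle
  calc G.card ^ 6 = (G.card ^ 2) ^ 3 := by ring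
    _ ≤ (A.card * V.card) ^ 3 := Nat.pow_le_pow_left hCS 3
    _ = A.card ^ 3 * V.card ^ 3 := by ring
    _ ≤ A.card ^ 3 * (B.card * B.card * (B.card * C.card) * T.card) :=
        Nat.mul_le_mul_left _ hchain
    _ ≤ A.card ^ 3 * (B.card * B.card * (B.card * C.card) *
        (C.card * (C.card * (A.card * B.card)))) :=
        Nat.mul_le_mul_left _ (Nat.mul_le_mul_left _ hTle)
    _ = A.card ^ 4 * B.card ^ 4 * C.card ^ 3 := by ring

/-- The index of the line of direction `i` through a square. -/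
def ln {n : ℕ} (i : Fin 4) (p : Fin n × Fin n) : ℤ :=
  ![(p.1.val : ℤ), (p.2.val : ℤ), (p.1.val : ℤ) - p.2.val, (p.1.val : ℤ) + p.2.val] i

@[simp] theorem ln_zero {n : ℕ} (p : Fin n × Fin n) : ln 0 p = (p.1.val : ℤ) := rfl
@[simp] theorem ln_one {n : ℕ} (p : Fin n × Fin n) : ln 1 p = (p.2.val : ℤ) := rfl
@[simp] theorem ln_two {n : ℕ} (p : Fin n × Fin n) : ln 2 p = (p.1.val : ℤ) - p.2.val := rfl
@[simp] theorem ln_three {n : ℕ} (p : Fin n × Fin n) : ln 3 p = (p.1.val : ℤ) + p.2.val := rfl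

theorem nbhd_iff {n : ℕ} (v w : Fin n × Fin n) :
    (w = v ∨ (queens n).Adj v w) ↔ ∃ i : Fin 4, ln i v = ln i w := by
  obtain ⟨v1, v2⟩ := v
  obtain ⟨w1, w2⟩ := w
  simp only [queens]
  constructor
  · rintro (h | ⟨-, h | h | h⟩)
    · rw [h]; exact ⟨0, rfl⟩
    · refine ⟨0, ?_⟩
      simp [h]
    · refine ⟨1, ?_⟩
      simp [h]
    · rw [abs_eq_abs] at h
      rcases h with h | h
      · refine ⟨2, ?_⟩
        simp only [ln_two]
        linarith
      · refine ⟨3, ?_⟩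
        simp only [ln_three]
        linarith
  · rintro ⟨i, hi⟩
    by_cases hvw : (w1, w2) = (v1, v2)
    · exact Or.inl hvw
    · right
      refine ⟨fun h => hvw h.symm, ?_⟩
      fin_cases i
      · left
        simp at hi
        exact Fin.ext hi
      · right; left
        simp at hi
        exact Fin.ext hi
      · right; right
        simp at hi
        rw [abs_eq_abs]
        left; linarith
      · right; right
        simp at hi
        rw [abs_eq_abs]
        right; linarith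

/-- Two different lines meet in at most one square. -/
theorem eq_of_two_lines {n : ℕ} {v w : Fin n × Fin n} {i j : Fin 4} (hij : i ≠ j)
    (hi : ln i v = ln i w) (hj : ln j v = ln j w) : v = w := by
  obtain ⟨v1, v2⟩ := v
  obtain ⟨w1, w2⟩ := w
  have : (v1.val : ℤ) = w1.val ∧ (v2.val : ℤ) = w2.val := by
    fin_cases i <;> fin_cases j <;> simp at hi hj hij ⊢ <;> constructor <;> omega
  ext
  · simpa using this.1
  · simpa using this.2

theorem kt_gen {α : Type*} [DecidableEq α] (U : Finset α) (a b : α → ℤ) (A B C : Finset ℤ)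
    (hA : ∀ v ∈ U, a v ∈ A) (hB : ∀ v ∈ U, b v ∈ B) (hC : ∀ v ∈ U, a v + b v ∈ C)
    (hinj : ∀ u ∈ U, ∀ v ∈ U, a u - b u = a v - b v → u = v) :
    U.card ^ 6 ≤ A.card ^ 4 * B.card ^ 4 * C.card ^ 3 := by
  have h := katz_tao (U.image (fun v => (a v, b v))) A B C
    (by intro p hp; rw [Finset.mem_image] at hp; obtain ⟨v, hv, rfl⟩ := hp; exact hA v hv)
    (by intro p hp; rw [Finset.mem_image] at hp; obtain ⟨v, hv, rfl⟩ := hp; exact hB v hv)
    (by intro p hp; rw [Finset.mem_image] at hp; obtain ⟨v, hv, rfl⟩ := hp; exact hC v hv)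
    (by
      intro p hp q hq hpq
      rw [Finset.mem_image] at hp hq
      obtain ⟨v, hv, rfl⟩ := hp
      obtain ⟨u, hu, rfl⟩ := hq
      rw [hinj v hv u hu hpq])
  rwa [Finset.card_image_of_injOn] at h
  intro u hu v hv huv
  simp only [Prod.mk.injEq] at huv
  exact hinj u hu v hv (by rw [huv.1, huv.2])

/-- All line indices of direction `j`. -/
noncomputable def R (n : ℕ) (j : Fin 4) : Finset ℤ :=
  ![Finset.Ico 0 (n : ℤ), Finset.Ico 0 (n : ℤ), Finset.Ioo (-(n : ℤ)) n,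
    Finset.Ico 0 (2 * (n : ℤ) - 1)] j

theorem ln_mem_R {n : ℕ} (j : Fin 4) (p : Fin n × Fin n) : ln j p ∈ R n j := by
  obtain ⟨⟨x, hx⟩, ⟨y, hy⟩⟩ := p
  fin_cases j <;> simp [R, ln] <;> omega

theorem waste (Q : (Fin 4 → ℕ) → (Fin 4 → ℕ) → Prop)
    (hQ : ∀ (n : ℕ) (U : Fin 4 → Finset (Fin n × Fin n)) (pt : Fin n × Fin n → Fin n × Fin n)
      (E : Fin 4 → Finset ℤ), (∀ j, ∀ v ∈ U j, ∀ k, k ≠ j → ln k (pt v) ∈ E k) →
      (∀ j, ∀ u ∈ U j, ∀ v ∈ U j, ln j (pt u) = ln j (pt v) → u = v) →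
      Q (fun j => (U j).card) (fun j => (E j).card))
    {n : ℕ} (hn : 1 ≤ n) (S : Finset (Fin n × Fin n))
    (hS : Irredundant (queens n) S) :
    ∃ W : ℕ, ∃ u e b : Fin 4 → ℕ, S.card + W = 6 * n - 2 ∧
      n ≤ u 0 + W ∧ n ≤ u 1 + W ∧ 2 * n - 1 ≤ u 2 + W ∧ 2 * n - 1 ≤ u 3 + W ∧
      Q u e ∧ Q u b ∧
      (e 0 + e 1 + e 2 + e 3) + (b 0 + b 1 + b 2 + b 3) = W := by
  classical
  -- choose private neighbours and directions
  have hex : ∀ v : Fin n × Fin n, ∃ w : Fin n × Fin n, ∃ i : Fin 4, v ∈ S →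
      ln i v = ln i w ∧ (∀ u ∈ S, u ≠ v → ∀ j, ln j u ≠ ln j w) ∧ (w = v → i = 0) := by
    intro v
    by_cases hv : v ∈ S
    · by_cases hiso : ∀ u ∈ S, u ≠ v → ∀ j, ln j u ≠ ln j v
      · exact ⟨v, 0, fun _ => ⟨rfl, hiso, fun _ => rfl⟩⟩
      · obtain ⟨w, hw1, hw2⟩ := hS v hv
        obtain ⟨i, hi⟩ := (nbhd_iff v w).1 hw1
        have hpriv : ∀ u ∈ S, u ≠ v → ∀ j, ln j u ≠ ln j w := by
          intro u hu huv j hj
          exact hw2 u hu huv ((nbhd_iff u w).2 ⟨j, hj⟩)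
        refine ⟨w, i, fun _ => ⟨hi, hpriv, ?_⟩⟩
        intro hwv
        subst hwv
        exact absurd hpriv hiso
    · exact ⟨v, 0, fun h => absurd h hv⟩
  choose w i hwi using hex
  have h1 : ∀ v ∈ S, ln (i v) v = ln (i v) (w v) := fun v hv => (hwi v hv).1
  have h2 : ∀ v ∈ S, ∀ u ∈ S, u ≠ v → ∀ j, ln j u ≠ ln j (w v) := fun v hv => (hwi v hv).2.1
  have h3 : ∀ v ∈ S, w v = v → i v = 0 := fun v hv => (hwi v hv).2.2
  -- the queen alone on its used line
  have hused : ∀ v ∈ S, ∀ u ∈ S, ln (i v) u = ln (i v) v → u = v := by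
    intro v hv u hu h
    by_contra hne
    exact h2 v hv u hu hne (i v) (h.trans (h1 v hv))
  let U : Fin 4 → Finset (Fin n × Fin n) := fun j => S.filter (fun v => i v = j)
  let Uo : Fin 4 → Finset (Fin n × Fin n) := fun j => S.filter (fun v => i v = j ∧ w v ≠ v)
  let I : Finset (Fin n × Fin n) := S.filter (fun v => w v = v)
  let E : Fin 4 → Finset ℤ := fun j => (R n j).filter (fun c => ∀ v ∈ S, ln j v ≠ c)
  let B : Fin 4 → Finset ℤ := fun j => (R n j).filter
    (fun c => (∃ v ∈ S, ln j v = c) ∧ ∀ v ∈ S, i v = j → ln j v ≠ c)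
  have hRcard : ∀ j, (R n j).card = (U j).card + (E j).card + (B j).card := by
    intro j
    have hUcard : (U j).card = ((U j).image (ln j)).card := by
      rw [Finset.card_image_of_injOn]
      intro a ha c hc hac
      have ha' := Finset.mem_filter.1 ha
      have hc' := Finset.mem_filter.1 hc
      have := hused c hc'.1 a ha'.1 (by rw [hc'.2]; exact hac)
      exact this
    rw [hUcard, ← Finset.card_union_of_disjoint, ← Finset.card_union_of_disjoint]
    · congr 1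
      ext c
      simp only [Finset.mem_union, Finset.mem_image, U, E, B, Finset.mem_filter]
      constructor
      · intro hc
        by_cases h5 : ∃ v ∈ S, ln j v = c
        · by_cases h6 : ∃ v ∈ S, i v = j ∧ ln j v = c
          · obtain ⟨v, hv, hv2, hv3⟩ := h6
            exact Or.inl (Or.inl ⟨v, ⟨hv, hv2⟩, hv3⟩)
          · right
            refine ⟨hc, h5, ?_⟩
            intro v hv hiv hlv
            exact h6 ⟨v, hv, hiv, hlv⟩
        · left; right
          refine ⟨hc, ?_⟩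
          intro v hv hlv
          exact h5 ⟨v, hv, hlv⟩
      · rintro ((⟨v, -, rfl⟩ | h) | h)
        · exact ln_mem_R j v
        · exact h.1
        · exact h.1
    · rw [Finset.disjoint_left]
      intro c hc hc2
      rw [Finset.mem_union] at hc
      have hc2' := (Finset.mem_filter.1 hc2).2
      rcases hc with hc | hc
      · obtain ⟨v, hv, rfl⟩ := Finset.mem_image.1 hc
        have hv' := Finset.mem_filter.1 hv
        exact hc2'.2 v hv'.1 hv'.2 rfl
      · obtain ⟨v, hv, hv2⟩ := hc2'.1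
        exact (Finset.mem_filter.1 hc).2 v hv hv2
    · rw [Finset.disjoint_left]
      intro c hc hc2
      obtain ⟨v, hv, rfl⟩ := Finset.mem_image.1 hc
      have hv' := Finset.mem_filter.1 hv
      exact (Finset.mem_filter.1 hc2).2 v hv'.1 rfl
  have hScard : S.card = (U 0).card + (U 1).card + (U 2).card + (U 3).card := by
    rw [Finset.card_eq_sum_card_fiberwise (f := i) (t := Finset.univ)
      (fun _ _ => Finset.mem_coe.2 (Finset.mem_univ _)), Fin.sum_univ_four]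
  have hR0 : (R n 0).card = n := by simp [R]
  have hR1 : (R n 1).card = n := by simp [R]
  have hR2 : (R n 2).card = 2 * n - 1 := by
    simp only [R, Matrix.cons_val, Int.card_Ioo]
    omega
  have hR3 : (R n 3).card = 2 * n - 1 := by
    simp only [R, Matrix.cons_val, Int.card_Ico]
    omega
  -- isolated vertices
  have hI : I.card ≤ (B 1).card := by
    apply Finset.card_le_card_of_injOn (ln 1)
    · intro v hv
      have hv' := Finset.mem_filter.1 hv
      simp only [B, Finset.coe_filter, Set.mem_ofPred_eq]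
      refine ⟨ln_mem_R _ _, ⟨v, hv'.1, rfl⟩, ?_⟩
      intro u hu hiu hlu
      have hne : v ≠ u := by
        rintro rfl
        have := h3 v hv'.1 hv'.2
        rw [hiu] at this
        exact absurd this (by decide)
      have := hused u hu v hv'.1 (by rw [hiu]; exact hlu.symm)
      exact hne this
    · intro v hv u hu hvu
      have hv' := Finset.mem_filter.1 hv
      have hu' := Finset.mem_filter.1 hu
      by_contra hne
      have := h2 v hv'.1 u hu'.1 (Ne.symm hne) 1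
      rw [hv'.2] at this
      exact this hvu.symm
  have hUo0 : (U 0).card = (Uo 0).card + I.card := by
    rw [← Finset.card_union_of_disjoint]
    · congr 1
      ext v
      simp only [U, Uo, I, Finset.mem_union, Finset.mem_filter]
      constructor
      · rintro ⟨hv, hi⟩
        by_cases hw : w v = v
        · exact Or.inr ⟨hv, hw⟩
        · exact Or.inl ⟨hv, hi, hw⟩
      · rintro (⟨hv, hi, -⟩ | ⟨hv, hw⟩)
        · exact ⟨hv, hi⟩
        · exact ⟨hv, h3 v hv hw⟩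
    · rw [Finset.disjoint_left]
      intro v hv hv2
      exact (Finset.mem_filter.1 hv).2.2 (Finset.mem_filter.1 hv2).2
  have hUoj : ∀ j, j ≠ 0 → (Uo j).card = (U j).card := by
    intro j hj
    congr 1
    ext v
    simp only [U, Uo, Finset.mem_filter]
    constructor
    · rintro ⟨hv, hi, -⟩; exact ⟨hv, hi⟩
    · rintro ⟨hv, hi⟩
      refine ⟨hv, hi, ?_⟩
      intro hw
      exact hj (hi.symm.trans (h3 v hv hw))
  -- the two sums-differences inequalities
  have hE := hQ n Uo w E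
    (by
      intro j v hv k hk
      have hv' := Finset.mem_filter.1 hv
      simp only [E, Finset.mem_filter]
      refine ⟨ln_mem_R _ _, ?_⟩
      intro u hu hlu
      by_cases huv : u = v
      · subst huv
        have e1 := h1 u hu
        rw [hv'.2.1] at e1
        exact hv'.2.2 (eq_of_two_lines hk hlu e1).symm
      · exact h2 v hv'.1 u hu huv k hlu)
    (by
      intro j a ha c hc hac
      have ha' := Finset.mem_filter.1 ha
      have hc' := Finset.mem_filter.1 hc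
      have e1 := h1 a ha'.1
      have e2 := h1 c hc'.1
      rw [ha'.2.1] at e1
      rw [hc'.2.1] at e2
      exact hused c hc'.1 a ha'.1 (by rw [hc'.2.1, e1, e2]; exact hac))
  have hB := hQ n Uo id B
    (by
      intro j v hv k hk
      have hv' := Finset.mem_filter.1 hv
      simp only [B, Finset.mem_filter, id]
      refine ⟨ln_mem_R _ _, ⟨v, hv'.1, rfl⟩, ?_⟩
      intro u hu hiu hlu
      have := hused u hu v hv'.1 (by rw [hiu]; exact hlu.symm)
      rw [← this, hv'.2.1] at hiu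
      exact hk hiu.symm)
    (by
      intro j a ha c hc hac
      have ha' := Finset.mem_filter.1 ha
      have hc' := Finset.mem_filter.1 hc
      exact hused c hc'.1 a ha'.1 (by rw [hc'.2.1]; exact hac))
  have c0 := hRcard 0
  have c1 := hRcard 1
  have c2 := hRcard 2
  have c3 := hRcard 3
  have d1 := hUoj 1 (by decide)
  have d2 := hUoj 2 (by decide)
  have d3 := hUoj 3 (by decide)
  refine ⟨((E 0).card + (E 1).card + (E 2).card + (E 3).card) +
    ((B 0).card + (B 1).card + (B 2).card + (B 3).card), fun j => (Uo j).card,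
    fun j => (E j).card, fun j => (B j).card, ?_, ?_, ?_, ?_, ?_, hE, hB, rfl⟩
  · omega
  · show n ≤ (Uo 0).card + _
    omega
  · show n ≤ (Uo 1).card + _
    omega
  · show 2 * n - 1 ≤ (Uo 2).card + _
    omega
  · show 2 * n - 1 ≤ (Uo 3).card + _
    omega

/-- Four term arithmetic-geometric mean inequality. -/
theorem amgm4 (a b c d : ℝ) (ha : 0 ≤ a) (hb : 0 ≤ b) (hc : 0 ≤ c) (hd : 0 ≤ d) :
    256 * (a * b * c * d) ≤ (a + b + c + d) ^ 4 := by
  have h1 : 4 * (a * b) ≤ (a + b) ^ 2 := by nlinarith [sq_nonneg (a - b)]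
  have h2 : 4 * (c * d) ≤ (c + d) ^ 2 := by nlinarith [sq_nonneg (c - d)]
  have h3 : 4 * ((a + b) * (c + d)) ≤ ((a + b) + (c + d)) ^ 2 := by
    nlinarith [sq_nonneg ((a + b) - (c + d))]
  have h4 : 0 ≤ (a + b) * (c + d) := by positivity
  calc 256 * (a * b * c * d) = 16 * ((4 * (a * b)) * (4 * (c * d))) := by ring
    _ ≤ 16 * ((a + b) ^ 2 * (c + d) ^ 2) := by gcongr
    _ = (4 * ((a + b) * (c + d))) ^ 2 := by ring
    _ ≤ (((a + b) + (c + d)) ^ 2) ^ 2 := by gcongr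
    _ = (a + b + c + d) ^ 4 := by ring

theorem IR_le {n : ℕ} (_hn : 1 ≤ n) (x : ℝ) (hx : 0 ≤ x)
    (h : ∀ S : Finset (Fin n × Fin n), Irredundant (queens n) S → (S.card : ℝ) ≤ x) :
    (IR (queens n) : ℝ) ≤ x := by
  have h1 : IR (queens n) ≤ ⌊x⌋₊ := by
    apply csSup_le'
    rintro k ⟨S, hS, rfl⟩
    exact Nat.le_floor (h S hS)
  calc (IR (queens n) : ℝ) ≤ (⌊x⌋₊ : ℝ) := by exact_mod_cast h1
    _ ≤ x := Nat.floor_le hx

/-- Integers with `k` ternary digits taken from `s`. -/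
def DS (s : Finset ℤ) : ℕ → Finset ℤ
  | 0 => {0}
  | k + 1 => (s ×ˢ DS s k).image (fun p => 3 * p.2 + p.1)

theorem DS_card (s : Finset ℤ) (k : ℕ) : (DS s k).card ≤ s.card ^ k := by
  induction k with
  | zero => simp [DS]
  | succ k ih =>
    calc (DS s (k + 1)).card ≤ (s ×ˢ DS s k).card := Finset.card_image_le
      _ = s.card * (DS s k).card := Finset.card_product _ _
      _ ≤ s.card * s.card ^ k := Nat.mul_le_mul_left _ ih
      _ = s.card ^ (k + 1) := by ring

theorem DS_succ {s : Finset ℤ} {k : ℕ} {d x : ℤ} (hd : d ∈ s) (hx : x ∈ DS s k) :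
    3 * x + d ∈ DS s (k + 1) :=
  Finset.mem_image.2 ⟨(d, x), Finset.mem_product.2 ⟨hd, hx⟩, rfl⟩

theorem rowdig (k : ℕ) : ∀ t : ℤ, 0 ≤ t → t < 3 ^ k → ∃ x : ℤ, 0 ≤ x ∧ x < 3 ^ k ∧
    x ∈ DS {0, 1} k ∧ x - t ∈ DS {1, -1} k ∧ x + t ∈ DS {1, 3} k := by
  induction k with
  | zero =>
    intro t h0 h1
    have : t = 0 := by simp at h1; omega
    subst this
    exact ⟨0, by simp [DS]⟩
  | succ k ih =>
    intro t h0 h1
    rw [pow_succ] at h1
    obtain ⟨x, hx0, hx1, hx2, hx3, hx4⟩ := ih (t / 3) (by omega) (by omega)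
    have hr : t % 3 = 0 ∨ t % 3 = 1 ∨ t % 3 = 2 := by omega
    have ht : t = 3 * (t / 3) + t % 3 := by omega
    rw [pow_succ]
    rcases hr with hr | hr | hr
    · refine ⟨3 * x + 1, by omega, by omega, DS_succ (by simp) hx2, ?_, ?_⟩
      · have := DS_succ (d := 1) (by simp) hx3
        convert this using 1
        omega
      · have := DS_succ (d := 1) (by simp) hx4
        convert this using 1
        omega
    · refine ⟨3 * x + 0, by omega, by omega, DS_succ (by simp) hx2, ?_, ?_⟩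
      · have := DS_succ (d := -1) (by simp) hx3
        convert this using 1
        omega
      · have := DS_succ (d := 1) (by simp) hx4
        convert this using 1
        omega
    · refine ⟨3 * x + 1, by omega, by omega, DS_succ (by simp) hx2, ?_, ?_⟩
      · have := DS_succ (d := -1) (by simp) hx3
        convert this using 1
        omega
      · have := DS_succ (d := 3) (by simp) hx4
        convert this using 1
        omega

theorem sumdig (k : ℕ) : ∀ t : ℤ, 0 ≤ t → t < 3 ^ k → ∃ p q : ℤ, 0 ≤ p ∧ 0 ≤ q ∧ p + q = t ∧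
    p ∈ DS {0, 1} k ∧ q ∈ DS {0, 1} k ∧ q - p ∈ DS {0, 1} k := by
  induction k with
  | zero =>
    intro t h0 h1
    have : t = 0 := by simp at h1; omega
    subst this
    exact ⟨0, 0, by simp [DS]⟩
  | succ k ih =>
    intro t h0 h1
    rw [pow_succ] at h1
    obtain ⟨p, q, hp, hq, hpq, h2, h3, h4⟩ := ih (t / 3) (by omega) (by omega)
    have hr : t % 3 = 0 ∨ t % 3 = 1 ∨ t % 3 = 2 := by omega
    rcases hr with hr | hr | hr
    · refine ⟨3 * p + 0, 3 * q + 0, by omega, by omega, by omega, DS_succ (by simp) h2,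
        DS_succ (by simp) h3, ?_⟩
      have := DS_succ (d := 0) (by simp) h4
      convert this using 1
      omega
    · refine ⟨3 * p + 0, 3 * q + 1, by omega, by omega, by omega, DS_succ (by simp) h2,
        DS_succ (by simp) h3, ?_⟩
      have := DS_succ (d := 1) (by simp) h4
      convert this using 1
      omega
    · refine ⟨3 * p + 1, 3 * q + 1, by omega, by omega, by omega, DS_succ (by simp) h2,
        DS_succ (by simp) h3, ?_⟩
      have := DS_succ (d := 0) (by simp) h4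
      convert this using 1
      omega

/-- The digit part of the special line indices. -/
def Dall (k : ℕ) : Finset ℤ :=
  DS {0, 1} (k + 1) ∪ DS {0, 1} k ∪
    (DS {1, -1} k ×ˢ ({0, 1, 2} : Finset ℤ)).image (fun p => p.1 - p.2 * 3 ^ k) ∪
    (DS {1, 3} k ×ˢ ({0, 1, 2} : Finset ℤ)).image (fun p => p.1 + p.2 * 3 ^ k)

theorem Dall_card (k : ℕ) : (Dall k).card ≤ 9 * 2 ^ k := by
  have h1 := DS_card {0, 1} (k + 1)
  have h2 := DS_card {0, 1} k
  have h3 := DS_card {1, -1} k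
  have h4 := DS_card {1, 3} k
  have c1 : ({0, 1} : Finset ℤ).card = 2 := by decide
  have c2 : ({1, -1} : Finset ℤ).card = 2 := by decide
  have c3 : ({1, 3} : Finset ℤ).card = 2 := by decide
  have c4 : ({0, 1, 2} : Finset ℤ).card = 3 := by decide
  rw [c1] at h1 h2
  rw [c2] at h3
  rw [c3] at h4
  have h5 : ((DS {1, -1} k ×ˢ ({0, 1, 2} : Finset ℤ)).image
      (fun p => p.1 - p.2 * 3 ^ k)).card ≤ 2 ^ k * 3 := by
    refine Finset.card_image_le.trans ?_
    rw [Finset.card_product, c4]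
    exact Nat.mul_le_mul_right _ h3
  have h6 : ((DS {1, 3} k ×ˢ ({0, 1, 2} : Finset ℤ)).image
      (fun p => p.1 + p.2 * 3 ^ k)).card ≤ 2 ^ k * 3 := by
    refine Finset.card_image_le.trans ?_
    rw [Finset.card_product, c4]
    exact Nat.mul_le_mul_right _ h4
  unfold Dall
  refine (Finset.card_union_le _ _).trans ?_
  refine (Nat.add_le_add_right (Finset.card_union_le _ _) _).trans ?_
  refine (Nat.add_le_add_right (Nat.add_le_add_right (Finset.card_union_le _ _) _) _).trans ?_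
  rw [pow_succ] at h1
  omega

/-- All special line indices: digit part times `12`, with a sign, a shift and an offset. -/
noncomputable def Big (n k : ℕ) : Finset ℤ :=
  ((({1, -1} : Finset ℤ) ×ˢ ({0, (n : ℤ) - 1} : Finset ℤ)) ×ˢ
    (Finset.Icc (-24 : ℤ) 24 ×ˢ Dall k)).image
    (fun p => p.1.1 * (12 * p.2.2) + p.1.2 + p.2.1)

theorem mem_Big {n k : ℕ} {c : ℤ} (σ s w d : ℤ) (hσ : σ = 1 ∨ σ = -1)
    (hs : s = 0 ∨ s = (n : ℤ) - 1) (hw : -24 ≤ w ∧ w ≤ 24) (hd : d ∈ Dall k)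
    (hc : c = σ * (12 * d) + s + w) : c ∈ Big n k := by
  refine Finset.mem_image.2 ⟨((σ, s), (w, d)), ?_, hc.symm⟩
  simp only [Finset.mem_product, Finset.mem_insert, Finset.mem_singleton, Finset.mem_Icc]
  exact ⟨⟨hσ, hs⟩, hw, hd⟩

theorem Big_card (n k : ℕ) : (Big n k).card ≤ 1764 * 2 ^ k := by
  have h := Dall_card k
  unfold Big
  refine Finset.card_image_le.trans ?_
  rw [Finset.card_product, Finset.card_product, Finset.card_product]
  have h1 : ({1, -1} : Finset ℤ).card ≤ 2 := by decide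
  have h2 : ({0, (n : ℤ) - 1} : Finset ℤ).card ≤ 2 := Finset.card_le_two
  have h3 : (Finset.Icc (-24 : ℤ) 24).card = 49 := by decide
  rw [h3]
  calc ({1, -1} : Finset ℤ).card * ({0, (n : ℤ) - 1} : Finset ℤ).card * (49 * (Dall k).card)
      ≤ 2 * 2 * (49 * (9 * 2 ^ k)) := by gcongr
    _ = 1764 * 2 ^ k := by ring

/-- Lines too close to a corner. -/
noncomputable def Exc (n : ℕ) : Finset ℤ :=
  Finset.Icc (-(n : ℤ)) (-n + 25) ∪ Finset.Icc ((n : ℤ) - 26) n ∪
    Finset.Icc 0 25 ∪ Finset.Icc (2 * (n : ℤ) - 27) (2 * n)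

theorem Exc_card (n : ℕ) : (Exc n).card ≤ 107 := by
  unfold Exc
  refine (Finset.card_union_le _ _).trans ?_
  refine (Nat.add_le_add_right (Finset.card_union_le _ _) _).trans ?_
  refine (Nat.add_le_add_right (Nat.add_le_add_right (Finset.card_union_le _ _) _) _).trans ?_
  simp only [Int.card_Icc]
  omega

/-- Line index of a point with integer coordinates. -/
def lz (i : Fin 4) (x y : ℤ) : ℤ := ![x, y, x - y, x + y] i

@[simp] theorem lz_zero (x y : ℤ) : lz 0 x y = x := rfl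
@[simp] theorem lz_one (x y : ℤ) : lz 1 x y = y := rfl
@[simp] theorem lz_two (x y : ℤ) : lz 2 x y = x - y := rfl
@[simp] theorem lz_three (x y : ℤ) : lz 3 x y = x + y := rfl

set_option maxHeartbeats 4000000 in
theorem coarse {n k : ℕ} (h1 : 12 * 3 ^ k ≤ n) (h2 : n < 12 * 3 ^ (k + 1)) (j : Fin 4) (c : ℤ)
    (hc : c ∈ R n j) (hexc : c ∉ Exc n) (x0 y0 : ℤ) (hx0 : 0 ≤ x0) (hx1 : x0 < 12)
    (hy0 : 0 ≤ y0) (hy1 : y0 < 12) (hmod : (12 : ℤ) ∣ c - lz j x0 y0) :
    ∃ x y : ℤ, 0 ≤ x ∧ x < n ∧ 0 ≤ y ∧ y < n ∧ (12 : ℤ) ∣ x - x0 ∧ (12 : ℤ) ∣ y - y0 ∧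
      lz j x y = c ∧ ∀ i, i ≠ j → lz i x y ∈ Big n k := by
  have h1' : (12 : ℤ) * 3 ^ k ≤ n := by exact_mod_cast h1
  have h2' : (n : ℤ) < 12 * 3 ^ (k + 1) := by exact_mod_cast h2
  have hpow : (3 : ℤ) ^ (k + 1) = 3 * 3 ^ k := by ring
  -- the case of a row or a column
  have hrow : ∀ c' a0 b0 : ℤ, 0 ≤ c' → c' < n → 0 ≤ a0 → a0 < 12 → 0 ≤ b0 → b0 < 12 →
      (12 : ℤ) ∣ c' - b0 → ∃ X d1 d2 d3 : ℤ, 0 ≤ X ∧ X < n ∧ (12 : ℤ) ∣ X - a0 ∧
      d1 ∈ Dall k ∧ d2 ∈ Dall k ∧ d3 ∈ Dall k ∧ X = 12 * d1 + a0 ∧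
      X - c' = 12 * d2 + (a0 - b0) ∧ X + c' = 12 * d3 + (a0 + b0) := by
    intro c' a0 b0 hc0 hc1 ha0 ha1 hb0 hb1 ⟨m, hm⟩
    have hm0 : 0 ≤ m := by omega
    have hm1 : m < 3 * 3 ^ k := by rw [hpow] at h2'; omega
    have hpos : (0 : ℤ) < 3 ^ k := by positivity
    obtain ⟨x, e0, e1, e2, e3, e4⟩ := rowdig k (m % 3 ^ k) (Int.emod_nonneg _ hpos.ne')
      (Int.emod_lt_of_pos _ hpos)
    have hj0 : 0 ≤ m / 3 ^ k := Int.ediv_nonneg hm0 hpos.le
    have hj1 : m / 3 ^ k < 3 := Int.ediv_lt_of_lt_mul hpos hm1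
    have hdm : m = 3 ^ k * (m / 3 ^ k) + m % 3 ^ k := (Int.mul_ediv_add_emod m (3 ^ k)).symm
    have hjmem : m / 3 ^ k ∈ ({0, 1, 2} : Finset ℤ) := by
      simp only [Finset.mem_insert, Finset.mem_singleton]; omega
    refine ⟨12 * x + a0, x, x - m % 3 ^ k - (m / 3 ^ k) * 3 ^ k,
      x + m % 3 ^ k + (m / 3 ^ k) * 3 ^ k, by omega, by omega, ⟨x, by ring⟩, ?_, ?_, ?_,
      rfl, ?_, ?_⟩
    · unfold Dall
      simp only [Finset.mem_union]
      exact Or.inl (Or.inl (Or.inr e2))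
    · unfold Dall
      simp only [Finset.mem_union]
      refine Or.inl (Or.inr (Finset.mem_image.2 ⟨(x - m % 3 ^ k, m / 3 ^ k), ?_, rfl⟩))
      exact Finset.mem_product.2 ⟨e3, hjmem⟩
    · unfold Dall
      simp only [Finset.mem_union]
      refine Or.inr (Finset.mem_image.2 ⟨(x + m % 3 ^ k, m / 3 ^ k), ?_, rfl⟩)
      exact Finset.mem_product.2 ⟨e4, hjmem⟩
    · linarith
    · linarith
  -- the case of a diagonal
  have hdiag : ∀ t p0 q0 : ℤ, 24 ≤ t → t < n → 0 ≤ p0 → p0 < 12 → 0 ≤ q0 → q0 < 12 →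
      (12 : ℤ) ∣ t - p0 - q0 → ∃ p q d1 d2 d3 : ℤ, 0 ≤ p ∧ 0 ≤ q ∧ p + q = t ∧
      d1 ∈ Dall k ∧ d2 ∈ Dall k ∧ d3 ∈ Dall k ∧ p = 12 * d1 + p0 ∧ q = 12 * d2 + q0 ∧
      q - p = 12 * d3 + (q0 - p0) := by
    intro t p0 q0 ht0 ht1 hp0 hp1 hq0 hq1 ⟨m, hm⟩
    have hm0 : 0 ≤ m := by omega
    have hm1 : m < 3 ^ (k + 1) := by omega
    obtain ⟨p, q, e0, e1, e2, e3, e4, e5⟩ := sumdig (k + 1) m hm0 hm1
    refine ⟨12 * p + p0, 12 * q + q0, p, q, q - p, by omega, by omega, by omega, ?_, ?_, ?_,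
      rfl, rfl, by ring⟩
    all_goals
      unfold Dall
      simp only [Finset.mem_union]
      left; left; left
      assumption
  have hR : c ∈ R n j := hc
  fin_cases j
  · -- columns `x = c`
    simp only [R, Fin.zero_eta, Matrix.cons_val_zero, Finset.mem_Ico] at hc
    simp only [Fin.zero_eta, lz_zero] at hmod
    obtain ⟨Y, d1, d2, d3, f0, f1, f2, f3, f4, f5, f6, f7, f8⟩ :=
      hrow c y0 x0 hc.1 hc.2 hy0 hy1 hx0 hx1 hmod
    refine ⟨c, Y, hc.1, hc.2, f0, f1, hmod, f2, rfl, ?_⟩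
    intro i hi
    fin_cases i
    · exact absurd rfl hi
    · exact mem_Big 1 0 y0 d1 (Or.inl rfl) (Or.inl rfl) (by omega) f3 (by simp; omega)
    · exact mem_Big (-1) 0 (x0 - y0) d2 (Or.inr rfl) (Or.inl rfl) (by omega) f4 (by simp; omega)
    · exact mem_Big 1 0 (y0 + x0) d3 (Or.inl rfl) (Or.inl rfl) (by omega) f5 (by simp; omega)
  · -- rows `y = c`
    simp only [R, Fin.mk_one, Matrix.cons_val_one, Matrix.cons_val_zero, Finset.mem_Ico] at hc
    simp only [Fin.mk_one, lz_one] at hmod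
    obtain ⟨X, d1, d2, d3, f0, f1, f2, f3, f4, f5, f6, f7, f8⟩ :=
      hrow c x0 y0 hc.1 hc.2 hx0 hx1 hy0 hy1 hmod
    refine ⟨X, c, f0, f1, hc.1, hc.2, f2, hmod, rfl, ?_⟩
    intro i hi
    fin_cases i
    · exact mem_Big 1 0 x0 d1 (Or.inl rfl) (Or.inl rfl) (by omega) f3 (by simp; omega)
    · exact absurd rfl hi
    · exact mem_Big 1 0 (x0 - y0) d2 (Or.inl rfl) (Or.inl rfl) (by omega) f4 (by simp; omega)
    · exact mem_Big 1 0 (x0 + y0) d3 (Or.inl rfl) (Or.inl rfl) (by omega) f5 (by simp; omega)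
  · -- diagonals `x - y = c`
    simp only [R, Fin.reduceFinMk, Matrix.cons_val, Finset.mem_Ioo] at hc
    simp only [Fin.reduceFinMk, lz_two] at hmod
    obtain ⟨m, hm⟩ := hmod
    simp only [Exc, Finset.mem_union, Finset.mem_Icc, not_or, not_and, not_le] at hexc
    obtain ⟨⟨⟨g1, g2⟩, g3⟩, g4⟩ := hexc
    by_cases hc0 : 0 ≤ c
    · -- corner `(n-1, 0)`: x = n - 1 - p, y = q
      have ht : 24 ≤ (n : ℤ) - 1 - c := by
        by_contra hlt
        have := g2 (by omega)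
        omega
      have hp0 : 0 ≤ ((n : ℤ) - 1 - x0) % 12 := Int.emod_nonneg _ (by norm_num)
      have hp1 : ((n : ℤ) - 1 - x0) % 12 < 12 := Int.emod_lt_of_pos _ (by norm_num)
      have hpm : (12 : ℤ) ∣ ((n : ℤ) - 1 - x0) - ((n : ℤ) - 1 - x0) % 12 :=
        Int.dvd_self_sub_emod
      set p0 := ((n : ℤ) - 1 - x0) % 12 with hp0def
      obtain ⟨m', hm'⟩ := hpm
      obtain ⟨p, q, d1, d2, d3, f0, f1, f2, f3, f4, f5, f6, f7, f8⟩ :=
        hdiag ((n : ℤ) - 1 - c) p0 y0 ht (by omega) hp0 hp1 hy0 hy1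
          ⟨m' - m, by linarith⟩
      refine ⟨n - 1 - p, q, by omega, by omega, by omega, by omega, ⟨m' - d1, by linarith⟩,
        ⟨d2, by linarith⟩, by simp; omega, ?_⟩
      intro i hi
      fin_cases i
      · exact mem_Big (-1) (n - 1) (-p0) d1 (Or.inr rfl) (Or.inr rfl) (by omega) f3
          (by simp; omega)
      · exact mem_Big 1 0 y0 d2 (Or.inl rfl) (Or.inl rfl) (by omega) f4 (by simp; omega)
      · exact absurd rfl hi
      · exact mem_Big 1 (n - 1) (y0 - p0) d3 (Or.inl rfl) (Or.inr rfl) (by omega) f5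
          (by simp; omega)
    · -- corner `(0, n-1)`: x = q, y = n - 1 - p
      have ht : 24 ≤ (n : ℤ) - 1 + c := by
        by_contra hlt
        have := g1 (by omega)
        omega
      have hp0 : 0 ≤ ((n : ℤ) - 1 - y0) % 12 := Int.emod_nonneg _ (by norm_num)
      have hp1 : ((n : ℤ) - 1 - y0) % 12 < 12 := Int.emod_lt_of_pos _ (by norm_num)
      have hpm : (12 : ℤ) ∣ ((n : ℤ) - 1 - y0) - ((n : ℤ) - 1 - y0) % 12 :=
        Int.dvd_self_sub_emod
      set p0 := ((n : ℤ) - 1 - y0) % 12 with hp0def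
      obtain ⟨m', hm'⟩ := hpm
      obtain ⟨p, q, d1, d2, d3, f0, f1, f2, f3, f4, f5, f6, f7, f8⟩ :=
        hdiag ((n : ℤ) - 1 + c) p0 x0 ht (by omega) hp0 hp1 hx0 hx1
          ⟨m' + m, by linarith⟩
      refine ⟨q, n - 1 - p, by omega, by omega, by omega, by omega, ⟨d2, by linarith⟩,
        ⟨m' - d1, by linarith⟩, by simp; omega, ?_⟩
      intro i hi
      fin_cases i
      · exact mem_Big 1 0 x0 d2 (Or.inl rfl) (Or.inl rfl) (by omega) f4 (by simp; omega)
      · exact mem_Big (-1) (n - 1) (-p0) d1 (Or.inr rfl) (Or.inr rfl) (by omega) f3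
          (by simp; omega)
      · exact absurd rfl hi
      · exact mem_Big 1 (n - 1) (x0 - p0) d3 (Or.inl rfl) (Or.inr rfl) (by omega) f5
          (by simp; omega)
  · -- antidiagonals `x + y = c`
    simp only [R, Fin.reduceFinMk, Matrix.cons_val, Finset.mem_Ico] at hc
    simp only [Fin.reduceFinMk, lz_three] at hmod
    obtain ⟨m, hm⟩ := hmod
    simp only [Exc, Finset.mem_union, Finset.mem_Icc, not_or, not_and, not_le] at hexc
    obtain ⟨⟨⟨g1, g2⟩, g3⟩, g4⟩ := hexc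
    by_cases hc0 : c ≤ n - 1
    · -- corner `(0, 0)`: x = p, y = q
      have ht : 24 ≤ c := by
        by_contra hlt
        have := g3 hc.1
        omega
      obtain ⟨p, q, d1, d2, d3, f0, f1, f2, f3, f4, f5, f6, f7, f8⟩ :=
        hdiag c x0 y0 ht (by omega) hx0 hx1 hy0 hy1 ⟨m, by linarith⟩
      refine ⟨p, q, by omega, by omega, by omega, by omega, ⟨d1, by linarith⟩,
        ⟨d2, by linarith⟩, by simp; omega, ?_⟩
      intro i hi
      fin_cases i
      · exact mem_Big 1 0 x0 d1 (Or.inl rfl) (Or.inl rfl) (by omega) f3 (by simp; omega)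
      · exact mem_Big 1 0 y0 d2 (Or.inl rfl) (Or.inl rfl) (by omega) f4 (by simp; omega)
      · exact mem_Big (-1) 0 (x0 - y0) d3 (Or.inr rfl) (Or.inl rfl) (by omega) f5
          (by simp; omega)
      · exact absurd rfl hi
    · -- corner `(n-1, n-1)`: x = n - 1 - p, y = n - 1 - q
      have ht : 24 ≤ 2 * ((n : ℤ) - 1) - c := by
        by_contra hlt
        have := g4 (by omega)
        omega
      have hp0 : 0 ≤ ((n : ℤ) - 1 - x0) % 12 := Int.emod_nonneg _ (by norm_num)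
      have hp1 : ((n : ℤ) - 1 - x0) % 12 < 12 := Int.emod_lt_of_pos _ (by norm_num)
      have hpm : (12 : ℤ) ∣ ((n : ℤ) - 1 - x0) - ((n : ℤ) - 1 - x0) % 12 :=
        Int.dvd_self_sub_emod
      have hq0 : 0 ≤ ((n : ℤ) - 1 - y0) % 12 := Int.emod_nonneg _ (by norm_num)
      have hq1 : ((n : ℤ) - 1 - y0) % 12 < 12 := Int.emod_lt_of_pos _ (by norm_num)
      have hqm : (12 : ℤ) ∣ ((n : ℤ) - 1 - y0) - ((n : ℤ) - 1 - y0) % 12 :=
        Int.dvd_self_sub_emod
      set p0 := ((n : ℤ) - 1 - x0) % 12 with hp0def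
      set q0 := ((n : ℤ) - 1 - y0) % 12 with hq0def
      obtain ⟨m', hm'⟩ := hpm
      obtain ⟨m'', hm''⟩ := hqm
      obtain ⟨p, q, d1, d2, d3, f0, f1, f2, f3, f4, f5, f6, f7, f8⟩ :=
        hdiag (2 * ((n : ℤ) - 1) - c) p0 q0 ht (by omega) hp0 hp1 hq0 hq1
          ⟨m' + m'' - m, by linarith⟩
      refine ⟨n - 1 - p, n - 1 - q, by omega, by omega, by omega, by omega,
        ⟨m' - d1, by linarith⟩, ⟨m'' - d2, by linarith⟩, by simp; omega, ?_⟩
      intro i hi
      fin_cases i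
      · exact mem_Big (-1) (n - 1) (-p0) d1 (Or.inr rfl) (Or.inr rfl) (by omega) f3
          (by simp; omega)
      · exact mem_Big (-1) (n - 1) (-q0) d2 (Or.inr rfl) (Or.inr rfl) (by omega) f4
          (by simp; omega)
      · exact mem_Big 1 0 (q0 - p0) d3 (Or.inl rfl) (Or.inl rfl) (by omega) f5 (by simp; omega)
      · exact absurd rfl hi

/-- Residue classes modulo `12` of the lines that will carry several queens. -/
def bcl : Fin 4 → List ℤ :=
  ![[0, 1, 2, 3, 4, 5], [4, 5, 6, 9, 10, 11], [0, 3, 4, 6, 7, 10], [0, 4, 5, 7, 8, 11]]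

/-- Residue classes modulo `12` of the lines that will carry no queen. -/
def ecl : Fin 4 → List ℤ :=
  ![[6, 7, 8, 9, 10, 11], [0, 1, 2, 3, 7, 8], [1, 2, 5, 8, 9, 11], [1, 2, 3, 6, 9, 10]]

theorem cl_disjoint : ∀ i : Fin 4, ∀ c ∈ bcl i, c ∉ ecl i := by
  decide

theorem bcl_spec : ∀ j : Fin 4, ∀ r : Fin 12, ∃ x y : Fin 12,
    (lz j (x.val : ℤ) (y.val : ℤ)) % 12 = (r.val : ℤ) ∧
    ∀ i : Fin 4, i ≠ j → (lz i (x.val : ℤ) (y.val : ℤ)) % 12 ∈ bcl i := by
  decide +kernel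

theorem ecl_spec : ∀ j : Fin 4, ∀ r : Fin 12, ∃ x y : Fin 12,
    (lz j (x.val : ℤ) (y.val : ℤ)) % 12 = (r.val : ℤ) ∧
    ∀ i : Fin 4, i ≠ j → (lz i (x.val : ℤ) (y.val : ℤ)) % 12 ∈ ecl i := by
  decide +kernel

theorem lz_mod (i : Fin 4) {x y x0 y0 : ℤ} (hx : (12 : ℤ) ∣ x - x0) (hy : (12 : ℤ) ∣ y - y0) :
    lz i x y % 12 = lz i x0 y0 % 12 := by
  fin_cases i <;> simp <;> omega

/-- The point placed on a used line, for a choice `cl` of residue classes. -/
theorem place {n k : ℕ} (h1 : 12 * 3 ^ k ≤ n) (h2 : n < 12 * 3 ^ (k + 1))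
    (cl : Fin 4 → List ℤ)
    (hcl : ∀ j : Fin 4, ∀ r : Fin 12, ∃ x y : Fin 12,
      (lz j (x.val : ℤ) (y.val : ℤ)) % 12 = (r.val : ℤ) ∧
      ∀ i : Fin 4, i ≠ j → (lz i (x.val : ℤ) (y.val : ℤ)) % 12 ∈ cl i)
    (j : Fin 4) (c : ℤ) (hc : c ∈ R n j) (hexc : c ∉ Exc n) :
    ∃ p : Fin n × Fin n, ln j p = c ∧ ∀ i, i ≠ j → ln i p ∈ Big n k ∧ ln i p % 12 ∈ cl i := by
  have hr0 : 0 ≤ c % 12 := Int.emod_nonneg _ (by norm_num)
  have hr1 : c % 12 < 12 := Int.emod_lt_of_pos _ (by norm_num)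
  obtain ⟨x0, y0, hxy, hcls⟩ := hcl j ⟨(c % 12).toNat, by omega⟩
  have hrr : (((c % 12).toNat : ℕ) : ℤ) = c % 12 := Int.toNat_of_nonneg hr0
  simp only [hrr] at hxy
  obtain ⟨x, y, a1, a2, a3, a4, a5, a6, a7, a8⟩ := coarse h1 h2 j c hc hexc (x0.val : ℤ)
    (y0.val : ℤ) (by positivity) (by exact_mod_cast x0.isLt) (by positivity)
    (by exact_mod_cast y0.isLt) (by omega)
  have hxn : (((x.toNat : ℕ)) : ℤ) = x := Int.toNat_of_nonneg a1
  have hyn : (((y.toNat : ℕ)) : ℤ) = y := Int.toNat_of_nonneg a3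
  have hln : ∀ i, ln i ((⟨x.toNat, by omega⟩, ⟨y.toNat, by omega⟩) : Fin n × Fin n)
      = lz i x y := by
    intro i
    simp only [ln, lz, hxn, hyn]
  refine ⟨(⟨x.toNat, by omega⟩, ⟨y.toNat, by omega⟩), ?_, ?_⟩
  · rw [hln]; exact a7
  · intro i hi
    rw [hln]
    refine ⟨a8 i hi, ?_⟩
    rw [lz_mod i a5 a6]
    exact hcls i hi

theorem lower_count {n k : ℕ} (h1 : 12 * 3 ^ k ≤ n) (h2 : n < 12 * 3 ^ (k + 1)) :
    ∃ S : Finset (Fin n × Fin n), Irredundant (queens n) S ∧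
      6 * n ≤ S.card + 2 + 4 * ((Big n k).card + (Exc n).card) := by
  classical
  have hn : 1 ≤ n := by
    have : 0 < 3 ^ k := by positivity
    omega
  -- used lines
  let UL : Finset (Fin 4 × ℤ) := (Finset.univ : Finset (Fin 4)).biUnion
    (fun j => ((R n j) \ (Big n k ∪ Exc n)).image (fun c => (j, c)))
  have memUL : ∀ l : Fin 4 × ℤ, l ∈ UL ↔ l.2 ∈ R n l.1 ∧ l.2 ∉ Big n k ∧ l.2 ∉ Exc n := by
    rintro ⟨j, c⟩
    simp only [UL, Finset.mem_biUnion, Finset.mem_univ, true_and, Finset.mem_image,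
      Finset.mem_sdiff, Finset.mem_union, not_or, Prod.mk.injEq]
    constructor
    · rintro ⟨j', c', ⟨hc1, hc2, hc3⟩, rfl, rfl⟩
      exact ⟨hc1, hc2, hc3⟩
    · rintro ⟨hc1, hc2, hc3⟩
      exact ⟨j, c, ⟨hc1, hc2, hc3⟩, rfl, rfl⟩
  have hq : ∀ l : Fin 4 × ℤ, ∃ p : Fin n × Fin n, l ∈ UL → ln l.1 p = l.2 ∧
      ∀ i, i ≠ l.1 → ln i p ∈ Big n k ∧ ln i p % 12 ∈ bcl i := by
    intro l
    by_cases hl : l ∈ UL
    · obtain ⟨e1, e2, e3⟩ := (memUL l).1 hl
      obtain ⟨p, hp⟩ := place h1 h2 bcl bcl_spec l.1 l.2 e1 e3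
      exact ⟨p, fun _ => hp⟩
    · exact ⟨(⟨0, hn⟩, ⟨0, hn⟩), fun h => absurd h hl⟩
  choose q hq using hq
  let S : Finset (Fin n × Fin n) := UL.image q
  have hinj : Set.InjOn q UL := by
    intro l hl l' hl' hll
    have hl := Finset.mem_coe.1 hl
    have hl' := Finset.mem_coe.1 hl'
    obtain ⟨e1, e2⟩ := hq l hl
    obtain ⟨e1', e2'⟩ := hq l' hl'
    by_cases hj : l.1 = l'.1
    · refine Prod.ext hj ?_
      rw [← e1, ← e1', hll, hj]
    · exfalso
      have := (e2 l'.1 (Ne.symm hj)).1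
      rw [hll, e1'] at this
      exact ((memUL l').1 hl').2.1 this
  refine ⟨S, ?_, ?_⟩
  · intro v hv
    obtain ⟨l, hl, rfl⟩ := Finset.mem_image.1 hv
    obtain ⟨e1, e2, e3⟩ := (memUL l).1 hl
    obtain ⟨w, hw1, hw2⟩ := place h1 h2 ecl ecl_spec l.1 l.2 e1 e3
    refine ⟨w, (nbhd_iff _ _).2 ⟨l.1, (hq l hl).1.trans hw1.symm⟩, ?_⟩
    intro u hu hne hadj
    obtain ⟨l', hl', rfl⟩ := Finset.mem_image.1 hu
    obtain ⟨i, hi⟩ := (nbhd_iff _ _).1 hadj
    obtain ⟨f1, f2⟩ := hq l' hl'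
    obtain ⟨g1, g2, g3⟩ := (memUL l').1 hl'
    by_cases hil : i = l.1
    · subst hil
      rw [hw1] at hi
      by_cases hj : l.1 = l'.1
      · apply hne
        have : l' = l := Prod.ext hj.symm (by rw [← f1, ← hj, hi])
        rw [this]
      · have := (f2 l.1 hj).1
        rw [hi] at this
        exact e2 this
    · obtain ⟨k1, k2⟩ := hw2 i hil
      by_cases hj : i = l'.1
      · subst hj
        rw [f1] at hi
        rw [← hi] at k1
        exact g2 k1
      · obtain ⟨m1, m2⟩ := f2 i hj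
        rw [hi] at m2
        exact cl_disjoint i _ m2 k2
  · have hcard : S.card = UL.card := Finset.card_image_of_injOn hinj
    have hULcard : UL.card = ∑ j : Fin 4, ((R n j) \ (Big n k ∪ Exc n)).card := by
      rw [Finset.card_biUnion]
      · apply Finset.sum_congr rfl
        intro j _
        rw [Finset.card_image_of_injective]
        intro a b h
        exact (Prod.mk.injEq _ _ _ _ ▸ h).2
      · intro i _ j _ hij
        show Disjoint _ _
        rw [Finset.disjoint_left]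
        intro l hl hl'
        obtain ⟨a, -, rfl⟩ := Finset.mem_image.1 hl
        obtain ⟨b, -, hb⟩ := Finset.mem_image.1 hl'
        exact hij (congrArg Prod.fst hb).symm
    have hsd : ∀ j : Fin 4, (R n j).card ≤ ((R n j) \ (Big n k ∪ Exc n)).card +
        ((Big n k).card + (Exc n).card) := by
      intro j
      have := Finset.card_le_card_sdiff_add_card (s := R n j) (t := Big n k ∪ Exc n)
      have h3 := Finset.card_union_le (Big n k) (Exc n)
      omega
    have hR0 : (R n 0).card = n := by simp [R]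
    have hR1 : (R n 1).card = n := by simp [R]
    have hR2 : (R n 2).card = 2 * n - 1 := by
      simp only [R, Matrix.cons_val, Int.card_Ioo]
      omega
    have hR3 : (R n 3).card = 2 * n - 1 := by
      simp only [R, Matrix.cons_val, Int.card_Ico]
      omega
    rw [hcard, hULcard, Fin.sum_univ_four]
    have := hsd 0
    have := hsd 1
    have := hsd 2
    have := hsd 3
    omega

theorem card_le_IR {n : ℕ} (S : Finset (Fin n × Fin n)) (hS : Irredundant (queens n) S) :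
    S.card ≤ IR (queens n) := by
  apply le_csSup
  · refine ⟨Fintype.card (Fin n × Fin n), ?_⟩
    rintro k ⟨T, -, rfl⟩
    exact Finset.card_le_univ T
  · exact ⟨S, hS, rfl⟩

theorem lower {n : ℕ} (hn : 1 ≤ n) :
    6 * (n : ℝ) - 7490 * (n : ℝ) ^ (Real.logb 3 2) ≤ IR (queens n) := by
  have hn' : (1 : ℝ) ≤ n := by exact_mod_cast hn
  have hlog : 0 < Real.logb 3 2 := Real.logb_pos (by norm_num) (by norm_num)
  have hone : (1 : ℝ) ≤ (n : ℝ) ^ (Real.logb 3 2) := Real.one_le_rpow hn' hlog.le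
  by_cases h12 : n < 12
  · have h1 : (n : ℝ) < 12 := by exact_mod_cast h12
    have h2 : (0 : ℝ) ≤ IR (queens n) := by positivity
    nlinarith
  · push Not at h12
    obtain ⟨k, hk1, hk2⟩ : ∃ k : ℕ, 12 * 3 ^ k ≤ n ∧ n < 12 * 3 ^ (k + 1) := by
      refine ⟨Nat.log 3 (n / 12), ?_, ?_⟩
      · have := Nat.pow_log_le_self 3 (x := n / 12) (by omega)
        omega
      · have := Nat.lt_pow_succ_log_self (b := 3) (by norm_num) (n / 12)
        rw [Nat.succ_eq_add_one] at this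
        omega
    obtain ⟨S, hS, hcard⟩ := lower_count hk1 hk2
    have h1 := card_le_IR S hS
    have h2 := Big_card n k
    have h3 := Exc_card n
    have h4 : 1 ≤ 2 ^ k := Nat.one_le_two_pow
    have h5 : 6 * n ≤ IR (queens n) + 7490 * 2 ^ k := by omega
    have h6 : 6 * (n : ℝ) ≤ IR (queens n) + 7490 * 2 ^ k := by exact_mod_cast h5
    have h7 : (2 : ℝ) ^ k ≤ (n : ℝ) ^ (Real.logb 3 2) := by
      have e1 : (3 : ℝ) ^ k ≤ n := by
        have : 3 ^ k ≤ n := by omega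
        exact_mod_cast this
      calc (2 : ℝ) ^ k = ((3 : ℝ) ^ (Real.logb 3 2)) ^ k := by
            rw [Real.rpow_logb (by norm_num) (by norm_num) (by norm_num)]
        _ = ((3 : ℝ) ^ k) ^ (Real.logb 3 2) := by
            rw [← Real.rpow_natCast, ← Real.rpow_mul (by norm_num), mul_comm,
              Real.rpow_mul (by norm_num), Real.rpow_natCast]
        _ ≤ (n : ℝ) ^ (Real.logb 3 2) := by
            apply Real.rpow_le_rpow (by positivity) e1 hlog.le
    linarith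

end Pool.Agent.KS6_62.QI.TS
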